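import Pool.Agent.SAV.St

/-!
# The cell lemma (E) from the lemma on independent points
-/

set_option autoImplicit false

open Finset

namespace Pool.Agent.SAV

namespace Celx

/-- The probability of the level `k` in the cell `j`. -/
noncomputable def lev (w : ℕ → ℝ) (j k : ℕ) : ℝ := max 0 (min 1 (w j - k))

lemma lev_nonneg (w : ℕ → ℝ) (j k : ℕ) : 0 ≤ lev w j k := le_max_left _ _

lemma lev_le_one (w : ℕ → ℝ) (j k : ℕ) : lev w j k ≤ 1 :=
  max_le zero_le_one (min_le_left _ _)

/-- The weights of the random point `(j, k)`. -/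
noncomputable def qq (M : ℕ) (w : ℕ → ℝ) (j k x : ℕ) : ℝ :=
  if j * M < x ∧ x ≤ (j + 1) * M then lev w j k / M else 0

lemma qq_nonneg (M : ℕ) (w : ℕ → ℝ) (j k x : ℕ) : 0 ≤ qq M w j k x := by
  unfold qq
  split_ifs
  · exact div_nonneg (lev_nonneg _ _ _) (Nat.cast_nonneg _)
  · exact le_rfl

/-- Double sums over distinct points. -/
lemma pair_sum (J K : ℕ) (w : ℕ → ℝ) (c : ℕ → ℕ → ℝ)
    (hK : ∀ j < J, ∑ k ∈ range K, lev w j k = w j) :
    ∑ k : Fin J × Fin K, ∑ l ∈ univ.erase k,
        lev w k.1 k.2 * lev w l.1 l.2 * c k.1 l.1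
      = ∑ i ∈ range J, ∑ j ∈ range J, w i * w j * c i j
        - ∑ i ∈ range J, (∑ a ∈ range K, lev w i a ^ 2) * c i i := by
  have h1 : ∀ k : Fin J × Fin K, ∑ l ∈ univ.erase k,
        lev w k.1 k.2 * lev w l.1 l.2 * c k.1 l.1
      = ∑ l : Fin J × Fin K, lev w k.1 k.2 * lev w l.1 l.2 * c k.1 l.1
        - lev w k.1 k.2 * lev w k.1 k.2 * c k.1 k.1 := fun k =>
    Finset.sum_erase_eq_sub (mem_univ k)
  rw [Finset.sum_congr rfl fun k _ => h1 k, Finset.sum_sub_distrib]
  congr 1
  · rw [Fintype.sum_prod_type, Finset.sum_range]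
    refine Finset.sum_congr rfl fun i _ => ?_
    have h2 : ∀ a : Fin K, ∑ l : Fin J × Fin K, lev w i a * lev w l.1 l.2 * c i l.1
        = lev w i a * ∑ j ∈ range J, w j * c i j := by
      intro a
      rw [Fintype.sum_prod_type, Finset.sum_range, Finset.mul_sum]
      refine Finset.sum_congr rfl fun j _ => ?_
      rw [← hK j j.2, Finset.sum_range, Finset.sum_mul, Finset.mul_sum]
      refine Finset.sum_congr rfl fun b _ => ?_
      ring
    rw [Finset.sum_congr rfl fun a _ => h2 a, ← Finset.sum_mul,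
      ← Finset.sum_range (fun a => lev w i a), hK i i.2, Finset.mul_sum]
    refine Finset.sum_congr rfl fun j _ => ?_
    ring
  · rw [Fintype.sum_prod_type, Finset.sum_range]
    refine Finset.sum_congr rfl fun i _ => ?_
    rw [Finset.sum_range, Finset.sum_mul]
    refine Finset.sum_congr rfl fun a _ => ?_
    ring

/-- The sum of a product of two weights. -/
lemma sum_qq (M N : ℕ) (w : ℕ → ℝ) (i a j b : ℕ) (f : ℕ → ℕ) :
    ∑ x ∈ Icc 1 N, qq M w i a x * qq M w j b (f x)
      = lev w i a * lev w j b * ((((Icc 1 N).filter fun x => (i * M < x ∧ x ≤ (i + 1) * M) ∧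
          j * M < f x ∧ f x ≤ (j + 1) * M).card : ℝ) / (M : ℝ) ^ 2) := by
  have h1 : ∀ x ∈ Icc 1 N, qq M w i a x * qq M w j b (f x)
      = if (i * M < x ∧ x ≤ (i + 1) * M) ∧ j * M < f x ∧ f x ≤ (j + 1) * M then
          lev w i a * lev w j b / (M : ℝ) ^ 2 else 0 := by
    intro x _
    unfold qq
    by_cases h2 : i * M < x ∧ x ≤ (i + 1) * M
    · by_cases h3 : j * M < f x ∧ f x ≤ (j + 1) * M
      · rw [if_pos h2, if_pos h3, if_pos ⟨h2, h3⟩]
        rw [sq, div_mul_div_comm]
      · rw [if_neg h3, mul_zero, if_neg (fun h => h3 h.2)]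
    · rw [if_neg h2, zero_mul, if_neg (fun h => h2 h.1)]
  rw [Finset.sum_congr rfl h1, ← Finset.sum_filter, Finset.sum_const, nsmul_eq_mul]
  ring

/-- The correlation sums. -/
lemma sum_diag (J e : ℕ) (w : ℕ → ℝ) :
    ∑ i ∈ range J, ∑ j ∈ range J, (if j = i + e then w i * w j else 0)
      = ∑ i ∈ range (J - e), w i * w (i + e) := by
  have h1 : ∀ i ∈ range J, ∑ j ∈ range J, (if j = i + e then w i * w j else 0)
      = if i < J - e then w i * w (i + e) else 0 := by
    intro i _
    rw [Finset.sum_ite_eq' (range J) (i + e) (fun j => w i * w j)]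
    by_cases h : i + e < J
    · rw [if_pos (Finset.mem_range.2 h), if_pos (by omega)]
    · rw [if_neg (fun h' => h (Finset.mem_range.1 h')), if_neg (by omega)]
  rw [Finset.sum_congr rfl h1, ← Finset.sum_filter]
  congr 1
  ext i
  simp only [Finset.mem_filter, Finset.mem_range]
  omega

/-- The convolution sums are at most the sum of the squares. -/
lemma sum_anti (J : ℕ) (w : ℕ → ℝ) (P : ℕ → ℕ → Prop) [∀ i j, Decidable (P i j)]
    (h1 : ∀ i j j', P i j → P i j' → j = j') (h2 : ∀ i i' j, P i j → P i' j → i = i') :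
    ∑ i ∈ range J, ∑ j ∈ range J, (if P i j then w i * w j else 0)
      ≤ ∑ i ∈ range J, w i ^ 2 := by
  have h3 : ∑ i ∈ range J, ∑ j ∈ range J, (if P i j then w i * w j else 0)
      ≤ ∑ i ∈ range J, ∑ j ∈ range J, (if P i j then (w i ^ 2 + w j ^ 2) / 2 else 0) := by
    refine Finset.sum_le_sum fun i _ => Finset.sum_le_sum fun j _ => ?_
    split_ifs
    · nlinarith [sq_nonneg (w i - w j)]
    · exact le_rfl
  have h4 : ∀ i ∈ range J, ∑ j ∈ range J, (if P i j then w i ^ 2 else 0) ≤ w i ^ 2 := by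
    intro i _
    rw [← Finset.sum_filter, Finset.sum_const, nsmul_eq_mul]
    have h5 : ((range J).filter fun j => P i j).card ≤ 1 := by
      rw [Finset.card_le_one]
      intro a ha b hb
      exact h1 i a b (Finset.mem_filter.1 ha).2 (Finset.mem_filter.1 hb).2
    have h6 : ((((range J).filter fun j => P i j).card : ℕ) : ℝ) ≤ 1 := by exact_mod_cast h5
    nlinarith [sq_nonneg (w i)]
  have h4' : ∀ j ∈ range J, ∑ i ∈ range J, (if P i j then w j ^ 2 else 0) ≤ w j ^ 2 := by
    intro j _
    rw [← Finset.sum_filter, Finset.sum_const, nsmul_eq_mul]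
    have h5 : ((range J).filter fun i => P i j).card ≤ 1 := by
      rw [Finset.card_le_one]
      intro a ha b hb
      exact h2 a b j (Finset.mem_filter.1 ha).2 (Finset.mem_filter.1 hb).2
    have h6 : ((((range J).filter fun i => P i j).card : ℕ) : ℝ) ≤ 1 := by exact_mod_cast h5
    nlinarith [sq_nonneg (w j)]
  have h7 : ∑ i ∈ range J, ∑ j ∈ range J, (if P i j then (w i ^ 2 + w j ^ 2) / 2 else 0)
      = (∑ i ∈ range J, ∑ j ∈ range J, (if P i j then w i ^ 2 else 0)) / 2
        + (∑ j ∈ range J, ∑ i ∈ range J, (if P i j then w j ^ 2 else 0)) / 2 := by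
    rw [Finset.sum_comm (s := range J) (t := range J)
      (f := fun j i => if P i j then w j ^ 2 else 0), Finset.sum_div, Finset.sum_div,
      ← Finset.sum_add_distrib]
    refine Finset.sum_congr rfl fun i _ => ?_
    rw [Finset.sum_div, Finset.sum_div, ← Finset.sum_add_distrib]
    refine Finset.sum_congr rfl fun j _ => ?_
    split_ifs <;> ring
  have h8 := Finset.sum_le_sum h4
  have h9 := Finset.sum_le_sum h4'
  rw [h7] at h3
  linarith

end Celx

open Celx in
theorem thm_Cel (hInd : St_Ind) (hCnd : St_Cnd) (hCns : St_Cns) (hLvl : St_Lvl) : St_Cel := by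
  classical
  intro M J N w W hM hJM hw hR hV hS
  have hM' : (1 : ℝ) ≤ M := by exact_mod_cast hM
  have hM0 : (0 : ℝ) < M := by linarith
  obtain ⟨K, hK⟩ : ∃ K : ℕ, W ≤ K := exists_nat_ge W
  have hlev1 : ∀ j < J, ∑ k ∈ range K, lev w j k = w j := fun j hj =>
    (hLvl (w j) K (hw j hj).1 ((hw j hj).2.trans hK)).1
  have hlev2 : ∀ j < J, w j ^ 2 - ∑ k ∈ range K, lev w j k ^ 2
      ≤ (w j - 1) ^ 2 + 2 * |w j - 1| := fun j hj =>
    (hLvl (w j) K (hw j hj).1 ((hw j hj).2.trans hK)).2
  have hlevsq : ∀ j, 0 ≤ ∑ k ∈ range K, lev w j k ^ 2 := fun j =>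
    Finset.sum_nonneg fun _ _ => sq_nonneg _
  have hcell : ∀ j < J, (j + 1) * M ≤ N := fun j hj =>
    (Nat.mul_le_mul_right M (Nat.succ_le_of_lt hj)).trans hJM
  -- the random points
  set q : Fin J × Fin K → ℕ → ℝ := fun k x => qq M w k.1 k.2 x with hq
  have hq0 : ∀ k x, 0 ≤ q k x := fun k x => qq_nonneg _ _ _ _ _
  have hqs : ∀ k x, x ∉ Icc 1 N → q k x = 0 := by
    intro k x hx
    rw [Finset.mem_Icc] at hx
    rw [hq]
    simp only [qq]
    rw [if_neg]
    rintro ⟨h1, h2⟩
    have := hcell k.1 k.1.2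
    omega
  -- double sums
  have hdouble : ∀ e t : ℕ, t < M →
      ∑ k : Fin J × Fin K, ∑ l ∈ univ.erase k, ∑ x ∈ Icc 1 N, q k x * q l (x + (e * M + t))
        = (((M - t : ℕ) : ℝ) * (∑ i ∈ range (J - e), w i * w (i + e))
            + (t : ℝ) * (∑ i ∈ range (J - (e + 1)), w i * w (i + (e + 1)))
            - (if e = 0 then ((M - t : ℕ) : ℝ) else 0)
              * ∑ i ∈ range J, ∑ a ∈ range K, lev w i a ^ 2) / (M : ℝ) ^ 2 := by
    intro e t ht
    set c : ℕ → ℕ → ℝ := fun i j =>
      (((if j = i + e then M - t else if j = i + e + 1 then t else 0 : ℕ) : ℝ)) / (M : ℝ) ^ 2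
      with hc
    have h1 : ∀ k : Fin J × Fin K, ∀ l : Fin J × Fin K,
        ∑ x ∈ Icc 1 N, q k x * q l (x + (e * M + t))
          = lev w k.1 k.2 * lev w l.1 l.2 * c k.1 l.1 := by
      intro k l
      rw [hq]
      simp only
      rw [sum_qq M N w k.1 k.2 l.1 l.2 (fun x => x + (e * M + t)),
        hCnd M N k.1 l.1 e t ht (hcell k.1 k.1.2)]
    rw [Finset.sum_congr rfl fun k _ => Finset.sum_congr rfl fun l _ => h1 k l,
      pair_sum J K w c hlev1]
    have h2 : ∑ i ∈ range J, ∑ j ∈ range J, w i * w j * c i j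
        = (((M - t : ℕ) : ℝ) * (∑ i ∈ range (J - e), w i * w (i + e))
            + (t : ℝ) * (∑ i ∈ range (J - (e + 1)), w i * w (i + (e + 1)))) / (M : ℝ) ^ 2 := by
      rw [← sum_diag, ← sum_diag, Finset.mul_sum, Finset.mul_sum, ← Finset.sum_add_distrib,
        Finset.sum_div]
      refine Finset.sum_congr rfl fun i _ => ?_
      rw [Finset.mul_sum, Finset.mul_sum, ← Finset.sum_add_distrib, Finset.sum_div]
      refine Finset.sum_congr rfl fun j _ => ?_
      rw [hc]
      simp only
      by_cases h3 : j = i + e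
      · rw [if_pos h3, if_pos h3, if_neg (by omega)]
        ring
      · rw [if_neg h3, if_neg h3]
        by_cases h4 : j = i + e + 1
        · rw [if_pos h4, if_pos (by omega)]
          ring
        · rw [if_neg h4, if_neg (by omega)]
          push_cast
          ring
    have h5 : ∑ i ∈ range J, (∑ a ∈ range K, lev w i a ^ 2) * c i i
        = ((if e = 0 then ((M - t : ℕ) : ℝ) else 0)
              * ∑ i ∈ range J, ∑ a ∈ range K, lev w i a ^ 2) / (M : ℝ) ^ 2 := by
      rw [Finset.mul_sum, Finset.sum_div]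
      refine Finset.sum_congr rfl fun i _ => ?_
      rw [hc]
      simp only
      by_cases h6 : e = 0
      · subst h6
        rw [if_pos (by omega), if_pos rfl]
        ring
      · rw [if_neg (by omega), if_neg (by omega), if_neg h6]
        push_cast
        ring
    rw [h2, h5, sub_div]
  -- the same cell
  have hsame : ∑ i ∈ range J, w i ^ 2 - ∑ i ∈ range J, ∑ a ∈ range K, lev w i a ^ 2 ≤ M := by
    rw [← Finset.sum_sub_distrib]
    refine (Finset.sum_le_sum fun i hi => ?_).trans hV
    exact hlev2 i (Finset.mem_range.1 hi)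
  have hR' : ∀ e : ℕ, 1 ≤ e → ∑ j ∈ range (J - e), w j * w (j + e) ≤ M := by
    intro e he
    by_cases h : e < J
    · exact hR e he h
    · rw [show J - e = 0 by omega]
      simp only [Finset.range_zero, Finset.sum_empty]
      linarith
  have hdouble' : ∀ d : ℕ,
      ∑ k : Fin J × Fin K, ∑ l ∈ univ.erase k, ∑ x ∈ Icc 1 N, q k x * q l (x + d) ≤ 1 := by
    intro d
    have hd : (d / M) * M + d % M = d := by
      have := Nat.div_add_mod d M
      rw [Nat.mul_comm] at this
      exact this
    have ht : d % M < M := Nat.mod_lt _ hM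
    have h := hdouble (d / M) (d % M) ht
    rw [hd] at h
    rw [h, div_le_one (by positivity)]
    have hc1 : ((M - d % M : ℕ) : ℝ) = (M : ℝ) - (d % M : ℕ) := by
      rw [Nat.cast_sub ht.le]
    have hc2 : (0 : ℝ) ≤ (M : ℝ) - (d % M : ℕ) := by
      have : ((d % M : ℕ) : ℝ) ≤ M := by exact_mod_cast ht.le
      linarith
    have hc3 : (0 : ℝ) ≤ ((d % M : ℕ) : ℝ) := Nat.cast_nonneg _
    rw [hc1]
    have hB := mul_le_mul_of_nonneg_left (hR' (d / M + 1) (Nat.le_add_left 1 _)) hc3
    by_cases he : d / M = 0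
    · rw [if_pos he]
      rw [he] at hB ⊢
      have hA := mul_le_mul_of_nonneg_left hsame hc2
      have e1 : ∑ i ∈ range (J - 0), w i * w (i + 0) = ∑ i ∈ range J, w i ^ 2 := by
        rw [Nat.sub_zero]
        refine Finset.sum_congr rfl fun i _ => ?_
        rw [Nat.add_zero, sq]
      rw [e1]
      nlinarith
    · rw [if_neg he]
      have hA := mul_le_mul_of_nonneg_left (hR' (d / M) (Nat.one_le_iff_ne_zero.2 he)) hc2
      nlinarith
  have hqsum : ∀ k, ∑ x ∈ Icc 1 N, q k x = lev w k.1 k.2 := by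
    intro k
    have h1 := hCnd M N k.1 k.1 0 0 hM (hcell k.1 k.1.2)
    have h2 : ∑ x ∈ Icc 1 N, q k x = ∑ x ∈ Icc 1 N,
        if (((k.1 : ℕ) * M < x ∧ x ≤ ((k.1 : ℕ) + 1) * M) ∧ (k.1 : ℕ) * M < x + (0 * M + 0) ∧
          x + (0 * M + 0) ≤ ((k.1 : ℕ) + 1) * M) then lev w k.1 k.2 / M else 0 := by
      refine Finset.sum_congr rfl fun x _ => ?_
      rw [hq]
      simp only [qq]
      congr 1
      simp only [Nat.zero_mul, Nat.add_zero, and_self]
    rw [h2, ← Finset.sum_filter, Finset.sum_const, h1, if_pos (by omega), nsmul_eq_mul,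
      Nat.sub_zero]
    field_simp
  obtain ⟨p, hp0, hp1, hp2, hp3, hp4⟩ := hInd (Fin J × Fin K) N q hq0 hqs (fun k => by
    rw [hqsum k]
    exact lev_le_one _ _ _)
  refine ⟨p, ⟨fun A _ => hp0 A, hp1, ?_, ?_⟩, ?_⟩
  · intro d hd
    exact (hp2 d hd).trans (hdouble' d)
  · intro s
    refine (hp3 s).trans ?_
    rcases Nat.eq_zero_or_pos J with hJ | hJ
    · subst hJ
      have : IsEmpty (Fin 0 × Fin K) := inferInstance
      simp
    have hW0 : 0 ≤ W := (hw 0 hJ).1.trans (hw 0 hJ).2
    rcases Nat.eq_zero_or_pos s with hs | hs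
    · subst hs
      have h1 : ∑ k : Fin J × Fin K, ∑ l ∈ univ.erase k, ∑ x ∈ Icc 1 N, q k x * q l (0 - x) = 0 := by
        refine Finset.sum_eq_zero fun k _ => Finset.sum_eq_zero fun l _ =>
          Finset.sum_eq_zero fun x _ => ?_
        rw [Nat.zero_sub, hqs l 0 (by simp), mul_zero]
      have h2 : ∑ k : Fin J × Fin K, ∑ x ∈ Icc 1 N, (if 2 * x = 0 then q k x else (0 : ℝ)) = 0 := by
        refine Finset.sum_eq_zero fun k _ => Finset.sum_eq_zero fun x hx => ?_
        rw [Finset.mem_Icc] at hx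
        rw [if_neg (by omega)]
      rw [h1, h2]
      norm_num
    -- the representation of s
    obtain ⟨e, he⟩ : ∃ e, e = (s - 1) / M := ⟨_, rfl⟩
    obtain ⟨t, ht⟩ : ∃ t, t = (s - 1) % M + 1 := ⟨_, rfl⟩
    have hs' : e * M + t = s := by
      have h := Nat.div_add_mod (s - 1) M
      rw [Nat.mul_comm, ← he] at h
      omega
    have ht1 : 1 ≤ t := by omega
    have ht2 : t ≤ M := by
      have := Nat.mod_lt (s - 1) hM
      omega
    -- first term
    have hfirst : ∑ k : Fin J × Fin K, ∑ l ∈ univ.erase k, ∑ x ∈ Icc 1 N, q k x * q l (s - x)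
        ≤ (∑ i ∈ range J, w i ^ 2) / M := by
      set c : ℕ → ℕ → ℝ := fun i j =>
        (((if i + j = e then t - 1 else if i + j + 1 = e then M + 1 - t else 0 : ℕ) : ℝ))
          / (M : ℝ) ^ 2 with hc
      have h1 : ∀ k : Fin J × Fin K, ∀ l : Fin J × Fin K,
          ∑ x ∈ Icc 1 N, q k x * q l (s - x)
            = lev w k.1 k.2 * lev w l.1 l.2 * c k.1 l.1 := by
        intro k l
        rw [hq]
        simp only
        rw [← hs', sum_qq M N w k.1 k.2 l.1 l.2 (fun x => e * M + t - x),
          hCns M N k.1 l.1 e t ht1 ht2 (hcell k.1 k.1.2)]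
      rw [Finset.sum_congr rfl fun k _ => Finset.sum_congr rfl fun l _ => h1 k l,
        pair_sum J K w c hlev1]
      have h2 : 0 ≤ ∑ i ∈ range J, (∑ a ∈ range K, lev w i a ^ 2) * c i i := by
        refine Finset.sum_nonneg fun i _ => mul_nonneg (hlevsq i) ?_
        rw [hc]
        positivity
      have h3 : ∑ i ∈ range J, ∑ j ∈ range J, w i * w j * c i j
          = (((t - 1 : ℕ) : ℝ) * (∑ i ∈ range J, ∑ j ∈ range J,
              (if i + j = e then w i * w j else 0))
            + ((M + 1 - t : ℕ) : ℝ) * (∑ i ∈ range J, ∑ j ∈ range J,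
              (if i + j + 1 = e then w i * w j else 0))) / (M : ℝ) ^ 2 := by
        rw [Finset.mul_sum, Finset.mul_sum, ← Finset.sum_add_distrib, Finset.sum_div]
        refine Finset.sum_congr rfl fun i _ => ?_
        rw [Finset.mul_sum, Finset.mul_sum, ← Finset.sum_add_distrib, Finset.sum_div]
        refine Finset.sum_congr rfl fun j _ => ?_
        rw [hc]
        simp only
        by_cases h3 : i + j = e
        · rw [if_pos h3, if_pos h3, if_neg (by omega)]
          ring
        · rw [if_neg h3, if_neg h3]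
          by_cases h4 : i + j + 1 = e
          · rw [if_pos h4, if_pos h4]
            ring
          · rw [if_neg h4, if_neg h4]
            push_cast
            ring
      have h4 := sum_anti J w (fun i j => i + j = e) (fun i j j' h h' => by omega)
        (fun i i' j h h' => by omega)
      have h5 := sum_anti J w (fun i j => i + j + 1 = e) (fun i j j' h h' => by omega)
        (fun i i' j h h' => by omega)
      have h6 : (((t - 1 : ℕ) : ℝ)) + ((M + 1 - t : ℕ) : ℝ) = M := by
        have : (t - 1) + (M + 1 - t) = M := by omega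
        exact_mod_cast this
      rw [h3]
      have h7 := mul_le_mul_of_nonneg_left h4 (Nat.cast_nonneg (t - 1) : (0 : ℝ) ≤ ((t - 1 : ℕ) : ℝ))
      have h8 := mul_le_mul_of_nonneg_left h5
        (Nat.cast_nonneg (M + 1 - t) : (0 : ℝ) ≤ ((M + 1 - t : ℕ) : ℝ))
      have h9 : (((t - 1 : ℕ) : ℝ) * (∑ i ∈ range J, ∑ j ∈ range J,
              (if i + j = e then w i * w j else 0))
            + ((M + 1 - t : ℕ) : ℝ) * (∑ i ∈ range J, ∑ j ∈ range J,
              (if i + j + 1 = e then w i * w j else 0))) / (M : ℝ) ^ 2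
            ≤ (∑ i ∈ range J, w i ^ 2) / M := by
        rw [div_le_div_iff₀ (by positivity) hM0]
        have h10 : (((t - 1 : ℕ) : ℝ) * (∑ i ∈ range J, ∑ j ∈ range J,
              (if i + j = e then w i * w j else 0))
            + ((M + 1 - t : ℕ) : ℝ) * (∑ i ∈ range J, ∑ j ∈ range J,
              (if i + j + 1 = e then w i * w j else 0)))
            ≤ M * ∑ i ∈ range J, w i ^ 2 := by
          calc _ ≤ ((t - 1 : ℕ) : ℝ) * (∑ i ∈ range J, w i ^ 2)
                + ((M + 1 - t : ℕ) : ℝ) * (∑ i ∈ range J, w i ^ 2) := add_le_add h7 h8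
            _ = _ := by rw [← add_mul, h6]
        have h11 := mul_le_mul_of_nonneg_right h10 hM0.le
        calc _ ≤ _ := h11
          _ = _ := by ring
      linarith
    -- second term
    have hsecond : ∑ k : Fin J × Fin K, ∑ x ∈ Icc 1 N, (if 2 * x = s then q k x else (0 : ℝ))
        ≤ W / M := by
      have hWM : 0 ≤ W / M := div_nonneg hW0 hM0.le
      by_cases hy : ∃ y ∈ Icc 1 N, 2 * y = s
      · obtain ⟨y, hyN, hys⟩ := hy
        have h1 : ∀ k : Fin J × Fin K, ∑ x ∈ Icc 1 N, (if 2 * x = s then q k x else (0 : ℝ))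
            = q k y := by
          intro k
          rw [Finset.sum_eq_single_of_mem y hyN, if_pos hys]
          intro x _ hx
          rw [if_neg (by omega)]
        rw [Finset.sum_congr rfl fun k _ => h1 k, Fintype.sum_prod_type]
        have h2 : ∀ j : Fin J, ∑ a : Fin K, q (j, a) y
            = if (j : ℕ) * M < y ∧ y ≤ ((j : ℕ) + 1) * M then w j / M else 0 := by
          intro j
          rw [hq]
          simp only [qq]
          split_ifs with h3
          · rw [← Finset.sum_div, ← Finset.sum_range (fun a => lev w j a), hlev1 j j.2]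
          · simp
        rw [Finset.sum_congr rfl fun j _ => h2 j]
        by_cases h4 : ∃ j : Fin J, (j : ℕ) * M < y ∧ y ≤ ((j : ℕ) + 1) * M
        · obtain ⟨j, hj⟩ := h4
          rw [Finset.sum_eq_single_of_mem j (mem_univ j), if_pos hj]
          · exact div_le_div_of_nonneg_right (hw j j.2).2 hM0.le
          · intro i _ hij
            rw [if_neg]
            rintro ⟨h5, h6⟩
            apply hij
            have h7 : (i : ℕ) < (j : ℕ) + 1 := by
              by_contra h8
              have h9 := Nat.mul_le_mul_right M (not_lt.1 h8)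
              omega
            have h8 : (j : ℕ) < (i : ℕ) + 1 := by
              by_contra h8
              have h9 := Nat.mul_le_mul_right M (not_lt.1 h8)
              omega
            exact Fin.ext (by omega)
        · rw [Finset.sum_eq_zero]
          · exact hWM
          · intro j _
            rw [if_neg (fun h => h4 ⟨j, h⟩)]
      · rw [Finset.sum_eq_zero]
        · exact hWM
        · intro k _
          refine Finset.sum_eq_zero fun x hx => ?_
          rw [if_neg (fun h => hy ⟨x, hx, h⟩)]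
    have h12 : (∑ i ∈ range J, w i ^ 2) / M / 2 + W / M ≤ 1 := by
      have h13 : (∑ i ∈ range J, w i ^ 2) / M / 2 + W / M
          = ((∑ i ∈ range J, w i ^ 2) / 2 + W) / M := by ring
      rw [h13, div_le_one hM0]
      exact hS
    linarith
  · refine le_trans ?_ hp4
    have h1 : ∑ k : Fin J × Fin K, ∑ x ∈ Icc 1 N, q k x = ∑ j ∈ range J, w j := by
      rw [Finset.sum_congr rfl fun k _ => hqsum k, Fintype.sum_prod_type, Finset.sum_range]
      refine Finset.sum_congr rfl fun j _ => ?_
      rw [← Finset.sum_range (fun a => lev w j a), hlev1 j j.2]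
    have h2 := hdouble' 0
    simp only [Nat.add_zero] at h2
    rw [h1]
    linarith

end Pool.Agent.SAV
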