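import Pool.Agent.SAV.St

/-!
# Counting pairs in two cells, and the levels (E1, E2, E3)
-/

set_option autoImplicit false

open Finset

namespace Pool.Agent.SAV

namespace Cntx

/-- Points of an interval inside `{1, ..., N}`. -/
lemma card_interval (N a b : ℕ) (hb : b ≤ N) (s : Finset ℕ)
    (hs : ∀ x, x ∈ s ↔ x ∈ Icc 1 N ∧ a < x ∧ x ≤ b) : s.card = b - a := by
  have h : s = Finset.Ioc a b := by
    ext x
    rw [hs, Finset.mem_Icc, Finset.mem_Ioc]
    constructor
    · rintro ⟨_, h⟩
      exact h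
    · rintro ⟨h1, h2⟩
      exact ⟨⟨by omega, by omega⟩, h1, h2⟩
  rw [h, Nat.card_Ioc]

end Cntx

open Cntx in
theorem thm_Cnd : St_Cnd := by
  intro M N i j e t ht hN
  have hi1 : (i + 1) * M = i * M + M := by ring
  have hj1 : (j + 1) * M = j * M + M := by ring
  have he1 : (i + e) * M = i * M + e * M := by ring
  by_cases h1 : j = i + e
  · rw [if_pos h1]
    have hj : j * M = i * M + e * M := by rw [h1, he1]
    rw [card_interval N (i * M) ((i + 1) * M - t) (by omega)]
    · omega
    · intro x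
      rw [Finset.mem_filter]
      constructor
      · rintro ⟨h2, h3, h4⟩
        exact ⟨h2, by omega, by omega⟩
      · rintro ⟨h2, h3, h4⟩
        exact ⟨h2, by omega, by omega⟩
  rw [if_neg h1]
  by_cases h2 : j = i + e + 1
  · rw [if_pos h2]
    have hj : j * M = i * M + e * M + M := by rw [h2]; ring
    rw [card_interval N ((i + 1) * M - t) ((i + 1) * M) hN]
    · omega
    · intro x
      rw [Finset.mem_filter]
      constructor
      · rintro ⟨h3, h4, h5⟩
        exact ⟨h3, by omega, by omega⟩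
      · rintro ⟨h3, h4, h5⟩
        exact ⟨h3, by omega, by omega⟩
  rw [if_neg h2, Finset.card_eq_zero, Finset.filter_eq_empty_iff]
  rintro x _ ⟨⟨h3, h4⟩, h5, h6⟩
  rcases Nat.lt_or_ge j (i + e) with h7 | h7
  · have h8 : (j + 1) * M ≤ (i + e) * M := Nat.mul_le_mul_right M h7
    omega
  · have h8 : (i + e + 2) * M ≤ j * M := Nat.mul_le_mul_right M (by omega)
    have h9 : (i + e + 2) * M = i * M + e * M + 2 * M := by ring
    omega

open Cntx in
theorem thm_Cns : St_Cns := by
  intro M N i j e t ht1 ht2 hN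
  have hi1 : (i + 1) * M = i * M + M := by ring
  have hj1 : (j + 1) * M = j * M + M := by ring
  by_cases h1 : i + j = e
  · rw [if_pos h1]
    have he : e * M = i * M + j * M := by rw [← h1]; ring
    rw [card_interval N (i * M) (i * M + t - 1) (by omega)]
    · omega
    · intro x
      rw [Finset.mem_filter]
      constructor
      · rintro ⟨h2, h3, h4⟩
        exact ⟨h2, by omega, by omega⟩
      · rintro ⟨h2, h3, h4⟩
        exact ⟨h2, by omega, by omega⟩
  rw [if_neg h1]
  by_cases h2 : i + j + 1 = e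
  · rw [if_pos h2]
    have he : e * M = i * M + j * M + M := by rw [← h2]; ring
    rw [card_interval N (i * M + t - 1) ((i + 1) * M) hN]
    · omega
    · intro x
      rw [Finset.mem_filter]
      constructor
      · rintro ⟨h3, h4, h5⟩
        exact ⟨h3, by omega, by omega⟩
      · rintro ⟨h3, h4, h5⟩
        exact ⟨h3, by omega, by omega⟩
  rw [if_neg h2, Finset.card_eq_zero, Finset.filter_eq_empty_iff]
  rintro x _ ⟨⟨h3, h4⟩, h5, h6⟩
  rcases Nat.lt_or_ge e (i + j) with h7 | h7
  · have h8 : (e + 1) * M ≤ (i + j) * M := Nat.mul_le_mul_right M h7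
    have h9 : (e + 1) * M = e * M + M := by ring
    have h10 : (i + j) * M = i * M + j * M := by ring
    omega
  · have h8 : (i + j + 2) * M ≤ e * M := Nat.mul_le_mul_right M (by omega)
    have h9 : (i + j + 2) * M = i * M + j * M + 2 * M := by ring
    omega

namespace Cntx

/-- Telescoping of the levels. -/
lemma lev_eq (w : ℝ) (k : ℕ) :
    max 0 (min 1 (w - k)) = max 0 (w - k) - max 0 (w - ((k + 1 : ℕ) : ℝ)) := by
  push_cast
  rcases le_total (w - k) 0 with h | h
  · rw [max_eq_left ((min_le_right _ _).trans h), max_eq_left h, max_eq_left (by linarith)]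
    ring
  · rcases le_total (w - k) 1 with h2 | h2
    · rw [min_eq_right h2, max_eq_right h, max_eq_left (by linarith)]
      ring
    · rw [min_eq_left h2, max_eq_right zero_le_one, max_eq_right h, max_eq_right (by linarith)]
      ring

lemma lev_sum (w : ℝ) (hw : 0 ≤ w) (K : ℕ) :
    ∑ k ∈ range K, max 0 (min 1 (w - k)) = w - max 0 (w - K) := by
  rw [Finset.sum_congr rfl fun k _ => lev_eq w k]
  have h := Finset.sum_range_sub' (fun k : ℕ => max 0 (w - (k : ℝ))) K
  rw [h]
  simp only [Nat.cast_zero, sub_zero]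
  rw [max_eq_right hw]

end Cntx

open Cntx in
theorem thm_Lvl : St_Lvl := by
  intro w K hw hK
  have h1 : ∑ k ∈ range K, max 0 (min 1 (w - k)) = w := by
    rw [lev_sum w hw K, max_eq_left (by linarith), sub_zero]
  refine ⟨h1, ?_⟩
  have hb : ∀ k : ℕ, 0 ≤ max 0 (min 1 (w - k)) ∧ max 0 (min 1 (w - k)) ≤ 1 := fun k =>
    ⟨le_max_left _ _, max_le zero_le_one (min_le_left _ _)⟩
  -- the sum of p (1 - p)
  have h2 : ∑ k ∈ range K, (max 0 (min 1 (w - k)) - (max 0 (min 1 (w - k))) ^ 2) ≤ |w - 1| := by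
    rcases Nat.eq_zero_or_pos K with hK0 | hK0
    · subst hK0
      simp
    · obtain ⟨L, rfl⟩ : ∃ L, K = L + 1 := ⟨K - 1, by omega⟩
      rw [Finset.sum_range_succ'] at h1 ⊢
      have h3 : ∑ k ∈ range L, (max 0 (min 1 (w - ((k + 1 : ℕ) : ℝ)))
          - (max 0 (min 1 (w - ((k + 1 : ℕ) : ℝ)))) ^ 2)
          ≤ ∑ k ∈ range L, max 0 (min 1 (w - ((k + 1 : ℕ) : ℝ))) := by
        refine Finset.sum_le_sum fun k _ => ?_
        have := sq_nonneg (max 0 (min 1 (w - ((k + 1 : ℕ) : ℝ))))
        linarith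
      simp only [Nat.cast_zero, sub_zero] at h1 ⊢
      rcases le_total w 1 with h4 | h4
      · rw [min_eq_right h4, max_eq_right hw] at h1 ⊢
        rw [abs_of_nonpos (by linarith)]
        have h5 : ∑ k ∈ range L, max 0 (min 1 (w - ((k + 1 : ℕ) : ℝ))) = 0 := by linarith
        nlinarith
      · rw [min_eq_left h4, max_eq_right zero_le_one] at h1 ⊢
        rw [abs_of_nonneg (by linarith)]
        linarith
  rw [Finset.sum_sub_distrib, h1] at h2
  have h3 : w - 1 ≤ |w - 1| := le_abs_self _
  nlinarith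

end Pool.Agent.SAV
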