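import Pool.Agent.SAV.St

/-!
# From the identity (*) to `H_e ≤ -1/2` (B3)
-/

set_option autoImplicit false

open Finset

namespace Pool.Agent.SAV

namespace Algx

/-- The difference of (*) at `e + 1` and `e`. -/
lemma step (U : ℕ) (H : ℕ → ℝ) (hU : 1 ≤ U)
    (h : ∀ e : ℕ, ∑ i ∈ range U, ((U : ℝ) - i) * H ((e : ℤ) - i).natAbs
      = (U : ℝ) * (U + 1) / 2 * (((U : ℝ) - 1 - e) / 2)) (e : ℕ) :
    (U : ℝ) * H (e + 1) = ∑ j ∈ range U, H ((e : ℤ) - j).natAbs - (U : ℝ) * (U + 1) / 4 := by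
  have h1 := Helper63.Sidon.ramp_step (fun x : ℤ => H x.natAbs) (e : ℤ) U
  have h2 := h e
  have h3 := h (e + 1)
  push_cast at h3
  rw [h2, h3] at h1
  have e1 : ((e : ℤ) + 1).natAbs = e + 1 := by omega
  rw [e1] at h1
  linarith

/-- Splitting of the sum over `|e - j|`, for `e < U`. -/
lemma split (U : ℕ) (H : ℕ → ℝ) (e : ℕ) (he : e < U) :
    ∑ j ∈ range U, H ((e : ℤ) - j).natAbs
      = H 0 + ∑ s ∈ range e, H (s + 1) + ∑ s ∈ range (U - 1 - e), H (s + 1) := by
  obtain ⟨V, rfl⟩ : ∃ V, U = e + 1 + V := ⟨U - e - 1, by omega⟩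
  have e0 : e + 1 + V - 1 - e = V := by omega
  rw [e0, Finset.sum_range_add, Finset.sum_range_succ]
  have h1 : ∑ j ∈ range e, H ((e : ℤ) - j).natAbs = ∑ s ∈ range e, H (s + 1) := by
    rw [← Finset.sum_range_reflect (fun s => H (s + 1)) e]
    refine Finset.sum_congr rfl fun j hj => ?_
    rw [Finset.mem_range] at hj
    congr 1
    omega
  have h2 : ∑ x ∈ range V, H ((e : ℤ) - ((e + 1 + x : ℕ) : ℤ)).natAbs
      = ∑ s ∈ range V, H (s + 1) := by
    refine Finset.sum_congr rfl fun j _ => ?_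
    congr 1
    omega
  rw [h1, h2, sub_self, Int.natAbs_zero]
  ring

end Algx

open Algx in
theorem thm_Alg : St_Alg := by
  intro U H hU h
  have hU' : (1 : ℝ) ≤ U := by exact_mod_cast hU
  have hU0 : (0 : ℝ) < U := by linarith
  obtain ⟨κ, hκ⟩ : ∃ κ : ℝ, κ = H 0 - (U : ℝ) * (U + 1) / 4 := ⟨_, rfl⟩
  -- the values for `1 ≤ e ≤ U` are all equal
  have hconst : ∀ e < U, H (e + 1) = κ := by
    -- the maximum principle
    obtain ⟨m, hm, hmax⟩ := Finset.exists_max_image (range U) (fun e => |H (e + 1) - κ|)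
      ⟨0, Finset.mem_range.2 hU⟩
    rw [Finset.mem_range] at hm
    have h1 := step U H hU h m
    rw [split U H m hm] at h1
    have h2 : (U : ℝ) * (H (m + 1) - κ)
        = ∑ s ∈ range m, (H (s + 1) - κ) + ∑ s ∈ range (U - 1 - m), (H (s + 1) - κ) := by
      rw [Finset.sum_sub_distrib, Finset.sum_sub_distrib, Finset.sum_const, Finset.sum_const,
        Finset.card_range, Finset.card_range, nsmul_eq_mul, nsmul_eq_mul]
      have h3 : (((U - 1 - m : ℕ) : ℝ)) = U - 1 - m := by
        have : (U - 1 - m) + 1 + m = U := by omega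
        have h4 : (((U - 1 - m : ℕ) : ℝ)) + 1 + m = U := by exact_mod_cast this
        linarith
      rw [h3]
      have h5 : (U : ℝ) * (H (m + 1) - κ) = (U : ℝ) * H (m + 1) - U * κ := by ring
      rw [h5, h1]
      have h6 : H 0 = κ + (U : ℝ) * (U + 1) / 4 := by rw [hκ]; ring
      rw [h6]
      ring
    have h3 : |∑ s ∈ range m, (H (s + 1) - κ)| ≤ m * |H (m + 1) - κ| := by
      calc |∑ s ∈ range m, (H (s + 1) - κ)| ≤ ∑ s ∈ range m, |H (s + 1) - κ| :=
            Finset.abs_sum_le_sum_abs _ _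
        _ ≤ ∑ _s ∈ range m, |H (m + 1) - κ| := by
            refine Finset.sum_le_sum fun s hs => hmax s ?_
            rw [Finset.mem_range] at hs ⊢
            omega
        _ = m * |H (m + 1) - κ| := by
            rw [Finset.sum_const, Finset.card_range, nsmul_eq_mul]
    have h4 : |∑ s ∈ range (U - 1 - m), (H (s + 1) - κ)| ≤ (U - 1 - m : ℕ) * |H (m + 1) - κ| := by
      calc |∑ s ∈ range (U - 1 - m), (H (s + 1) - κ)|
          ≤ ∑ s ∈ range (U - 1 - m), |H (s + 1) - κ| := Finset.abs_sum_le_sum_abs _ _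
        _ ≤ ∑ _s ∈ range (U - 1 - m), |H (m + 1) - κ| := by
            refine Finset.sum_le_sum fun s hs => hmax s ?_
            rw [Finset.mem_range] at hs ⊢
            omega
        _ = (U - 1 - m : ℕ) * |H (m + 1) - κ| := by
            rw [Finset.sum_const, Finset.card_range, nsmul_eq_mul]
    have h5 : (U : ℝ) * |H (m + 1) - κ| ≤ (U - 1) * |H (m + 1) - κ| := by
      have h6 : (U : ℝ) * |H (m + 1) - κ| = |(U : ℝ) * (H (m + 1) - κ)| := by
        rw [abs_mul, Nat.abs_cast]
      rw [h6, h2]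
      refine (abs_add_le _ _).trans ?_
      have h7 : ((m : ℝ)) + ((U - 1 - m : ℕ) : ℝ) = U - 1 := by
        have : m + (U - 1 - m) + 1 = U := by omega
        have h8 : (m : ℝ) + ((U - 1 - m : ℕ) : ℝ) + 1 = U := by exact_mod_cast this
        linarith
      calc _ ≤ m * |H (m + 1) - κ| + (U - 1 - m : ℕ) * |H (m + 1) - κ| := add_le_add h3 h4
        _ = (U - 1) * |H (m + 1) - κ| := by rw [← add_mul, h7]
    have h6 : |H (m + 1) - κ| ≤ 0 := by linarith
    intro e he
    have h7 := (hmax e (Finset.mem_range.2 he)).trans h6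
    have h8 := abs_nonpos_iff.1 h7
    linarith
  -- the value of the constant
  have hval : κ = -(1 / 2) := by
    have h1 := h 0
    obtain ⟨V, rfl⟩ : ∃ V, U = V + 1 := ⟨U - 1, by omega⟩
    rw [Finset.sum_range_succ'] at h1
    have h2 : ∀ i ∈ range V, (((V + 1 : ℕ) : ℝ) - ((i + 1 : ℕ) : ℝ))
        * H (((0 : ℕ) : ℤ) - ((i + 1 : ℕ) : ℤ)).natAbs = ((V : ℝ) - i) * κ := by
      intro i hi
      rw [Finset.mem_range] at hi
      have e1 : (((0 : ℕ) : ℤ) - ((i + 1 : ℕ) : ℤ)).natAbs = i + 1 := by omega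
      rw [e1, hconst i (by omega)]
      push_cast
      ring
    rw [Finset.sum_congr rfl h2, ← Finset.sum_mul, Helper63.Sidon.ramp_sum] at h1
    simp only [Nat.cast_zero, sub_zero, Int.natAbs_zero] at h1
    have h3 : H 0 = κ + ((V + 1 : ℕ) : ℝ) * (((V + 1 : ℕ) : ℝ) + 1) / 4 := by rw [hκ]; ring
    rw [h3] at h1
    push_cast at h1
    have hV : (0 : ℝ) ≤ V := Nat.cast_nonneg V
    have h4 : ((V : ℝ) + 1) * (V + 2) / 2 * (κ + 1 / 2) = 0 := by linear_combination h1
    have h5 : ((V : ℝ) + 1) * (V + 2) / 2 ≠ 0 := by positivity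
    have h6 := (mul_eq_zero.1 h4).resolve_left h5
    linarith
  -- induction
  have hall : ∀ e : ℕ, H (e + 1) ≤ -(1 / 2) := by
    intro e
    induction e using Nat.strong_induction_on with
    | _ e ih =>
      rcases Nat.lt_or_ge e U with he | he
      · rw [hconst e he, hval]
      · have h1 := step U H hU h e
        have h2 : ∑ j ∈ range U, H ((e : ℤ) - j).natAbs ≤ ∑ _j ∈ range U, (-(1 / 2) : ℝ) := by
          refine Finset.sum_le_sum fun j hj => ?_
          rw [Finset.mem_range] at hj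
          have h3 := ih (e - 1 - j) (by omega)
          have e1 : ((e : ℤ) - j).natAbs = e - 1 - j + 1 := by omega
          rw [e1]
          exact h3
        rw [Finset.sum_const, Finset.card_range, nsmul_eq_mul] at h2
        have h4 : (U : ℝ) * H (e + 1) ≤ U * (-(1 / 2)) := by
          have : 0 ≤ (U : ℝ) * (U + 1) / 4 := by positivity
          linarith
        exact le_of_mul_le_mul_left h4 hU0
  intro e he
  obtain ⟨m, rfl⟩ : ∃ m, e = m + 1 := ⟨e - 1, by omega⟩
  exact hall m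

end Pool.Agent.SAV
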