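import Pool.Agent.SAV.St

/-!
# The finite form of the correlation bound (B4)
-/

set_option autoImplicit false

open Finset

namespace Pool.Agent.SAV

namespace Corx

lemma dev_abs_one (hDec : St_Dec) (U : ℕ) (hU : 1 ≤ U) (n : ℕ) (hn : 1 ≤ n) :
    |dev U n| ≤ 1 :=
  ((hDec U hU n hn).1).trans (pow_le_one₀ (by norm_num) (by norm_num))

/-- Partial sums of the absolute values are bounded. -/
lemma partial_abs (hDcs : St_Dcs) (U : ℕ) (hU : 1 ≤ U) (J : ℕ) :
    ∑ j ∈ range J, |dev U j| ≤ |dev U 0| + 2 * U := by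
  rcases Nat.eq_zero_or_pos J with hJ | hJ
  · subst hJ
    simp only [Finset.range_zero, Finset.sum_empty]
    positivity
  · rw [Finset.range_eq_Ico, Finset.sum_eq_sum_Ico_succ_bot hJ]
    have h := hDcs U hU 1 J le_rfl
    simp only [Nat.sub_self, Nat.zero_div, pow_zero, mul_one] at h
    simp only [Nat.zero_add]
    linarith

lemma summable_abs (hDcs : St_Dcs) (U : ℕ) (hU : 1 ≤ U) : Summable fun j => |dev U j| :=
  summable_of_sum_range_le (fun _ => abs_nonneg _) (partial_abs hDcs U hU)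

/-- The summand. -/
noncomputable def sm (U e j : ℕ) : ℝ := dev U j + dev U (j + e) + dev U j * dev U (j + e)

lemma sm_abs (hDec : St_Dec) (U : ℕ) (hU : 1 ≤ U) (e : ℕ) (he : 1 ≤ e) (j : ℕ) :
    |sm U e j| ≤ 2 * |dev U j| + |dev U (j + e)| := by
  have h1 := dev_abs_one hDec U hU (j + e) (by omega)
  have h2 : |sm U e j| ≤ |dev U j| + |dev U (j + e)| + |dev U j * dev U (j + e)| := by
    unfold sm
    exact (abs_add_le _ _).trans (add_le_add_left (abs_add_le _ _) _)
  rw [abs_mul] at h2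
  have h3 : |dev U j| * |dev U (j + e)| ≤ |dev U j| * 1 :=
    mul_le_mul_of_nonneg_left h1 (abs_nonneg _)
  linarith

lemma summable_sm (hDec : St_Dec) (hDcs : St_Dcs) (U : ℕ) (hU : 1 ≤ U) (e : ℕ) (he : 1 ≤ e) :
    Summable (sm U e) := by
  have h1 := summable_abs hDcs U hU
  have h2 : Summable fun j => |dev U (j + e)| := (summable_nat_add_iff e).2 h1
  have h3 : Summable fun j => 2 * |dev U j| + |dev U (j + e)| := (h1.mul_left 2).add h2
  exact Summable.of_norm_bounded h3 fun j => by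
    rw [Real.norm_eq_abs]
    exact sm_abs hDec U hU e he j

/-- The tail. -/
lemma tail (hDec : St_Dec) (hDcs : St_Dcs) (U : ℕ) (hU : 1 ≤ U) (e : ℕ) (he : 1 ≤ e) (T : ℕ)
    (hT : 1 ≤ T) (L : ℕ) :
    |∑ j ∈ Ico T (T + L), sm U e j| ≤ 6 * U * (1 / 2 : ℝ) ^ ((T - 1) / U) := by
  have h1 : |∑ j ∈ Ico T (T + L), sm U e j|
      ≤ ∑ j ∈ Ico T (T + L), (2 * |dev U j| + |dev U (j + e)|) :=
    (Finset.abs_sum_le_sum_abs _ _).trans
      (Finset.sum_le_sum fun j _ => sm_abs hDec U hU e he j)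
  rw [Finset.sum_add_distrib, ← Finset.mul_sum,
    Finset.sum_Ico_add' (fun j => |dev U j|) T (T + L) e] at h1
  have h2 := hDcs U hU T (T + L) hT
  have h3 := hDcs U hU (T + e) (T + L + e) (by omega)
  have h4 : (1 / 2 : ℝ) ^ ((T + e - 1) / U) ≤ (1 / 2 : ℝ) ^ ((T - 1) / U) := by
    apply pow_le_pow_of_le_one (by norm_num) (by norm_num)
    apply Nat.div_le_div_right
    omega
  have h5 : 2 * (U : ℝ) * (1 / 2 : ℝ) ^ ((T + e - 1) / U) ≤ 2 * U * (1 / 2 : ℝ) ^ ((T - 1) / U) :=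
    mul_le_mul_of_nonneg_left h4 (by positivity)
  linarith

end Corx

open Corx in
theorem thm_Cor (hDec : St_Dec) (hDcs : St_Dcs) (hIdn : St_Idn) (hAlg : St_Alg) : St_Cor := by
  intro U hU e he T hT
  have h1 := hAlg U (hc U) hU (hIdn U hU) e he
  have h2 : ∑' j, sm U e j ≤ ((e : ℝ) - 1) / 2 := by
    have h3 : cor U e = ∑' j, sm U e j := rfl
    unfold hc at h1
    rw [h3] at h1
    linarith
  have hs := summable_sm hDec hDcs U hU e he
  have h4 : ∑ j ∈ range T, sm U e j - 6 * U * (1 / 2 : ℝ) ^ ((T - 1) / U) ≤ ∑' j, sm U e j := by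
    refine ge_of_tendsto hs.hasSum.tendsto_sum_nat ?_
    filter_upwards [Filter.eventually_ge_atTop T] with n hn
    have h5 := tail hDec hDcs U hU e he T hT (n - T)
    rw [Nat.add_sub_cancel' hn] at h5
    have h6 := Finset.sum_range_add_sum_Ico (sm U e) hn
    have h7 := (abs_le.1 h5).1
    linarith
  have h8 : ∑ j ∈ range T, (dev U j + dev U (j + e) + dev U j * dev U (j + e))
      = ∑ j ∈ range T, sm U e j := rfl
  rw [h8]
  linarith

end Pool.Agent.SAV
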