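import Pool.Agent.SAV.St

/-!
# Sums of the deviations (A)
-/

set_option autoImplicit false

open Finset

namespace Pool.Agent.SAV

namespace Dcsx

/-- Geometric sums: `∑ m ∈ [S, S + L), (1/2)^(m/U) ≤ 2 U (1/2)^(S/U)`.  Stronger form by induction:
the sum up to `S + L` plus `(U - r) (1/2)^q` type remainders is bounded. -/
lemma geo (U : ℕ) (hU : 1 ≤ U) (L : ℕ) : ∀ S : ℕ,
    ∑ m ∈ Ico S (S + L), (1 / 2 : ℝ) ^ (m / U)
      ≤ ((2 * U : ℝ) - (S % U : ℕ)) * (1 / 2 : ℝ) ^ (S / U) := by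
  have hU' : (1 : ℝ) ≤ U := by exact_mod_cast hU
  induction L with
  | zero =>
    intro S
    rw [Nat.add_zero, Finset.Ico_self, Finset.sum_empty]
    have h1 : ((S % U : ℕ) : ℝ) ≤ U := by exact_mod_cast (Nat.mod_lt S hU).le
    exact mul_nonneg (by linarith) (by positivity)
  | succ L ih =>
    intro S
    have h1 : ∑ m ∈ Ico S (S + (L + 1)), (1 / 2 : ℝ) ^ (m / U)
        = (1 / 2 : ℝ) ^ (S / U) + ∑ m ∈ Ico (S + 1) (S + 1 + L), (1 / 2 : ℝ) ^ (m / U) := by
      rw [Finset.sum_eq_sum_Ico_succ_bot (by omega), show S + (L + 1) = S + 1 + L by omega]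
    have h2 := ih (S + 1)
    rw [h1]
    rcases Nat.lt_or_ge (S % U + 1) U with h3 | h3
    · have e1 : (S + 1) % U = S % U + 1 := by
        rw [Nat.add_mod, Nat.mod_eq_of_lt (show 1 < U by omega), Nat.mod_eq_of_lt h3]
      have e2 : (S + 1) / U = S / U := by
        have h4 := Nat.div_add_mod S U
        have h5 := Nat.div_add_mod (S + 1) U
        rw [e1] at h5
        have h6 : U * ((S + 1) / U) = U * (S / U) := by omega
        exact Nat.eq_of_mul_eq_mul_left hU h6
      rw [e1, e2] at h2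
      push_cast at h2 ⊢
      linarith
    · have h4 : S % U + 1 = U := by
        have := Nat.mod_lt S hU
        omega
      have e2 : (S + 1) / U = S / U + 1 := by
        have h5 := Nat.div_add_mod S U
        have h6 : S + 1 = U * (S / U + 1) := by
          rw [Nat.mul_add, Nat.mul_one]
          omega
        rw [h6, Nat.mul_div_cancel_left _ hU]
      have e1 : (S + 1) % U = 0 := by
        have h5 := Nat.div_add_mod S U
        have h6 : S + 1 = U * (S / U + 1) := by
          rw [Nat.mul_add, Nat.mul_one]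
          omega
        rw [h6, Nat.mul_mod_right]
      rw [e1, e2, pow_succ] at h2
      have h7 : ((S % U : ℕ) : ℝ) = U - 1 := by
        have : ((S % U : ℕ) : ℝ) + 1 = U := by exact_mod_cast h4
        linarith
      rw [h7]
      push_cast at h2
      linarith

end Dcsx

open Dcsx in
theorem thm_Dcs (hDec : St_Dec) : St_Dcs := by
  intro U hU T T' hT
  have hU' : (1 : ℝ) ≤ U := by exact_mod_cast hU
  rcases Nat.lt_or_ge T' T with h | h
  · rw [Finset.Ico_eq_empty (by omega), Finset.sum_empty]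
    positivity
  have h1 : ∑ n ∈ Ico T T', |dev U n| ≤ ∑ n ∈ Ico T T', (1 / 2 : ℝ) ^ ((n - 1) / U) := by
    refine Finset.sum_le_sum fun n hn => ?_
    rw [Finset.mem_Ico] at hn
    exact (hDec U hU n (by omega)).1
  have h2 : ∑ n ∈ Ico T T', (1 / 2 : ℝ) ^ ((n - 1) / U)
      = ∑ m ∈ Ico (T - 1) (T - 1 + (T' - T)), (1 / 2 : ℝ) ^ (m / U) := by
    have e : Ico T T' = Ico (T - 1 + 1) (T - 1 + (T' - T) + 1) := by
      congr 1 <;> omega
    rw [e, ← Finset.sum_Ico_add' (fun n => (1 / 2 : ℝ) ^ ((n - 1) / U)) (T - 1)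
      (T - 1 + (T' - T)) 1]
    rfl
  have h3 := geo U hU (T' - T) (T - 1)
  have h4 : ((2 * U : ℝ) - (((T - 1) % U : ℕ) : ℝ)) * (1 / 2 : ℝ) ^ ((T - 1) / U)
      ≤ 2 * U * (1 / 2 : ℝ) ^ ((T - 1) / U) := by
    apply mul_le_mul_of_nonneg_right _ (by positivity)
    have : (0 : ℝ) ≤ (((T - 1) % U : ℕ) : ℝ) := Nat.cast_nonneg _
    linarith
  rw [h2] at h1
  exact h1.trans (h3.trans h4)

end Pool.Agent.SAV
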