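import Pool.Agent.SAV.St

/-!
# Decay of the deviations (A)
-/

set_option autoImplicit false

open Finset

namespace Pool.Agent.SAV

namespace Decx

open Helper63.Sidon

/-- The deviation on the integers. -/
noncomputable def dz (U : ℕ) (x : ℤ) : ℝ := ((U : ℝ) + 1) / 2 * ren U x - 1

lemma dz_nat (U n : ℕ) : dz U (n : ℤ) = dev U n := rfl

/-- The average property. -/
lemma dz_succ (U : ℕ) (hU : 1 ≤ U) (n : ℕ) :
    (U : ℝ) * dz U ((n : ℤ) + 1) = ∑ j ∈ range U, dz U ((n : ℤ) - j) := by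
  have h := ren_succ U hU n
  simp only [dz, Finset.sum_sub_distrib, Finset.sum_const, Finset.card_range, nsmul_eq_mul,
    ← Finset.mul_sum]
  rw [← h]
  ring

/-- The ramp property. -/
lemma dz_ramp (U : ℕ) (hU : 1 ≤ U) (n : ℕ) :
    ∑ j ∈ range U, ((U : ℝ) - j) * dz U ((n : ℤ) - j) = 0 := by
  have h := ramp_conv_nat U hU n
  have h2 := ramp_sum U
  have h3 : ∑ j ∈ range U, ((U : ℝ) - j) * dz U ((n : ℤ) - j)
      = ((U : ℝ) + 1) / 2 * ∑ j ∈ range U, ((U : ℝ) - j) * ren U ((n : ℤ) - j)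
        - ∑ j ∈ range U, ((U : ℝ) - j) := by
    rw [Finset.mul_sum, ← Finset.sum_sub_distrib]
    refine Finset.sum_congr rfl fun j _ => ?_
    unfold dz
    ring
  rw [h3, h, h2]
  ring

/-- The combined property. -/
lemma dz_step (U : ℕ) (hU : 1 ≤ U) (n : ℕ) :
    (U : ℝ) ^ 2 * dz U ((n : ℤ) + 1) = ∑ j ∈ range U, (j : ℝ) * dz U ((n : ℤ) - j) := by
  have h1 := dz_succ U hU n
  have h2 := dz_ramp U hU n
  have h3 : ∑ j ∈ range U, (j : ℝ) * dz U ((n : ℤ) - j)
      = U * ∑ j ∈ range U, dz U ((n : ℤ) - j)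
        - ∑ j ∈ range U, ((U : ℝ) - j) * dz U ((n : ℤ) - j) := by
    rw [Finset.mul_sum, ← Finset.sum_sub_distrib]
    refine Finset.sum_congr rfl fun j _ => ?_
    ring
  rw [h3, h2, ← h1]
  ring

lemma sum_nat_le (U : ℕ) : ∑ j ∈ range U, (j : ℝ) ≤ (U : ℝ) ^ 2 / 2 := by
  induction U with
  | zero => simp
  | succ U ih =>
    rw [Finset.sum_range_succ]
    push_cast
    nlinarith

/-- One halving step. -/
lemma dz_half (U : ℕ) (hU : 1 ≤ U) (n : ℕ) (B : ℝ)
    (h : ∀ j < U, |dz U ((n : ℤ) - j)| ≤ B) : |dz U ((n : ℤ) + 1)| ≤ B / 2 := by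
  have hU' : (1 : ℝ) ≤ U := by exact_mod_cast hU
  have hB : 0 ≤ B := (abs_nonneg _).trans (h 0 hU)
  have h1 := dz_step U hU n
  have h2 : |∑ j ∈ range U, (j : ℝ) * dz U ((n : ℤ) - j)| ≤ (U : ℝ) ^ 2 / 2 * B := by
    calc |∑ j ∈ range U, (j : ℝ) * dz U ((n : ℤ) - j)|
        ≤ ∑ j ∈ range U, |(j : ℝ) * dz U ((n : ℤ) - j)| := Finset.abs_sum_le_sum_abs _ _
      _ ≤ ∑ j ∈ range U, (j : ℝ) * B := by
          refine Finset.sum_le_sum fun j hj => ?_
          rw [abs_mul, Nat.abs_cast]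
          exact mul_le_mul_of_nonneg_left (h j (Finset.mem_range.1 hj)) (Nat.cast_nonneg _)
      _ = (∑ j ∈ range U, (j : ℝ)) * B := by rw [Finset.sum_mul]
      _ ≤ (U : ℝ) ^ 2 / 2 * B := mul_le_mul_of_nonneg_right (sum_nat_le U) hB
  rw [← h1, abs_mul, abs_of_nonneg (by positivity)] at h2
  have h3 : (U : ℝ) ^ 2 * |dz U ((n : ℤ) + 1)| ≤ (U : ℝ) ^ 2 * (B / 2) := by linarith
  exact le_of_mul_le_mul_left h3 (by positivity)

/-- The renewal sequence is at least `1 / U` on the positive integers. -/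
lemma ren_ge (U : ℕ) (hU : 1 ≤ U) (n : ℕ) : 1 / (U : ℝ) ≤ ren U ((n : ℤ) + 1) := by
  have hU' : (1 : ℝ) ≤ U := by exact_mod_cast hU
  have hU0 : (0 : ℝ) < U := by linarith
  induction n using Nat.strong_induction_on with
  | _ n ih =>
    have h := ren_succ U hU n
    have h1 : 1 ≤ ∑ j ∈ range U, ren U ((n : ℤ) - j) := by
      rcases Nat.lt_or_ge n U with hn | hn
      · have h2 := Finset.single_le_sum (f := fun j : ℕ => ren U ((n : ℤ) - j)) (s := range U)
          (fun j _ => ren_nonneg U _) (Finset.mem_range.2 hn)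
        simp only [sub_self, ren_zero] at h2
        exact h2
      · have h2 : ∑ j ∈ range U, (1 / (U : ℝ)) ≤ ∑ j ∈ range U, ren U ((n : ℤ) - j) := by
          refine Finset.sum_le_sum fun j hj => ?_
          have hj' := Finset.mem_range.1 hj
          have h3 := ih (n - 1 - j) (by omega)
          have e1 : (((n - 1 - j : ℕ) : ℤ)) + 1 = (n : ℤ) - j := by omega
          rw [e1] at h3
          exact h3
        rw [Finset.sum_const, Finset.card_range, nsmul_eq_mul, mul_one_div_cancel hU0.ne'] at h2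
        exact h2
    rw [div_le_iff₀ hU0, mul_comm]
    linarith

/-- The explicit form on `1 ≤ n ≤ U`. -/
lemma ren_small (U : ℕ) (hU : 1 ≤ U) (n : ℕ) (hn : n < U) :
    (U : ℝ) * ren U ((n : ℤ) + 1) = (1 + 1 / (U : ℝ)) ^ n := by
  have hU' : (1 : ℝ) ≤ U := by exact_mod_cast hU
  have hU0 : (0 : ℝ) < U := by linarith
  induction n with
  | zero =>
    rw [ren_succ U hU 0]
    rw [Finset.sum_eq_single_of_mem 0 (Finset.mem_range.2 hU)]
    · simp [ren_zero]
    · intro j _ hj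
      exact ren_neg U _ (by push_cast; omega)
  | succ n ih =>
    have ih' := ih (by omega)
    have h1 := ren_succ U hU (n + 1)
    have h2 := ren_succ U hU n
    -- the sums differ by the new term
    have h3 : ∑ j ∈ range U, ren U (((n + 1 : ℕ) : ℤ) - j)
        = ren U ((n : ℤ) + 1) + ∑ j ∈ range U, ren U ((n : ℤ) - j) := by
      obtain ⟨V, rfl⟩ : ∃ V, U = V + 1 := ⟨U - 1, by omega⟩
      have e1 : ((n + 1 : ℕ) : ℤ) - ((0 : ℕ) : ℤ) = (n : ℤ) + 1 := by push_cast; ring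
      have e2 : ∀ j : ℕ, ((n + 1 : ℕ) : ℤ) - ((j + 1 : ℕ) : ℤ) = (n : ℤ) - j := by
        intro j
        push_cast
        ring
      rw [Finset.sum_range_succ', Finset.sum_range_succ (fun j : ℕ => ren (V + 1) ((n : ℤ) - j)),
        ren_neg (V + 1) ((n : ℤ) - V) (by omega), add_zero, e1,
        Finset.sum_congr rfl fun j _ => by rw [e2 j]]
      exact add_comm _ _
    have h4 : (U : ℝ) * ren U (((n + 1 : ℕ) : ℤ) + 1)
        = ren U ((n : ℤ) + 1) + U * ren U ((n : ℤ) + 1) := by rw [h1, h3, ← h2]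
    rw [h4, pow_succ, ← ih', mul_add, mul_one, add_comm, add_right_inj, mul_one_div,
      mul_div_assoc]
    exact (mul_div_cancel₀ _ hU0.ne').symm

lemma pow_lt_four (U : ℕ) (hU : 1 ≤ U) : (1 + 1 / (U : ℝ)) ^ U ≤ 4 := by
  have hU' : (1 : ℝ) ≤ U := by exact_mod_cast hU
  have h1 : 1 + 1 / (U : ℝ) ≤ Real.exp (1 / (U : ℝ)) := by
    have := Real.add_one_le_exp (1 / (U : ℝ))
    linarith
  have h2 : (1 + 1 / (U : ℝ)) ^ U ≤ Real.exp (1 / (U : ℝ)) ^ U :=
    pow_le_pow_left₀ (by positivity) h1 U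
  rw [← Real.exp_nat_mul, mul_one_div_cancel (by positivity)] at h2
  have := Real.exp_one_lt_d9
  linarith

lemma dz_lower (U : ℕ) (hU : 1 ≤ U) (n : ℕ) : -(1 / 2) ≤ dz U ((n : ℤ) + 1) := by
  have hU' : (1 : ℝ) ≤ U := by exact_mod_cast hU
  have h := ren_ge U hU n
  have h1 : ((U : ℝ) + 1) / 2 * (1 / U) ≤ ((U : ℝ) + 1) / 2 * ren U ((n : ℤ) + 1) :=
    mul_le_mul_of_nonneg_left h (by positivity)
  have h2 : ((U : ℝ) + 1) / 2 * (1 / U) = 1 / 2 + 1 / (2 * U) := by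
    field_simp
  have h3 : 0 ≤ 1 / (2 * (U : ℝ)) := by positivity
  unfold dz
  linarith

lemma dz_base (U : ℕ) (hU : 1 ≤ U) (n : ℕ) (hn : n < U) : |dz U ((n : ℤ) + 1)| ≤ 1 := by
  have hU' : (1 : ℝ) ≤ U := by exact_mod_cast hU
  have hU0 : (0 : ℝ) < U := by linarith
  have h1 := dz_lower U hU n
  have h2 := ren_small U hU n hn
  have h3 : (1 + 1 / (U : ℝ)) ^ (n + 1) ≤ (1 + 1 / (U : ℝ)) ^ U :=
    pow_le_pow_right₀ (by
      have : 0 ≤ 1 / (U : ℝ) := by positivity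
      linarith) hn
  have h4 := pow_lt_four U hU
  rw [pow_succ, ← h2] at h3
  have h5 : (U : ℝ) * ren U ((n : ℤ) + 1) * (1 + 1 / (U : ℝ))
      = 2 * (((U : ℝ) + 1) / 2 * ren U ((n : ℤ) + 1)) := by
    field_simp
  rw [h5] at h3
  rw [abs_le]
  unfold dz at h1 ⊢
  constructor <;> linarith

lemma dz_decay (U : ℕ) (hU : 1 ≤ U) (n : ℕ) :
    |dz U ((n : ℤ) + 1)| ≤ (1 / 2 : ℝ) ^ (n / U) := by
  induction n using Nat.strong_induction_on with
  | _ n ih =>
    rcases Nat.lt_or_ge n U with hn | hn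
    · rw [Nat.div_eq_of_lt hn, pow_zero]
      exact dz_base U hU n hn
    · have h1 : n / U = (n - U) / U + 1 := by
        rw [Nat.div_eq_sub_div hU hn]
      rw [h1, pow_succ, mul_one_div]
      apply dz_half U hU n
      intro j hj
      have h2 := ih (n - 1 - j) (by omega)
      have e1 : (((n - 1 - j : ℕ) : ℤ)) + 1 = (n : ℤ) - j := by omega
      rw [e1] at h2
      refine h2.trans ?_
      apply pow_le_pow_of_le_one (by norm_num) (by norm_num)
      exact Nat.div_le_div_right (by omega)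

end Decx

open Decx in
theorem thm_Dec : St_Dec := by
  intro U hU n hn
  obtain ⟨m, rfl⟩ : ∃ m, n = m + 1 := ⟨n - 1, by omega⟩
  have h1 := dz_decay U hU m
  have h2 := dz_lower U hU m
  have e : ((m : ℤ) + 1) = ((m + 1 : ℕ) : ℤ) := by push_cast; ring
  rw [e, dz_nat] at h1 h2
  exact ⟨h1, h2⟩

end Pool.Agent.SAV
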