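import Pool.Agent.SAV.St

/-!
# The total deviation (B1)
-/

set_option autoImplicit false

open Finset

namespace Pool.Agent.SAV

namespace Gamx

lemma shift (U i k : ℕ) : ∑ n ∈ range (i + k), Helper63.Sidon.ren U ((n : ℤ) - i)
    = ∑ m ∈ range k, Helper63.Sidon.ren U (m : ℤ) := by
  rw [Finset.sum_range_add]
  have h1 : ∑ n ∈ range i, Helper63.Sidon.ren U ((n : ℤ) - i) = 0 := by
    refine Finset.sum_eq_zero fun n hn => ?_
    have := Finset.mem_range.1 hn
    exact Helper63.Sidon.ren_neg U _ (by omega)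
  rw [h1, zero_add]
  refine Finset.sum_congr rfl fun m _ => ?_
  have : (((i + m : ℕ) : ℤ) - i) = (m : ℤ) := by push_cast; ring
  rw [this]

lemma ren_dev (U k : ℕ) : ((U : ℝ) + 1) / 2 * ∑ m ∈ range k, Helper63.Sidon.ren U (m : ℤ)
    = k + ∑ m ∈ range k, dev U m := by
  unfold dev
  rw [Finset.sum_sub_distrib, Finset.mul_sum, Finset.sum_const, Finset.card_range, nsmul_eq_mul]
  ring

lemma sum1 (u : ℝ) (k : ℕ) : ∑ i ∈ range k, (u - (i : ℝ)) = k * u - k * (k - 1) / 2 := by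
  induction k with
  | zero => simp
  | succ k ih =>
    rw [Finset.sum_range_succ, ih]
    push_cast
    ring

lemma sum2 (u l : ℝ) (k : ℕ) : ∑ i ∈ range k, (u - (i : ℝ)) * (l - i)
    = k * u * l - (u + l) * (k * (k - 1)) / 2 + (k - 1) * k * (2 * k - 1) / 6 := by
  induction k with
  | zero => simp
  | succ k ih =>
    rw [Finset.sum_range_succ, ih]
    push_cast
    ring

lemma key (U : ℕ) (hU : 1 ≤ U) (L : ℕ) (hL : U ≤ L) :
    ∑ i ∈ range U, ((U : ℝ) - i) * ((∑ m ∈ range (L - i), dev U m) - ((U : ℝ) - 1) / 3) = 0 := by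
  have h1 : ∑ n ∈ range L, ∑ i ∈ range U, ((U : ℝ) - i) * Helper63.Sidon.ren U ((n : ℤ) - i)
      = L * U := by
    rw [Finset.sum_congr rfl fun n _ => Helper63.Sidon.ramp_conv_nat U hU n, Finset.sum_const,
      Finset.card_range, nsmul_eq_mul]
  rw [Finset.sum_comm] at h1
  have h2 : ∀ i ∈ range U, ∑ n ∈ range L, ((U : ℝ) - i) * Helper63.Sidon.ren U ((n : ℤ) - i)
      = ((U : ℝ) - i) * ∑ m ∈ range (L - i), Helper63.Sidon.ren U (m : ℤ) := by
    intro i hi
    have hi' := Finset.mem_range.1 hi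
    rw [← Finset.mul_sum]
    have h3 := shift U i (L - i)
    rw [show i + (L - i) = L by omega] at h3
    rw [h3]
  rw [Finset.sum_congr rfl h2] at h1
  have h4 : ∑ i ∈ range U, ((U : ℝ) - i) * (((L : ℝ) - i) + ∑ m ∈ range (L - i), dev U m)
      = ((U : ℝ) + 1) / 2 * (L * U) := by
    rw [← h1, Finset.mul_sum]
    refine Finset.sum_congr rfl fun i hi => ?_
    have hi' := Finset.mem_range.1 hi
    have h5 := ren_dev U (L - i)
    rw [Nat.cast_sub (by omega : i ≤ L)] at h5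
    rw [← h5]
    ring
  have h6 : ∑ i ∈ range U, ((U : ℝ) - i) * ((∑ m ∈ range (L - i), dev U m) - ((U : ℝ) - 1) / 3)
      = ∑ i ∈ range U, ((U : ℝ) - i) * (((L : ℝ) - i) + ∑ m ∈ range (L - i), dev U m)
        - ∑ i ∈ range U, ((U : ℝ) - (i : ℝ)) * ((L : ℝ) - i)
        - ((U : ℝ) - 1) / 3 * ∑ i ∈ range U, ((U : ℝ) - (i : ℝ)) := by
    rw [Finset.mul_sum, ← Finset.sum_sub_distrib, ← Finset.sum_sub_distrib]
    refine Finset.sum_congr rfl fun i _ => ?_
    ring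
  rw [h6, h4, sum1, sum2]
  ring

end Gamx

theorem thm_Gam (hDcs : St_Dcs) : St_Gam := by
  intro U hU T hT
  have hU' : (1 : ℝ) ≤ U := by exact_mod_cast hU
  have hkey := Gamx.key U hU (T + U) (by omega)
  have h1 : ∀ i ∈ range U, |∑ m ∈ range (T + U - i), dev U m - ∑ m ∈ range T, dev U m|
      ≤ 2 * U * (1 / 2 : ℝ) ^ ((T - 1) / U) := by
    intro i hi
    have hi' := Finset.mem_range.1 hi
    rw [← Finset.sum_Ico_eq_sub _ (by omega : T ≤ T + U - i)]
    exact (Finset.abs_sum_le_sum_abs _ _).trans (hDcs U hU T (T + U - i) hT)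
  have h2 : ∑ i ∈ range U, ((U : ℝ) - (i : ℝ)) = U * (U + 1) / 2 := by
    rw [Gamx.sum1]
    ring
  have h3 : (U : ℝ) * (U + 1) / 2 * (∑ j ∈ range T, dev U j - ((U : ℝ) - 1) / 3)
      = -∑ i ∈ range U, ((U : ℝ) - i) *
        (∑ m ∈ range (T + U - i), dev U m - ∑ m ∈ range T, dev U m) := by
    rw [← h2, Finset.sum_mul, eq_neg_iff_add_eq_zero, ← Finset.sum_add_distrib, ← hkey]
    refine Finset.sum_congr rfl fun i _ => ?_
    ring
  have h4 : |∑ i ∈ range U, ((U : ℝ) - i) *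
        (∑ m ∈ range (T + U - i), dev U m - ∑ m ∈ range T, dev U m)|
      ≤ (U : ℝ) * (U + 1) / 2 * (2 * U * (1 / 2 : ℝ) ^ ((T - 1) / U)) := by
    rw [← h2, Finset.sum_mul]
    refine (Finset.abs_sum_le_sum_abs _ _).trans (Finset.sum_le_sum fun i hi => ?_)
    have hi' : (i : ℝ) ≤ U := by exact_mod_cast (Finset.mem_range.1 hi).le
    rw [abs_mul, abs_of_nonneg (by linarith : (0 : ℝ) ≤ (U : ℝ) - i)]
    exact mul_le_mul_of_nonneg_left (h1 i hi) (by linarith)
  have hc : (0 : ℝ) < (U : ℝ) * (U + 1) / 2 := by positivity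
  have h5 : (U : ℝ) * (U + 1) / 2 * |∑ j ∈ range T, dev U j - ((U : ℝ) - 1) / 3|
      ≤ (U : ℝ) * (U + 1) / 2 * (2 * U * (1 / 2 : ℝ) ^ ((T - 1) / U)) := by
    rw [← abs_of_pos hc, ← abs_mul, h3, abs_neg, abs_of_pos hc]
    exact h4
  exact le_of_mul_le_mul_left h5 hc

end Pool.Agent.SAV
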