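import Pool.Agent.SAV.St

/-!
Module (B2) of SAV: the exact correlation identity.
-/

set_option autoImplicit false

open Finset

namespace Pool.Agent.SAV

namespace Idnx

open Helper63.Sidon (ren ren_neg ramp_conv ramp_sum)

lemma summable_abs (hDcs : St_Dcs) (U : ℕ) (hU : 1 ≤ U) : Summable fun n => |dev U n| := by
  refine summable_of_sum_range_le (c := |dev U 0| + 2 * U) (fun _ => abs_nonneg _) fun n => ?_
  rcases Nat.eq_zero_or_pos n with rfl | hn
  · rw [Finset.sum_range_zero]; positivity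
  · rw [Finset.range_eq_Ico, Finset.sum_eq_sum_Ico_succ_bot hn]
    have h := hDcs U hU 1 n le_rfl
    simp only [Nat.sub_self, Nat.zero_div, pow_zero, mul_one] at h
    simpa using h

lemma bound (hDec : St_Dec) (U : ℕ) (hU : 1 ≤ U) (n : ℕ) : |dev U n| ≤ |dev U 0| + 1 := by
  rcases Nat.eq_zero_or_pos n with rfl | hn
  · linarith
  · have h := (hDec U hU n hn).1
    have h2 : ((1 : ℝ) / 2) ^ ((n - 1) / U) ≤ 1 := pow_le_one₀ (by norm_num) (by norm_num)
    have := abs_nonneg (dev U 0)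
    linarith

lemma hasSum_cor (hDec : St_Dec) (hDcs : St_Dcs) (U : ℕ) (hU : 1 ≤ U) (e : ℕ) :
    HasSum (fun j : ℕ => dev U j + dev U (j + e) + dev U j * dev U (j + e)) (cor U e) := by
  refine Summable.hasSum ?_
  have h0 : Summable fun n => dev U n := (summable_abs hDcs U hU).of_abs
  have h1 : Summable fun n => dev U (n + e) := (summable_nat_add_iff e).2 h0
  refine (h0.add h1).add ?_
  refine Summable.of_norm_bounded (g := fun n => |dev U n| * (|dev U 0| + 1))
    ((summable_abs hDcs U hU).mul_right _) fun n => ?_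
  rw [Real.norm_eq_abs, abs_mul]
  exact mul_le_mul_of_nonneg_left (bound hDec U hU _) (abs_nonneg _)

/-- the normalised sequence on the integers -/
noncomputable def gg (U : ℕ) (x : ℤ) : ℝ := ((U : ℝ) + 1) / 2 * ren U x

lemma dev_eq (U n : ℕ) : dev U n = gg U n - 1 := rfl

lemma gg_neg (U : ℕ) (x : ℤ) (hx : x < 0) : gg U x = 0 := by
  unfold gg; rw [ren_neg U x hx, mul_zero]

lemma ramp_gg (U : ℕ) (hU : 1 ≤ U) (x : ℤ) (hx : 0 ≤ x) :
    ∑ i ∈ range U, ((U : ℝ) - i) * gg U (x - i) = (U : ℝ) * (U + 1) / 2 := by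
  have h := ramp_conv U hU x hx
  unfold gg
  calc ∑ i ∈ range U, ((U : ℝ) - i) * (((U : ℝ) + 1) / 2 * ren U (x - i))
      = ((U : ℝ) + 1) / 2 * ∑ i ∈ range U, ((U : ℝ) - i) * ren U (x - i) := by
        rw [Finset.mul_sum]
        exact Finset.sum_congr rfl fun i _ => by ring
    _ = (U : ℝ) * (U + 1) / 2 := by rw [h]; ring

lemma ramp_one (U : ℕ) : ∑ i ∈ range U, ((U : ℝ) - i) = (U : ℝ) * (U + 1) / 2 := by
  have : ∀ (c : ℝ) (n : ℕ), ∑ i ∈ range n, (c - i) = c * n - (n : ℝ) * (n - 1) / 2 := by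
    intro c n
    induction n with
    | zero => simp
    | succ n ih => rw [Finset.sum_range_succ, ih]; push_cast; ring
  rw [this]; ring

lemma ramp_mul (U : ℕ) : ∑ i ∈ range U, ((U : ℝ) - i) * i =
    ((U : ℝ) - 1) * U * (U + 1) / 6 := by
  have : ∀ (c : ℝ) (n : ℕ), ∑ i ∈ range n, (c - i) * i =
      c * ((n : ℝ) * (n - 1) / 2) - ((n : ℝ) - 1) * n * (2 * n - 1) / 6 := by
    intro c n
    induction n with
    | zero => simp
    | succ n ih => rw [Finset.sum_range_succ, ih]; push_cast; ring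
  rw [this]; ring

/-- the total deviation -/
lemma gam (hDcs : St_Dcs) (U : ℕ) (hU : 1 ≤ U) : HasSum (fun n => dev U n) (((U : ℝ) - 1) / 3) := by
  have h0 : Summable fun n => dev U n := (summable_abs hDcs U hU).of_abs
  obtain ⟨γ, hγ⟩ := h0
  have h1 : ∀ i ∈ range U, HasSum (fun n : ℕ => ((U : ℝ) - i) * (gg U ((n : ℤ) - i) - 1))
      (((U : ℝ) - i) * (γ - i)) := by
    intro i _
    refine HasSum.mul_left _ ?_
    have h2 : HasSum (fun n : ℕ => (fun n : ℕ => gg U ((n : ℤ) - i) - 1) (n + i)) γ := by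
      have : (fun n : ℕ => (fun n : ℕ => gg U ((n : ℤ) - i) - 1) (n + i)) = fun n => dev U n := by
        funext n
        simp only [Nat.cast_add, add_sub_cancel_right]
        rfl
      rw [this]; exact hγ
    have h3 := (hasSum_nat_add_iff (f := fun n : ℕ => gg U ((n : ℤ) - i) - 1) i).1 h2
    have h4 : ∑ n ∈ range i, (gg U ((n : ℤ) - i) - 1) = -(i : ℝ) := by
      rw [Finset.sum_congr rfl (fun n hn => by
        rw [gg_neg U _ (by have := Finset.mem_range.1 hn; omega)])]
      simp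
    rw [h4, ← sub_eq_add_neg] at h3
    exact h3
  have h2 := hasSum_sum h1
  have h3 : (fun n : ℕ => ∑ i ∈ range U, ((U : ℝ) - i) * (gg U ((n : ℤ) - i) - 1)) =
      fun _ => (0 : ℝ) := by
    funext n
    have := ramp_gg U hU n (by positivity)
    simp only [mul_sub, mul_one, Finset.sum_sub_distrib]
    rw [this, ← Finset.sum_sub_distrib, ramp_one]
    ring
  rw [h3] at h2
  have h4 := h2.unique hasSum_zero
  have h5 : ∑ i ∈ range U, ((U : ℝ) - i) * (γ - i) =
      (U : ℝ) * (U + 1) / 2 * γ - ((U : ℝ) - 1) * U * (U + 1) / 6 := by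
    rw [← ramp_one, ← ramp_mul, Finset.sum_mul, ← Finset.sum_sub_distrib]
    exact Finset.sum_congr rfl fun i _ => by ring
  rw [h5] at h4
  have hU' : (0 : ℝ) < U := by exact_mod_cast hU
  have h6 : γ = ((U : ℝ) - 1) / 3 := by
    have h7 : (U : ℝ) * (U + 1) / 2 * (γ - ((U : ℝ) - 1) / 3) = 0 := by linarith
    rcases mul_eq_zero.1 h7 with h8 | h8
    · exact absurd h8 (by positivity)
    · linarith
  rw [← h6]; exact hγ

lemma hasSum_shift (hDec : St_Dec) (hDcs : St_Dcs) (U : ℕ) (hU : 1 ≤ U) (e i : ℕ) :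
    HasSum (fun j : ℕ => gg U j * gg U ((j : ℤ) + e - i) - 1)
      (hc U ((e : ℤ) - i).natAbs + ((e : ℝ) - i) / 2) := by
  rcases le_or_gt i e with h | h
  · obtain ⟨s, rfl⟩ := Nat.exists_eq_add_of_le h
    have h1 : (((i + s : ℕ) : ℤ) - i).natAbs = s := by push_cast; omega
    rw [h1]
    have h2 := hasSum_cor hDec hDcs U hU s
    have h3 : (fun j : ℕ => gg U j * gg U ((j : ℤ) + (i + s : ℕ) - i) - 1) =
        fun j => dev U j + dev U (j + s) + dev U j * dev U (j + s) := by
      funext j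
      have : (j : ℤ) + (i + s : ℕ) - i = ((j + s : ℕ) : ℤ) := by push_cast; ring
      rw [this, dev_eq, dev_eq]
      ring
    rw [h3]
    unfold hc
    have h4 : cor U s - (s : ℝ) / 2 + (((i + s : ℕ) : ℝ) - i) / 2 = cor U s := by push_cast; ring
    rw [h4]
    exact h2
  · obtain ⟨s, rfl⟩ := Nat.exists_eq_add_of_le h.le
    have h1 : ((e : ℤ) - (e + s : ℕ)).natAbs = s := by push_cast; omega
    rw [h1]
    have h2 := hasSum_cor hDec hDcs U hU s
    have h3 : HasSum (fun n : ℕ => (fun j : ℕ => gg U j * gg U ((j : ℤ) + e - (e + s : ℕ)) - 1)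
        (n + s)) (cor U s) := by
      have : (fun n : ℕ => (fun j : ℕ => gg U j * gg U ((j : ℤ) + e - (e + s : ℕ)) - 1)
          (n + s)) = fun j => dev U j + dev U (j + s) + dev U j * dev U (j + s) := by
        funext j
        have : ((j + s : ℕ) : ℤ) + e - (e + s : ℕ) = (j : ℤ) := by push_cast; ring
        simp only [this]
        rw [dev_eq, dev_eq]
        ring
      rw [this]; exact h2
    have h4 := (hasSum_nat_add_iff
      (f := fun j : ℕ => gg U j * gg U ((j : ℤ) + e - (e + s : ℕ)) - 1) s).1 h3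
    have h5 : ∑ j ∈ range s, (gg U j * gg U ((j : ℤ) + e - (e + s : ℕ)) - 1) = -(s : ℝ) := by
      rw [Finset.sum_congr rfl (fun j hj => by
        rw [gg_neg U ((j : ℤ) + e - (e + s : ℕ))
          (by have := Finset.mem_range.1 hj; push_cast; omega)])]
      simp
    rw [h5] at h4
    unfold hc
    have h6 : cor U s - (s : ℝ) / 2 + ((e : ℝ) - (e + s : ℕ)) / 2 = cor U s + -(s : ℝ) := by
      push_cast; ring
    rw [h6]
    exact h4

end Idnx

open Idnx in
theorem thm_Idn (hDec : St_Dec) (hDcs : St_Dcs) : St_Idn := by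
  intro U hU e
  have h1 : HasSum (fun j : ℕ => ∑ i ∈ range U, ((U : ℝ) - i) *
      (gg U j * gg U ((j : ℤ) + e - i) - 1)) (∑ i ∈ range U, ((U : ℝ) - i) *
      (hc U ((e : ℤ) - i).natAbs + ((e : ℝ) - i) / 2)) :=
    hasSum_sum fun i _ => (hasSum_shift hDec hDcs U hU e i).mul_left _
  have h2 : (fun j : ℕ => ∑ i ∈ range U, ((U : ℝ) - i) *
      (gg U j * gg U ((j : ℤ) + e - i) - 1)) = fun j : ℕ => (U : ℝ) * (U + 1) / 2 * dev U j := by
    funext j
    have h3 := ramp_gg U hU ((j : ℤ) + e) (by positivity)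
    rw [dev_eq]
    calc ∑ i ∈ range U, ((U : ℝ) - i) * (gg U j * gg U ((j : ℤ) + e - i) - 1)
        = gg U j * ∑ i ∈ range U, ((U : ℝ) - i) * gg U ((j : ℤ) + e - i) -
            ∑ i ∈ range U, ((U : ℝ) - i) := by
          rw [Finset.mul_sum, ← Finset.sum_sub_distrib]
          exact Finset.sum_congr rfl fun i _ => by ring
      _ = (U : ℝ) * (U + 1) / 2 * (gg U j - 1) := by rw [h3, ramp_one]; ring
  rw [h2] at h1
  have h3 := h1.unique ((gam hDcs U hU).mul_left _)
  have h4 : ∑ i ∈ range U, ((U : ℝ) - i) * (hc U ((e : ℤ) - i).natAbs + ((e : ℝ) - i) / 2) =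
      ∑ i ∈ range U, ((U : ℝ) - i) * hc U ((e : ℤ) - i).natAbs +
        ((e : ℝ) / 2 * ((U : ℝ) * (U + 1) / 2) - (1 / 2) * (((U : ℝ) - 1) * U * (U + 1) / 6)) := by
    rw [← ramp_one, ← ramp_mul, Finset.mul_sum, Finset.mul_sum, ← Finset.sum_sub_distrib,
      ← Finset.sum_add_distrib]
    exact Finset.sum_congr rfl fun i _ => by ring
  rw [h4] at h3
  linear_combination h3

end Pool.Agent.SAV
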