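import Pool.Agent.SAV.St

/-!
# Independent random points (module (D) of `SAV`)
-/

set_option autoImplicit false

open Finset

namespace Pool.Agent.SAV

namespace Indx

variable {ι : Type} [Fintype ι] [DecidableEq ι]

/-- weight of the value `x` of the `k`-th point, `0` meaning that the point is absent -/
private noncomputable def wt (N : ℕ) (q : ι → ℕ → ℝ) (k : ι) (x : ℕ) : ℝ :=
  if x = 0 then 1 - ∑ y ∈ Icc 1 N, q k y else q k x

private noncomputable def W (N : ℕ) (q : ι → ℕ → ℝ) (f : ι → ℕ) : ℝ := ∏ k, wt N q k (f k)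

private def S (ι : Type) [Fintype ι] [DecidableEq ι] (N : ℕ) : Finset (ι → ℕ) :=
  Fintype.piFinset (fun _ : ι => range (N + 1))

private def Af (f : ι → ℕ) : Finset ℕ := (univ.image f).erase 0

/-- indicator of `f k = x`, `x ≥ 1` -/
private def ind (f : ι → ℕ) (k : ι) (x : ℕ) : ℝ := if f k = x ∧ 1 ≤ x then 1 else 0

private theorem ind_nonneg (f : ι → ℕ) (k : ι) (x : ℕ) : 0 ≤ ind f k x := by
  unfold ind; split_ifs <;> norm_num

private theorem range_eq (N : ℕ) : range (N + 1) = insert 0 (Icc 1 N) := by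
  ext x; simp only [mem_range, mem_insert, mem_Icc]; omega

private theorem sum_wt (N : ℕ) (q : ι → ℕ → ℝ) (k : ι) (a : ℕ → ℝ) :
    ∑ x ∈ range (N + 1), wt N q k x * a x =
      (1 - ∑ y ∈ Icc 1 N, q k y) * a 0 + ∑ x ∈ Icc 1 N, q k x * a x := by
  rw [range_eq, sum_insert (by simp)]
  congr 1
  refine sum_congr rfl fun x hx => ?_
  have : x ≠ 0 := by have := (mem_Icc.1 hx).1; omega
  simp [wt, this]

private theorem sum_wt_one (N : ℕ) (q : ι → ℕ → ℝ) (k : ι) : ∑ x ∈ range (N + 1), wt N q k x = 1 := by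
  have := sum_wt N q k (fun _ => 1)
  simp only [mul_one] at this
  rw [this]; ring

private theorem total (N : ℕ) (q : ι → ℕ → ℝ) : ∑ f ∈ S ι N, W N q f = 1 := by
  unfold S W
  rw [← Finset.prod_univ_sum]
  exact prod_eq_one fun k _ => sum_wt_one N q k

private theorem marg1 (N : ℕ) (q : ι → ℕ → ℝ) (k : ι) (a : ℕ → ℝ) :
    ∑ f ∈ S ι N, W N q f * a (f k) = ∑ x ∈ range (N + 1), wt N q k x * a x := by
  have h1 : ∀ f : ι → ℕ, W N q f * a (f k) = ∏ j, (wt N q j (f j) * (if j = k then a (f j) else 1)) := by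
    intro f
    rw [prod_mul_distrib]
    congr 1
    rw [prod_ite_eq' univ k (fun j => a (f j))]
    simp
  simp only [h1]
  unfold S
  rw [← Finset.prod_univ_sum (fun _ : ι => range (N + 1)) (fun j x => wt N q j x * (if j = k then a x else 1))]
  rw [prod_eq_single k]
  · simp
  · intro j _ hj
    simp only [hj, if_false, mul_one]
    exact sum_wt_one N q j
  · intro h; exact absurd (mem_univ k) h

private theorem marg2 (N : ℕ) (q : ι → ℕ → ℝ) (k l : ι) (hkl : k ≠ l) (a b : ℕ → ℝ) :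
    ∑ f ∈ S ι N, W N q f * (a (f k) * b (f l)) =
      (∑ x ∈ range (N + 1), wt N q k x * a x) * (∑ x ∈ range (N + 1), wt N q l x * b x) := by
  have h1 : ∀ f : ι → ℕ, W N q f * (a (f k) * b (f l)) =
      ∏ j, (wt N q j (f j) * ((if j = k then a (f j) else 1) * (if j = l then b (f j) else 1))) := by
    intro f
    rw [prod_mul_distrib, prod_mul_distrib]
    congr 1
    rw [prod_ite_eq' univ k (fun j => a (f j)), prod_ite_eq' univ l (fun j => b (f j))]
    simp
  simp only [h1]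
  unfold S
  rw [← Finset.prod_univ_sum (fun _ : ι => range (N + 1))
    (fun j x => wt N q j x * ((if j = k then a x else 1) * (if j = l then b x else 1)))]
  rw [← mul_prod_erase univ _ (mem_univ k), ← mul_prod_erase (univ.erase k) _ (mem_erase.2 ⟨hkl.symm, mem_univ l⟩)]
  have e1 : ∀ j ∈ (univ.erase k).erase l, ∑ x ∈ range (N + 1),
      wt N q j x * ((if j = k then a x else 1) * (if j = l then b x else 1)) = 1 := by
    intro j hj
    have hj2 := mem_erase.1 hj
    have hj3 := mem_erase.1 hj2.2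
    simp only [hj2.1, hj3.1, if_false, mul_one]
    exact sum_wt_one N q j
  rw [prod_congr rfl e1, prod_const_one, mul_one]
  simp [hkl, hkl.symm]

private theorem W_nonneg (N : ℕ) (q : ι → ℕ → ℝ) (h0 : ∀ k x, 0 ≤ q k x)
    (h1 : ∀ k, ∑ x ∈ Icc 1 N, q k x ≤ 1) (f : ι → ℕ) : 0 ≤ W N q f := by
  unfold W
  refine prod_nonneg fun k _ => ?_
  unfold wt
  split_ifs
  · linarith [h1 k]
  · exact h0 _ _

private theorem E1 (N : ℕ) (q : ι → ℕ → ℝ) (hq : ∀ k x, x ∉ Icc 1 N → q k x = 0) (k : ι) (x : ℕ) :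
    ∑ f ∈ S ι N, W N q f * ind f k x = q k x := by
  have h := marg1 N q k (fun y => if y = x ∧ 1 ≤ x then (1 : ℝ) else 0)
  have h2 : ∀ f : ι → ℕ, ind f k x = (fun y => if y = x ∧ 1 ≤ x then (1 : ℝ) else 0) (f k) := fun f => rfl
  simp only [h2]
  rw [h, sum_wt]
  by_cases hx : x ∈ Icc 1 N
  · have hx1 := (mem_Icc.1 hx).1
    have : ¬ (0 = x) := by omega
    simp only [this, false_and, if_false, mul_zero, zero_add, hx1, and_true]
    rw [sum_eq_single x]
    · simp
    · intro b _ hb; simp [hb]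
    · intro h'; exact absurd hx h'
  · rw [hq k x hx]
    have h3 : ∀ y ∈ Icc 1 N, q k y * (if y = x ∧ 1 ≤ x then (1 : ℝ) else 0) = 0 := by
      intro y hy
      have : y ≠ x := by rintro rfl; exact hx hy
      simp [this]
    rw [sum_congr rfl h3, sum_const_zero, add_zero]
    have : ¬ (0 = x ∧ 1 ≤ x) := by omega
    simp [this]

private theorem E2 (N : ℕ) (q : ι → ℕ → ℝ) (hq : ∀ k x, x ∉ Icc 1 N → q k x = 0) (k l : ι) (hkl : k ≠ l) (x y : ℕ) :
    ∑ f ∈ S ι N, W N q f * (ind f k x * ind f l y) = q k x * q l y := by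
  have h := marg2 N q k l hkl (fun z => if z = x ∧ 1 ≤ x then (1 : ℝ) else 0)
    (fun z => if z = y ∧ 1 ≤ y then (1 : ℝ) else 0)
  have h3 := marg1 N q k (fun z => if z = x ∧ 1 ≤ x then (1 : ℝ) else 0)
  have h4 := marg1 N q l (fun z => if z = y ∧ 1 ≤ y then (1 : ℝ) else 0)
  rw [← h3, ← h4] at h
  have h5 := E1 N q hq k x
  have h6 := E1 N q hq l y
  rw [← h5, ← h6]
  exact h

private theorem mem_Af {f : ι → ℕ} {x : ℕ} : x ∈ Af f ↔ 1 ≤ x ∧ ∃ k, f k = x := by
  unfold Af
  simp only [mem_erase, mem_image, mem_univ, true_and]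
  constructor
  · rintro ⟨h1, h2⟩; exact ⟨by omega, h2⟩
  · rintro ⟨h1, h2⟩; exact ⟨by omega, h2⟩

private theorem Af_sub {N : ℕ} {f : ι → ℕ} (hf : f ∈ S ι N) : Af f ⊆ Icc 1 N := by
  intro x hx
  obtain ⟨h1, k, hk⟩ := mem_Af.1 hx
  have := Fintype.mem_piFinset.1 hf k
  rw [mem_range, hk] at this
  exact mem_Icc.2 ⟨h1, by omega⟩

private theorem ind_one {f : ι → ℕ} {k : ι} {x : ℕ} (h : f k = x) (hx : 1 ≤ x) : ind f k x = 1 := by
  simp [ind, h, hx]

/-- bound of the diagonal-free double sum from below -/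
private theorem two_le {f : ι → ℕ} {x y : ℕ} (hxy : x ≠ y) (hx : x ∈ Af f) (hy : y ∈ Af f) :
    (1 : ℝ) ≤ ∑ k : ι, ∑ l ∈ univ.erase k, ind f k x * ind f l y := by
  obtain ⟨hx1, k, hk⟩ := mem_Af.1 hx
  obtain ⟨hy1, l, hl⟩ := mem_Af.1 hy
  have hkl : l ≠ k := by rintro rfl; exact hxy (hk.symm.trans hl)
  calc (1 : ℝ) = ind f k x * ind f l y := by rw [ind_one hk hx1, ind_one hl hy1, one_mul]
    _ ≤ ∑ l ∈ univ.erase k, ind f k x * ind f l y :=
        single_le_sum (f := fun l => ind f k x * ind f l y)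
          (fun j _ => mul_nonneg (ind_nonneg _ _ _) (ind_nonneg _ _ _)) (mem_erase.2 ⟨hkl, mem_univ l⟩)
    _ ≤ ∑ k : ι, ∑ l ∈ univ.erase k, ind f k x * ind f l y :=
        single_le_sum (f := fun k => ∑ l ∈ univ.erase k, ind f k x * ind f l y)
          (fun j _ => sum_nonneg fun _ _ => mul_nonneg (ind_nonneg _ _ _) (ind_nonneg _ _ _)) (mem_univ k)

private theorem dsum_nonneg (f : ι → ℕ) (x y : ℕ) :
    0 ≤ ∑ k : ι, ∑ l ∈ univ.erase k, ind f k x * ind f l y :=
  sum_nonneg fun _ _ => sum_nonneg fun _ _ => mul_nonneg (ind_nonneg _ _ _) (ind_nonneg _ _ _)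

private theorem diff_le {N : ℕ} {f : ι → ℕ} (hf : f ∈ S ι N) {d : ℕ} (hd : 1 ≤ d) :
    (diffCount (Af f) d : ℝ) ≤ ∑ x ∈ Icc 1 N, ∑ k : ι, ∑ l ∈ univ.erase k, ind f k x * ind f l (x + d) := by
  unfold diffCount
  have h1 : (Af f).filter (fun a => a + d ∈ Af f) = (Icc 1 N).filter (fun a => a ∈ Af f ∧ a + d ∈ Af f) := by
    ext a
    simp only [mem_filter]
    constructor
    · rintro ⟨h1, h2⟩; exact ⟨Af_sub hf h1, h1, h2⟩
    · rintro ⟨_, h1, h2⟩; exact ⟨h1, h2⟩
  rw [h1, card_filter]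
  push_cast
  refine sum_le_sum fun x _ => ?_
  split_ifs with h
  · exact two_le (by omega) h.1 h.2
  · exact dsum_nonneg f x (x + d)

private theorem sum_le {N : ℕ} {f : ι → ℕ} (hf : f ∈ S ι N) (s : ℕ) :
    (sumCount (Af f) s : ℝ) ≤ (∑ x ∈ Icc 1 N, ∑ k : ι, ∑ l ∈ univ.erase k, ind f k x * ind f l (s - x)) / 2
      + ∑ x ∈ Icc 1 N, ∑ k : ι, (if 2 * x = s then ind f k x else 0) := by
  -- pairs `x < y` and pairs `x = y`
  have hsub := Af_sub hf
  have h1 : sumCount (Af f) s = ((Icc 1 N).filter fun x => x ∈ Af f ∧ s - x ∈ Af f ∧ 2 * x < s).card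
      + ((Icc 1 N).filter fun x => x ∈ Af f ∧ 2 * x = s).card := by
    unfold sumCount
    rw [← card_union_of_disjoint]
    · refine card_bij (fun x _ => x.1) ?_ ?_ ?_
      · rintro ⟨a, b⟩ hab
        simp only [mem_filter, mem_product, mem_union] at hab ⊢
        obtain ⟨⟨ha, hb⟩, h1, h2⟩ := hab
        have hb' : s - a = b := by omega
        by_cases h : 2 * a = s
        · right; exact ⟨hsub ha, ha, h⟩
        · left; exact ⟨hsub ha, ha, by rw [hb']; exact hb, by omega⟩
      · rintro ⟨a, b⟩ hab ⟨a', b'⟩ hab' he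
        simp only [mem_filter, mem_product] at hab hab' he
        subst he
        have : b = b' := by omega
        rw [this]
      · intro x hx
        simp only [mem_filter, mem_union] at hx
        rcases hx with ⟨_, hx, hy, hl⟩ | ⟨_, hx, hl⟩
        · exact ⟨(x, s - x), by simp only [mem_filter, mem_product]; exact ⟨⟨hx, hy⟩, by omega, by omega⟩, rfl⟩
        · exact ⟨(x, x), by simp only [mem_filter, mem_product]; exact ⟨⟨hx, hx⟩, le_refl _, by omega⟩, rfl⟩
    · rw [disjoint_filter]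
      rintro x _ ⟨_, _, h⟩ ⟨_, h'⟩
      omega
  -- the ordered pairs with distinct entries
  have h2 : (2 : ℝ) * (((Icc 1 N).filter fun x => x ∈ Af f ∧ s - x ∈ Af f ∧ 2 * x < s).card : ℝ) ≤
      ∑ x ∈ Icc 1 N, ∑ k : ι, ∑ l ∈ univ.erase k, ind f k x * ind f l (s - x) := by
    have e1 : ((Icc 1 N).filter fun x => x ∈ Af f ∧ s - x ∈ Af f ∧ 2 * x < s).card =
        ((Icc 1 N).filter fun x => x ∈ Af f ∧ s - x ∈ Af f ∧ s < 2 * x).card := by
      refine card_bij (fun x _ => s - x) ?_ ?_ ?_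
      · intro x hx
        simp only [mem_filter] at hx ⊢
        obtain ⟨_, hx, hy, hl⟩ := hx
        have e : s - (s - x) = x := by omega
        exact ⟨hsub hy, hy, by rw [e]; exact hx, by omega⟩
      · intro x hx y hy h
        simp only [mem_filter] at hx hy
        omega
      · intro y hy
        simp only [mem_filter] at hy
        obtain ⟨hI, hx, hy, hl⟩ := hy
        have hpos := (mem_Icc.1 (hsub hy)).1
        have e : s - (s - y) = y := by omega
        exact ⟨s - y, by simp only [mem_filter]; exact ⟨hsub hy, hy, by rw [e]; exact hx, by omega⟩, e⟩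
    have e2 : (2 : ℝ) * (((Icc 1 N).filter fun x => x ∈ Af f ∧ s - x ∈ Af f ∧ 2 * x < s).card : ℝ) =
        (((Icc 1 N).filter fun x => x ∈ Af f ∧ s - x ∈ Af f ∧ 2 * x ≠ s).card : ℝ) := by
      have : ((Icc 1 N).filter fun x => x ∈ Af f ∧ s - x ∈ Af f ∧ 2 * x ≠ s).card =
          ((Icc 1 N).filter fun x => x ∈ Af f ∧ s - x ∈ Af f ∧ 2 * x < s).card +
          ((Icc 1 N).filter fun x => x ∈ Af f ∧ s - x ∈ Af f ∧ s < 2 * x).card := by
        rw [← card_union_of_disjoint]
        · congr 1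
          ext x
          simp only [mem_filter, mem_union]
          constructor
          · rintro ⟨h1, h2, h3, h4⟩
            rcases lt_or_gt_of_ne h4 with h | h
            · left; exact ⟨h1, h2, h3, h⟩
            · right; exact ⟨h1, h2, h3, h⟩
          · rintro (⟨h1, h2, h3, h4⟩ | ⟨h1, h2, h3, h4⟩)
            · exact ⟨h1, h2, h3, by omega⟩
            · exact ⟨h1, h2, h3, by omega⟩
        · rw [disjoint_filter]
          rintro x _ ⟨_, _, h⟩ ⟨_, _, h'⟩
          omega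
      rw [this, ← e1]; push_cast; ring
    rw [e2, card_filter]
    push_cast
    refine sum_le_sum fun x _ => ?_
    split_ifs with h
    · exact two_le (by omega) h.1 h.2.1
    · exact dsum_nonneg f x (s - x)
  have h3 : (((Icc 1 N).filter fun x => x ∈ Af f ∧ 2 * x = s).card : ℝ) ≤
      ∑ x ∈ Icc 1 N, ∑ k : ι, (if 2 * x = s then ind f k x else 0) := by
    rw [card_filter]
    push_cast
    refine sum_le_sum fun x _ => ?_
    split_ifs with h h' h'
    · obtain ⟨hx1, k, hk⟩ := mem_Af.1 h.1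
      calc (1 : ℝ) = ind f k x := (ind_one hk hx1).symm
        _ ≤ _ := single_le_sum (f := fun k => ind f k x) (fun j _ => ind_nonneg _ _ _) (mem_univ k)
    · exact absurd h.2 h'
    · exact sum_nonneg fun _ _ => ind_nonneg _ _ _
    · simp
  rw [h1]; push_cast
  linarith

private theorem card_ge {N : ℕ} {f : ι → ℕ} (hf : f ∈ S ι N) :
    ∑ x ∈ Icc 1 N, ∑ k : ι, ind f k x
      - (∑ x ∈ Icc 1 N, ∑ k : ι, ∑ l ∈ univ.erase k, ind f k x * ind f l x) / 2 ≤ ((Af f).card : ℝ) := by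
  have h1 : Af f = (Icc 1 N).filter (fun a => a ∈ Af f) := by
    ext a
    simp only [mem_filter]
    constructor
    · intro h1; exact ⟨Af_sub hf h1, h1⟩
    · rintro ⟨_, h1⟩; exact h1
  rw [h1, card_filter, sum_div, ← sum_sub_distrib]
  push_cast
  refine sum_le_sum fun x hx => ?_
  have hx1 := (mem_Icc.1 hx).1
  -- the multiplicity
  set m : ℕ := (univ.filter fun k => f k = x).card with hm
  have e1 : ∑ k : ι, ind f k x = m := by
    unfold ind
    simp only [hx1, and_true]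
    rw [hm, card_filter]
    push_cast
    rfl
  have e2 : ∑ k : ι, ∑ l ∈ univ.erase k, ind f k x * ind f l x = (m : ℝ) ^ 2 - m := by
    have e3 : ∀ k : ι, ∑ l ∈ univ.erase k, ind f k x * ind f l x = ind f k x * m - ind f k x := by
      intro k
      have e4 : ∑ l ∈ univ.erase k, ind f l x = m - ind f k x := by
        rw [← e1, ← add_sum_erase univ (fun l => ind f l x) (mem_univ k)]; ring
      rw [← mul_sum, e4, mul_sub]
      congr 1
      unfold ind; split_ifs <;> norm_num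
    simp only [e3]
    rw [sum_sub_distrib, ← sum_mul, e1]; ring
  rw [e1, e2]
  have hAf : x ∈ Af f ↔ 1 ≤ m := by
    have hc : 1 ≤ m ↔ (univ.filter fun k => f k = x).Nonempty := by
      rw [hm]; exact Nat.succ_le_iff.trans card_pos
    rw [mem_Af, hc]
    constructor
    · rintro ⟨_, k, hk⟩; exact ⟨k, by simp [hk]⟩
    · rintro ⟨k, hk⟩; exact ⟨hx1, k, by simpa using hk⟩
  split_ifs with h
  · have hm1 : 1 ≤ m := hAf.1 h
    have : (0 : ℝ) ≤ ((m : ℝ) - 1) * ((m : ℝ) - 2) := by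
      rcases Nat.lt_or_ge m 2 with h2 | h2
      · have : m = 1 := by omega
        rw [this]; norm_num
      · have h3 : (2 : ℝ) ≤ m := by exact_mod_cast h2
        nlinarith
    nlinarith
  · have hm0 : m = 0 := by
      by_contra h0
      exact h (hAf.2 (Nat.one_le_iff_ne_zero.2 h0))
    rw [hm0]; norm_num

private theorem swap (N : ℕ) (w : (ι → ℕ) → ℝ) (g : (ι → ℕ) → ℕ → ι → ι → ℝ) :
    ∑ f ∈ S ι N, w f * ∑ x ∈ Icc 1 N, ∑ k : ι, ∑ l ∈ univ.erase k, g f x k l =
      ∑ k : ι, ∑ l ∈ univ.erase k, ∑ x ∈ Icc 1 N, ∑ f ∈ S ι N, w f * g f x k l := by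
  simp only [mul_sum]
  rw [sum_comm]
  have h1 : ∀ x ∈ Icc 1 N, ∑ f ∈ S ι N, ∑ k : ι, ∑ l ∈ univ.erase k, w f * g f x k l =
      ∑ k : ι, ∑ l ∈ univ.erase k, ∑ f ∈ S ι N, w f * g f x k l := by
    intro x _
    rw [sum_comm]
    refine sum_congr rfl fun k _ => ?_
    rw [sum_comm]
  rw [sum_congr rfl h1, sum_comm]
  refine sum_congr rfl fun k _ => ?_
  rw [sum_comm]

private theorem swap1 (N : ℕ) (w : (ι → ℕ) → ℝ) (g : (ι → ℕ) → ℕ → ι → ℝ) :
    ∑ f ∈ S ι N, w f * ∑ x ∈ Icc 1 N, ∑ k : ι, g f x k =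
      ∑ k : ι, ∑ x ∈ Icc 1 N, ∑ f ∈ S ι N, w f * g f x k := by
  simp only [mul_sum]
  rw [sum_comm]
  have h1 : ∀ x ∈ Icc 1 N, ∑ f ∈ S ι N, ∑ k : ι, w f * g f x k =
      ∑ k : ι, ∑ f ∈ S ι N, w f * g f x k := by
    intro x _
    rw [sum_comm]
  rw [sum_congr rfl h1, sum_comm]

end Indx

open Indx in
theorem thm_Ind : St_Ind := by
  intro ι _ _ N q h0 hq h1
  let p : Finset ℕ → ℝ := fun A => ∑ f ∈ S ι N, if Af f = A then W N q f else 0
  have hp : ∀ F : Finset ℕ → ℝ, ∑ A ∈ (Icc 1 N).powerset, p A * F A = ∑ f ∈ S ι N, W N q f * F (Af f) := by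
    intro F
    have : ∀ A ∈ (Icc 1 N).powerset, p A * F A = ∑ f ∈ S ι N, if Af f = A then W N q f * F A else 0 := by
      intro A _
      simp only [p]
      rw [sum_mul]
      refine sum_congr rfl fun f _ => ?_
      split_ifs <;> simp
    rw [sum_congr rfl this, sum_comm]
    refine sum_congr rfl fun f hf => ?_
    rw [sum_ite_eq (Icc 1 N).powerset (Af f) (fun A => W N q f * F A)]
    simp [Af_sub hf]
  have hW := W_nonneg N q h0 h1
  refine ⟨p, ?_, ?_, ?_, ?_, ?_⟩
  · intro A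
    refine sum_nonneg fun f _ => ?_
    split_ifs
    · exact hW f
    · exact le_refl _
  · have := hp (fun _ => 1)
    simp only [mul_one] at this
    rw [this, total]
  · intro d hd
    rw [hp (fun A => (diffCount A d : ℝ))]
    calc ∑ f ∈ S ι N, W N q f * (diffCount (Af f) d : ℝ)
        ≤ ∑ f ∈ S ι N, W N q f * ∑ x ∈ Icc 1 N, ∑ k : ι, ∑ l ∈ univ.erase k, ind f k x * ind f l (x + d) :=
          sum_le_sum fun f hf => mul_le_mul_of_nonneg_left (diff_le hf hd) (hW f)
      _ = ∑ k : ι, ∑ l ∈ univ.erase k, ∑ x ∈ Icc 1 N, ∑ f ∈ S ι N, W N q f * (ind f k x * ind f l (x + d)) :=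
          swap N (W N q) (fun f x k l => ind f k x * ind f l (x + d))
      _ = _ := by
          refine sum_congr rfl fun k _ => sum_congr rfl fun l hl => sum_congr rfl fun x _ => ?_
          exact E2 N q hq k l (mem_erase.1 hl).1.symm x (x + d)
  · intro s
    rw [hp (fun A => (sumCount A s : ℝ))]
    calc ∑ f ∈ S ι N, W N q f * (sumCount (Af f) s : ℝ)
        ≤ ∑ f ∈ S ι N, W N q f * ((∑ x ∈ Icc 1 N, ∑ k : ι, ∑ l ∈ univ.erase k, ind f k x * ind f l (s - x)) / 2
            + ∑ x ∈ Icc 1 N, ∑ k : ι, (if 2 * x = s then ind f k x else 0)) :=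
          sum_le_sum fun f hf => mul_le_mul_of_nonneg_left (sum_le hf s) (hW f)
      _ = (∑ f ∈ S ι N, W N q f * ∑ x ∈ Icc 1 N, ∑ k : ι, ∑ l ∈ univ.erase k, ind f k x * ind f l (s - x)) / 2
            + ∑ f ∈ S ι N, W N q f * ∑ x ∈ Icc 1 N, ∑ k : ι, (if 2 * x = s then ind f k x else 0) := by
          rw [sum_div, ← sum_add_distrib]
          refine sum_congr rfl fun f _ => ?_
          ring
      _ = _ := by
          rw [swap N (W N q) (fun f x k l => ind f k x * ind f l (s - x)),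
            swap1 N (W N q) (fun f x k => if 2 * x = s then ind f k x else 0)]
          congr 1
          · congr 1
            refine sum_congr rfl fun k _ => sum_congr rfl fun l hl => sum_congr rfl fun x _ => ?_
            exact E2 N q hq k l (mem_erase.1 hl).1.symm x (s - x)
          · refine sum_congr rfl fun k _ => sum_congr rfl fun x _ => ?_
            split_ifs
            · exact E1 N q hq k x
            · simp
  · unfold meanCard
    rw [hp (fun A => (A.card : ℝ))]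
    calc ∑ k : ι, ∑ x ∈ Icc 1 N, q k x
          - (∑ k : ι, ∑ l ∈ univ.erase k, ∑ x ∈ Icc 1 N, q k x * q l x) / 2
        = (∑ f ∈ S ι N, W N q f * ∑ x ∈ Icc 1 N, ∑ k : ι, ind f k x)
          - (∑ f ∈ S ι N, W N q f * ∑ x ∈ Icc 1 N, ∑ k : ι, ∑ l ∈ univ.erase k, ind f k x * ind f l x) / 2 := by
          rw [swap N (W N q) (fun f x k l => ind f k x * ind f l x), swap1 N (W N q) (fun f x k => ind f k x)]
          congr 1
          · refine sum_congr rfl fun k _ => sum_congr rfl fun x _ => ?_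
            exact (E1 N q hq k x).symm
          · congr 1
            refine sum_congr rfl fun k _ => sum_congr rfl fun l hl => sum_congr rfl fun x _ => ?_
            exact (E2 N q hq k l (mem_erase.1 hl).1.symm x x).symm
      _ = ∑ f ∈ S ι N, W N q f * (∑ x ∈ Icc 1 N, ∑ k : ι, ind f k x
          - (∑ x ∈ Icc 1 N, ∑ k : ι, ∑ l ∈ univ.erase k, ind f k x * ind f l x) / 2) := by
          rw [sum_div, ← sum_sub_distrib]
          refine sum_congr rfl fun f _ => ?_
          ring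
      _ ≤ _ := sum_le_sum fun f hf => mul_le_mul_of_nonneg_left (card_ge hf) (hW f)

end Pool.Agent.SAV
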