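import Pool.Agent.SAV.St

/-!
# The lower bound (F): choice of the parameters
-/

set_option autoImplicit false

open Finset

namespace Pool.Agent.SAV

namespace Lowx

/-- the empty set -/
theorem empty_avg (N : ℕ) : IsSidonOnAverage N (fun A => if A = ∅ then (1 : ℝ) else 0) ∧
    0 ≤ meanCard N (fun A => if A = ∅ then (1 : ℝ) else 0) := by
  have hmem : (∅ : Finset ℕ) ∈ (Icc 1 N).powerset := by
    rw [mem_powerset]
    exact empty_subset _
  have key : ∀ f : Finset ℕ → ℝ,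
      ∑ A ∈ (Icc 1 N).powerset, (if A = ∅ then (1 : ℝ) else 0) * f A = f ∅ := by
    intro f
    rw [sum_eq_single (∅ : Finset ℕ)]
    · rw [if_pos rfl, one_mul]
    · intro A _ hA
      rw [if_neg hA, zero_mul]
    · intro h
      exact absurd hmem h
  refine ⟨⟨fun A _ => ?_, ?_, fun d _ => ?_, fun s => ?_⟩, ?_⟩
  · split_ifs
    · exact zero_le_one
    · exact le_rfl
  · have h := key (fun _ => 1)
    simp only [mul_one] at h
    exact h
  · rw [key (fun A => (diffCount A d : ℝ))]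
    simp [diffCount]
  · rw [key (fun A => (sumCount A s : ℝ))]
    simp [sumCount]
  · unfold meanCard
    rw [key (fun A => (A.card : ℝ))]
    simp

theorem two_pow_bound (k : ℕ) (hk : 12 ≤ k) : 336 * k ≤ 2 ^ k := by
  induction k, hk using Nat.le_induction with
  | base => norm_num
  | succ n hn ih =>
    rw [pow_succ]
    omega

theorem good_of (M U : ℕ) (hU : 176 ≤ U) (h : U ^ 2 + 50 * U ≤ 2 * M) : Good U M := by
  refine ⟨by omega, h, ?_⟩
  have hUpos : 0 < U := by omega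
  have h1 : U / 16 + 1 ≤ (M / 8 - 2) / U := by
    rw [Nat.le_div_iff_mul_le hUpos]
    have h2 : 16 * ((U / 16 + 1) * U) ≤ (U + 16) * U := by
      have h3 : 16 * (U / 16 + 1) ≤ U + 16 := by omega
      calc 16 * ((U / 16 + 1) * U) = (16 * (U / 16 + 1)) * U := by ring
        _ ≤ (U + 16) * U := Nat.mul_le_mul_right U h3
    have h4 : (U + 16) * U = U ^ 2 + 16 * U := by ring
    rw [h4] at h2
    have h5 : M ≤ 8 * (M / 8) + 7 := by omega
    omega
  have h6 : 12 ≤ U / 16 + 1 := by omega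
  calc 21 * U ≤ 336 * (U / 16 + 1) := by omega
    _ ≤ 2 ^ (U / 16 + 1) := two_pow_bound _ h6
    _ ≤ 2 ^ ((M / 8 - 2) / U) := Nat.pow_le_pow_right (by norm_num) h1

theorem main (hPrf : St_Prf) (hRsm : St_Rsm) (hRlg : St_Rlg) (hCel : St_Cel) (N M U : ℕ)
    (hM : 1 ≤ M) (hMN : M * M ≤ N) (hG : Good U M) :
    ∃ p : Finset ℕ → ℝ, IsSidonOnAverage N p ∧
      (M : ℝ) + 2 * ((U : ℝ) - 1) / 3 - 3 / 2 ≤ meanCard N p := by
  obtain ⟨h0, h1, h2, h3⟩ := hPrf U M hG
  have hJ : (U : ℝ) ^ 2 + 50 * U ≤ 2 * M := by exact_mod_cast hG.hJ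
  have hU0 : (100 : ℝ) ≤ U := by exact_mod_cast hG.hU
  have hsum : ∑ j ∈ range M, (1 + pf U M j) = (M : ℝ) + ∑ j ∈ range M, pf U M j := by
    rw [sum_add_distrib]
    simp
  have c1 : ∀ e : ℕ, 1 ≤ e → e < M →
      ∑ j ∈ range (M - e), (1 + pf U M j) * (1 + pf U M (j + e)) ≤ (M : ℝ) := by
    intro e he heM
    by_cases hc : M ≤ 4 * (M - e)
    · exact hRsm U M hG e he heM hc
    · exact hRlg U M hG e he heM (by omega)
  have c2 : ∑ j ∈ range M, ((1 + pf U M j - 1) ^ 2 + 2 * |1 + pf U M j - 1|) ≤ (M : ℝ) := by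
    have e1 : ∀ j ∈ range M, ((1 + pf U M j - 1) ^ 2 + 2 * |1 + pf U M j - 1|) =
        pf U M j ^ 2 + 2 * |pf U M j| := by
      intro j _
      have : 1 + pf U M j - 1 = pf U M j := by ring
      rw [this]
    rw [sum_congr rfl e1, sum_add_distrib, ← mul_sum]
    nlinarith
  have c3 : (∑ j ∈ range M, (1 + pf U M j) ^ 2) / 2 + (U : ℝ) ≤ M := by
    have e2 : ∑ j ∈ range M, (1 + pf U M j) ^ 2 = (M : ℝ) + 2 * ∑ j ∈ range M, pf U M j +
        ∑ j ∈ range M, pf U M j ^ 2 := by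
      have e3 : ∀ j ∈ range M, (1 + pf U M j) ^ 2 = 1 + (2 * pf U M j + pf U M j ^ 2) := by
        intro j _
        ring
      rw [sum_congr rfl e3, sum_add_distrib, sum_add_distrib, ← mul_sum]
      simp only [sum_const, card_range, nsmul_eq_mul, mul_one]
      ring
    have h4 : ∑ j ∈ range M, pf U M j ≤ ∑ j ∈ range M, |pf U M j| :=
      sum_le_sum fun j _ => le_abs_self _
    rw [e2]
    nlinarith
  obtain ⟨p, hp, hp2⟩ := hCel M M N (fun j => 1 + pf U M j) (U : ℝ) hM hMN h0 c1 c2 c3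
  refine ⟨p, hp, ?_⟩
  rw [hsum] at hp2
  linarith

end Lowx

open Lowx in
theorem thm_Low (hPrf : St_Prf) (hRsm : St_Rsm) (hRlg : St_Rlg) (hCel : St_Cel) : St_Low := by
  refine ⟨30000, fun N => ?_⟩
  set M := Nat.sqrt N with hMd
  set K := Nat.sqrt (2 * M) with hKd
  -- the real number `x = N ^ (1/4)`
  set x : ℝ := (N : ℝ) ^ (1 / 4 : ℝ) with hx
  have hN0 : (0 : ℝ) ≤ N := Nat.cast_nonneg N
  have hx0 : 0 ≤ x := Real.rpow_nonneg hN0 _
  have hx2 : √(N : ℝ) = x ^ 2 := by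
    rw [hx, ← Real.rpow_natCast, ← Real.rpow_mul hN0, Real.sqrt_eq_rpow]
    norm_num
  have hM1 : x ^ 2 ≤ (M : ℝ) + 1 := by
    rw [← hx2]
    refine Real.sqrt_le_iff.2 ⟨by positivity, ?_⟩
    have h := (Nat.lt_succ_sqrt N).le
    have h' : (N : ℝ) ≤ ((M : ℝ) + 1) * ((M : ℝ) + 1) := by exact_mod_cast h
    nlinarith
  have hK1 : 2 * (M : ℝ) ≤ ((K : ℝ) + 1) ^ 2 := by
    have h := (Nat.lt_succ_sqrt (2 * M)).le
    have h' : ((2 * M : ℕ) : ℝ) ≤ ((K : ℝ) + 1) * ((K : ℝ) + 1) := by exact_mod_cast h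
    push_cast at h'
    nlinarith
  have hK2 : K * K ≤ 2 * M := Nat.sqrt_le _
  have hMN : M * M ≤ N := Nat.sqrt_le _
  have hs2 : √(2 : ℝ) ^ 2 = 2 := Real.sq_sqrt (by norm_num)
  have hs0 : (0 : ℝ) ≤ √2 := Real.sqrt_nonneg 2
  have hs1 : (1.4 : ℝ) ≤ √2 := by
    exact Real.le_sqrt_of_sq_le (by norm_num)
  have hs3 : √(2 : ℝ) ≤ 1.5 := by
    rw [Real.sqrt_le_iff]
    norm_num
  have hK0 : (0 : ℝ) ≤ K := Nat.cast_nonneg K
  -- `√2 x - 2 ≤ K + 1`
  have hxK : √2 * x - 2 ≤ (K : ℝ) + 1 := by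
    by_cases hc : √2 * x ≤ 2
    · linarith
    · push Not at hc
      have h1 : (√2 * x - 2) ^ 2 ≤ ((K : ℝ) + 1) ^ 2 := by
        have h2 : (√2 * x) ^ 2 = 2 * x ^ 2 := by
          rw [mul_pow, hs2]
        nlinarith
      exact (abs_le_of_sq_le_sq' h1 (by linarith)).2
  by_cases hbig : 201 ≤ K
  · have hU : 176 ≤ K - 25 := by omega
    have hKK : (K - 25) ^ 2 + 50 * (K - 25) ≤ 2 * M := by
      obtain ⟨c, hc⟩ := Nat.exists_eq_add_of_le (show 25 ≤ K by omega)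
      have h1 : K - 25 = c := by omega
      rw [h1]
      rw [hc] at hK2
      nlinarith
    have hMpos : 1 ≤ M := by
      rcases Nat.eq_zero_or_pos M with h | h
      · exfalso
        rw [h] at hK2
        nlinarith
      · exact h
    obtain ⟨p, hp, hp2⟩ := main hPrf hRsm hRlg hCel N M (K - 25) hMpos hMN
      (good_of M (K - 25) hU hKK)
    refine ⟨p, hp, ?_⟩
    have hcast : ((K - 25 : ℕ) : ℝ) = (K : ℝ) - 25 := by
      rw [Nat.cast_sub (by omega)]
      norm_num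
    rw [hcast] at hp2
    rw [hx2]
    have h5 : 2 * √2 / 3 * x = 2 / 3 * (√2 * x) := by ring
    rw [h5]
    linarith
  · obtain ⟨hp, hp2⟩ := empty_avg N
    refine ⟨_, hp, le_trans ?_ hp2⟩
    have hK200 : (K : ℝ) ≤ 200 := by
      have : K ≤ 200 := by omega
      exact_mod_cast this
    have h6 : √2 * x ≤ 203 := by linarith
    have h7 : x ≤ 145 := by nlinarith
    rw [hx2]
    have h5 : 2 * √2 / 3 * x = 2 / 3 * (√2 * x) := by ring
    rw [h5]
    nlinarith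

end Pool.Agent.SAV
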