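import Pool.Agent.SAV.St

/-!
# Point masses (H)
-/

set_option autoImplicit false

open Finset

namespace Pool.Agent.SAV

namespace Pntx

lemma sum_point (N : ℕ) (A : Finset ℕ) (hA : A ⊆ Icc 1 N) (f : Finset ℕ → ℝ) :
    ∑ B ∈ (Icc 1 N).powerset, (if B = A then (1 : ℝ) else 0) * f B = f A := by
  rw [Finset.sum_eq_single_of_mem A (Finset.mem_powerset.2 hA), if_pos rfl, one_mul]
  intro B _ hB
  rw [if_neg hB, zero_mul]

lemma sum_le_one (A : Finset ℕ) (s : ℕ)
    (h : ∀ a ∈ A, ∀ b ∈ A, ∀ c ∈ A, ∀ d ∈ A, a + b = c + d → (a = c ∧ b = d) ∨ (a = d ∧ b = c)) :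
    sumCount A s ≤ 1 := by
  unfold sumCount
  rw [Finset.card_le_one]
  rintro ⟨a, b⟩ hab ⟨c, d⟩ hcd
  simp only [Finset.mem_filter, Finset.mem_product] at hab hcd
  have h1 := h a hab.1.1 b hab.1.2 c hcd.1.1 d hcd.1.2 (by omega)
  rw [Prod.mk.injEq]
  omega

lemma diff_le_one (A : Finset ℕ) (d : ℕ) (hd : 1 ≤ d)
    (h : ∀ a ∈ A, ∀ b ∈ A, ∀ c ∈ A, ∀ d ∈ A, a + b = c + d → (a = c ∧ b = d) ∨ (a = d ∧ b = c)) :
    diffCount A d ≤ 1 := by
  unfold diffCount
  rw [Finset.card_le_one]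
  intro a ha b hb
  rw [Finset.mem_filter] at ha hb
  have h1 := h a ha.1 (b + d) hb.2 b hb.1 (a + d) ha.2 (by omega)
  omega

lemma sidon_of_sum (A : Finset ℕ) (h : ∀ s, sumCount A s ≤ 1) :
    ∀ a ∈ A, ∀ b ∈ A, ∀ c ∈ A, ∀ d ∈ A, a + b = c + d → (a = c ∧ b = d) ∨ (a = d ∧ b = c) := by
  intro a ha b hb c hc d hd habcd
  have h1 := h (a + b)
  unfold sumCount at h1
  rw [Finset.card_le_one] at h1
  have h2 : ∀ x ∈ A, ∀ y ∈ A, x + y = a + b →
      (min x y, max x y) ∈ (A ×ˢ A).filter fun x => x.1 ≤ x.2 ∧ x.1 + x.2 = a + b := by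
    intro x hx y hy hxy
    simp only [Finset.mem_filter, Finset.mem_product]
    rcases le_total x y with h | h
    · rw [min_eq_left h, max_eq_right h]
      exact ⟨⟨hx, hy⟩, h, hxy⟩
    · rw [min_eq_right h, max_eq_left h]
      exact ⟨⟨hy, hx⟩, h, by omega⟩
  have h3 := h1 _ (h2 a ha b hb rfl) _ (h2 c hc d hd habcd.symm)
  rw [Prod.mk.injEq] at h3
  omega

end Pntx

open Pntx in
theorem thm_Pnt : St_Pnt := by
  intro N A hA
  constructor
  · intro h
    apply sidon_of_sum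
    intro s
    have h1 := h.sum s
    rw [sum_point N A hA (fun B => (sumCount B s : ℝ))] at h1
    exact_mod_cast h1
  · intro h
    refine ⟨?_, ?_, ?_, ?_⟩
    · intro B _
      split_ifs
      · exact zero_le_one
      · exact le_rfl
    · have h1 := sum_point N A hA (fun _ => 1)
      simpa only [mul_one] using h1
    · intro d hd
      rw [sum_point N A hA (fun B => (diffCount B d : ℝ))]
      exact_mod_cast diff_le_one A d hd h
    · intro s
      rw [sum_point N A hA (fun B => (sumCount B s : ℝ))]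
      exact_mod_cast sum_le_one A s h

end Pool.Agent.SAV
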