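import Pool.Agent.SAV.St

/-!
# The profile (C0)-(C4)
-/

set_option autoImplicit false

open Finset

namespace Pool.Agent.SAV

namespace Prfx

lemma dev_zero (U : ℕ) : dev U 0 = ((U : ℝ) - 1) / 2 := by
  unfold dev
  rw [Nat.cast_zero, Helper63.Sidon.ren_zero]
  ring

lemma dev_abs_one (hDec : St_Dec) (U : ℕ) (hU : 1 ≤ U) (n : ℕ) (hn : 1 ≤ n) :
    |dev U n| ≤ 1 :=
  ((hDec U hU n hn).1).trans (pow_le_one₀ (by norm_num) (by norm_num))

lemma sum_abs (hDcs : St_Dcs) (U : ℕ) (hU : 1 ≤ U) (T : ℕ) :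
    ∑ n ∈ Ico 1 T, |dev U n| ≤ 2 * U := by
  have h := hDcs U hU 1 T le_rfl
  simpa using h

lemma sum_abs_range (hDcs : St_Dcs) (U : ℕ) (hU : 1 ≤ U) (J : ℕ) :
    ∑ j ∈ range J, |dev U j| ≤ ((U : ℝ) - 1) / 2 + 2 * U := by
  have hU' : (1 : ℝ) ≤ U := by exact_mod_cast hU
  rcases Nat.eq_zero_or_pos J with hJ | hJ
  · subst hJ
    simp only [Finset.range_zero, Finset.sum_empty]
    linarith
  · rw [Finset.range_eq_Ico, Finset.sum_eq_sum_Ico_succ_bot hJ, dev_zero, abs_of_nonneg (by linarith)]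
    have := sum_abs hDcs U hU J
    simp only [Nat.zero_add]
    linarith

lemma sum_reflect (J : ℕ) (f : ℕ → ℝ) :
    ∑ j ∈ range J, f (J - 1 - j) = ∑ j ∈ range J, f j :=
  Finset.sum_range_reflect f J

end Prfx

open Prfx in
theorem thm_Prf (hDec : St_Dec) (hDcs : St_Dcs) (hGam : St_Gam) : St_Prf := by
  intro U J hG
  have hU1 : 1 ≤ U := by have := hG.hU; omega
  have hU' : (100 : ℝ) ≤ U := by exact_mod_cast hG.hU
  have hJ2 : 2 ≤ J := by
    have h1 := hG.hJ
    have h2 := hG.hU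
    nlinarith
  have h0 := dev_zero U
  have hlow : ∀ n, -(1 / 2) ≤ dev U n := by
    intro n
    rcases Nat.eq_zero_or_pos n with hn | hn
    · subst hn
      rw [h0]
      linarith
    · exact (hDec U hU1 n hn).2
  have hupp : ∀ n, dev U n ≤ ((U : ℝ) - 1) / 2 := by
    intro n
    rcases Nat.eq_zero_or_pos n with hn | hn
    · subst hn
      rw [h0]
    · have h := (le_abs_self _).trans (dev_abs_one hDec U hU1 n hn)
      linarith
  refine ⟨?_, ?_, ?_, ?_⟩
  · intro j _
    unfold pf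
    have h1 := hlow j
    have h2 := hlow (J - 1 - j)
    have h3 := hupp j
    have h4 := hupp (J - 1 - j)
    constructor <;> linarith
  · have h1 : ∑ j ∈ range J, |pf U J j|
        ≤ ∑ j ∈ range J, (|dev U j| + |dev U (J - 1 - j)|) :=
      Finset.sum_le_sum fun j _ => abs_add_le _ _
    rw [Finset.sum_add_distrib, sum_reflect J (fun j => |dev U j|)] at h1
    have h2 := sum_abs_range hDcs U hU1 J
    linarith
  · obtain ⟨L, rfl⟩ : ∃ L, J = L + 2 := ⟨J - 2, by omega⟩
    rw [Finset.sum_range_succ, Finset.sum_range_succ']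
    have e1 : pf U (L + 2) 0 = dev U 0 + dev U (L + 1) := by
      unfold pf
      congr 2
    have e2 : pf U (L + 2) (L + 1) = dev U (L + 1) + dev U 0 := by
      unfold pf
      congr 2
      omega
    have h1 : ∀ j ∈ range L, pf U (L + 2) (j + 1) ^ 2
        ≤ 2 * |dev U (j + 1)| + 2 * |dev U (L - j)| := by
      intro j hj
      rw [Finset.mem_range] at hj
      have e3 : pf U (L + 2) (j + 1) = dev U (j + 1) + dev U (L - j) := by
        unfold pf
        congr 2
        omega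
      rw [e3]
      have h2 := dev_abs_one hDec U hU1 (j + 1) (by omega)
      have h3 := dev_abs_one hDec U hU1 (L - j) (by omega)
      have h4 : dev U (j + 1) ^ 2 ≤ |dev U (j + 1)| := by
        rw [← sq_abs]
        nlinarith [abs_nonneg (dev U (j + 1))]
      have h5 : dev U (L - j) ^ 2 ≤ |dev U (L - j)| := by
        rw [← sq_abs]
        nlinarith [abs_nonneg (dev U (L - j))]
      nlinarith [sq_nonneg (dev U (j + 1) - dev U (L - j))]
    have h2 := Finset.sum_le_sum h1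
    rw [Finset.sum_add_distrib, ← Finset.mul_sum, ← Finset.mul_sum] at h2
    have h3 : ∑ j ∈ range L, |dev U (j + 1)| ≤ 2 * U := by
      have h4 := sum_abs hDcs U hU1 (L + 1)
      have h5 : ∑ j ∈ range L, |dev U (j + 1)| = ∑ n ∈ Ico 1 (L + 1), |dev U n| := by
        rw [Finset.range_eq_Ico, Finset.sum_Ico_add' (fun n => |dev U n|) 0 L 1]
      rw [h5]
      exact h4
    have h4 : ∑ j ∈ range L, |dev U (L - j)| = ∑ j ∈ range L, |dev U (j + 1)| := by
      rw [← Finset.sum_range_reflect (fun j => |dev U (j + 1)|) L]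
      refine Finset.sum_congr rfl fun j hj => ?_
      rw [Finset.mem_range] at hj
      have e4 : L - 1 - j + 1 = L - j := by omega
      rw [e4]
    rw [h4] at h2
    have h5 := dev_abs_one hDec U hU1 (L + 1) (by omega)
    rw [abs_le] at h5
    rw [e1, e2, h0]
    have h6 : (((U : ℝ) - 1) / 2 + dev U (L + 1)) ^ 2 ≤ (((U : ℝ) + 1) / 2) ^ 2 := by
      apply pow_le_pow_left₀ <;> linarith
    have h7 : (dev U (L + 1) + ((U : ℝ) - 1) / 2) ^ 2 ≤ (((U : ℝ) + 1) / 2) ^ 2 := by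
      apply pow_le_pow_left₀ <;> linarith
    nlinarith
  · have h1 : ∑ j ∈ range J, pf U J j = 2 * ∑ j ∈ range J, dev U j := by
      unfold pf
      rw [Finset.sum_add_distrib, sum_reflect J (fun j => dev U j)]
      ring
    have h2 := hGam U hU1 J (by omega)
    have h3 : (1 / 2 : ℝ) ^ ((J - 1) / U) ≤ (1 / 2 : ℝ) ^ ((J / 8 - 2) / U) := by
      apply pow_le_pow_of_le_one (by norm_num) (by norm_num)
      apply Nat.div_le_div_right
      omega
    have h4 : (21 * (U : ℝ)) ≤ 2 ^ ((J / 8 - 2) / U) := by exact_mod_cast hG.hE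
    have h5 : (1 / 2 : ℝ) ^ ((J / 8 - 2) / U) * 2 ^ ((J / 8 - 2) / U) = 1 := by
      rw [← mul_pow]
      norm_num
    have h6 : (1 / 2 : ℝ) ^ ((J / 8 - 2) / U) * (21 * (U : ℝ)) ≤ 1 := by
      calc (1 / 2 : ℝ) ^ ((J / 8 - 2) / U) * (21 * (U : ℝ))
          ≤ (1 / 2 : ℝ) ^ ((J / 8 - 2) / U) * 2 ^ ((J / 8 - 2) / U) :=
            mul_le_mul_of_nonneg_left h4 (by positivity)
        _ = 1 := h5
    have h7 : 2 * (U : ℝ) * (1 / 2 : ℝ) ^ ((J - 1) / U)
        ≤ 2 * U * (1 / 2 : ℝ) ^ ((J / 8 - 2) / U) := mul_le_mul_of_nonneg_left h3 (by positivity)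
    have h8 := (abs_le.1 h2).1
    rw [h1]
    nlinarith

end Pool.Agent.SAV
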