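import Pool.Agent.SAV.St

/-!
# The correlation sums for large shifts (C5)
-/

set_option autoImplicit false

open Finset

namespace Pool.Agent.SAV

namespace Rlgx

lemma dev_zero (U : ℕ) : dev U 0 = ((U : ℝ) - 1) / 2 := by
  unfold dev
  rw [Nat.cast_zero, Helper63.Sidon.ren_zero]
  ring

lemma dev_abs_one (hDec : St_Dec) (U : ℕ) (hU : 1 ≤ U) (n : ℕ) (hn : 1 ≤ n) :
    |dev U n| ≤ 1 :=
  ((hDec U hU n hn).1).trans (pow_le_one₀ (by norm_num) (by norm_num))

lemma sum_abs (hDcs : St_Dcs) (U : ℕ) (hU : 1 ≤ U) (T : ℕ) :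
    ∑ n ∈ Ico 1 T, |dev U n| ≤ 2 * U := by
  have h := hDcs U hU 1 T le_rfl
  simpa using h

end Rlgx

open Rlgx in
theorem thm_Rlg (hDec : St_Dec) (hDcs : St_Dcs) (_hPrf : St_Prf) : St_Rlg := by
  intro U J hG e he1 heJ hT
  have hU1 : 1 ≤ U := by have := hG.hU; omega
  have hU' : (100 : ℝ) ≤ U := by exact_mod_cast hG.hU
  have h0 := dev_zero U
  obtain ⟨T, hTdef⟩ : ∃ T, T = J - e := ⟨_, rfl⟩
  rw [← hTdef] at hT ⊢
  have hT1 : 1 ≤ T := by omega
  -- the mirror
  have hmir : ∀ j ∈ range T, pf U J (j + e) = pf U J (T - 1 - j) := by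
    intro j hj
    rw [Finset.mem_range] at hj
    unfold pf
    have e1 : J - 1 - (j + e) = T - 1 - j := by omega
    have e2 : J - 1 - (T - 1 - j) = j + e := by omega
    rw [e1, e2, add_comm]
  have h1 : ∑ j ∈ range T, (1 + pf U J j) * (1 + pf U J (j + e))
      ≤ ∑ j ∈ range T, (1 + pf U J j) ^ 2 := by
    have h2 : ∑ j ∈ range T, (1 + pf U J j) * (1 + pf U J (j + e))
        ≤ ∑ j ∈ range T, ((1 + pf U J j) ^ 2 / 2 + (1 + pf U J (T - 1 - j)) ^ 2 / 2) := by
      refine Finset.sum_le_sum fun j hj => ?_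
      rw [hmir j hj]
      nlinarith [sq_nonneg (pf U J j - pf U J (T - 1 - j))]
    rw [Finset.sum_add_distrib,
      Finset.sum_range_reflect (fun j => (1 + pf U J j) ^ 2 / 2) T, ← Finset.sum_add_distrib] at h2
    refine h2.trans (le_of_eq (Finset.sum_congr rfl fun j _ => ?_))
    ring
  refine h1.trans ?_
  obtain ⟨L, rfl⟩ : ∃ L, T = L + 1 := ⟨T - 1, by omega⟩
  rw [Finset.sum_range_succ']
  -- the first cell
  have hJ1 := dev_abs_one hDec U hU1 (J - 1 - 0) (by omega)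
  have h2 : (1 + pf U J 0) ^ 2 ≤ (((U : ℝ) + 3) / 2) ^ 2 := by
    unfold pf
    rw [h0]
    rw [abs_le] at hJ1
    apply pow_le_pow_left₀ <;> linarith
  -- the other cells
  have h3 : ∀ j ∈ range L, (1 + pf U J (j + 1)) ^ 2
      ≤ 1 + (4 * |dev U (j + 1)| + 4 * |dev U (J - 1 - (j + 1))|) := by
    intro j hj
    rw [Finset.mem_range] at hj
    have h4 := dev_abs_one hDec U hU1 (j + 1) (by omega)
    have h5 := dev_abs_one hDec U hU1 (J - 1 - (j + 1)) (by omega)
    unfold pf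
    set x := dev U (j + 1)
    set y := dev U (J - 1 - (j + 1))
    have h6 : x ^ 2 ≤ |x| := by
      rw [← sq_abs]
      nlinarith [abs_nonneg x]
    have h7 : y ^ 2 ≤ |y| := by
      rw [← sq_abs]
      nlinarith [abs_nonneg y]
    have h8 := le_abs_self x
    have h9 := le_abs_self y
    nlinarith [sq_nonneg (x - y)]
  have h4 := Finset.sum_le_sum h3
  rw [Finset.sum_add_distrib, Finset.sum_add_distrib, ← Finset.mul_sum, ← Finset.mul_sum,
    Finset.sum_const, Finset.card_range, nsmul_eq_mul, mul_one] at h4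
  have h5 : ∑ j ∈ range L, |dev U (j + 1)| ≤ 2 * U := by
    have h6 := sum_abs hDcs U hU1 (L + 1)
    have h7 : ∑ j ∈ range L, |dev U (j + 1)| = ∑ n ∈ Ico 1 (L + 1), |dev U n| := by
      rw [Finset.range_eq_Ico, Finset.sum_Ico_add' (fun n => |dev U n|) 0 L 1]
    rw [h7]
    exact h6
  have h6 : ∑ j ∈ range L, |dev U (J - 1 - (j + 1))| ≤ 2 * U := by
    have h7 : ∑ j ∈ range L, |dev U (J - 1 - (j + 1))|
        = ∑ n ∈ (range L).image (fun j => J - 1 - (j + 1)), |dev U n| := by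
      rw [Finset.sum_image]
      intro a ha b hb hab
      simp only [Finset.coe_range, Set.mem_Iio] at ha hb
      have hab' : J - 1 - (a + 1) = J - 1 - (b + 1) := hab
      omega
    rw [h7]
    refine le_trans (Finset.sum_le_sum_of_subset_of_nonneg ?_ fun _ _ _ => abs_nonneg _)
      (sum_abs hDcs U hU1 J)
    intro n hn
    rw [Finset.mem_image] at hn
    obtain ⟨j, hj, rfl⟩ := hn
    rw [Finset.mem_range] at hj
    rw [Finset.mem_Ico]
    omega
  have h7 : 4 * ((L : ℝ) + 1) < J := by exact_mod_cast hT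
  have h8 : (U : ℝ) ^ 2 + 50 * U ≤ 2 * J := by exact_mod_cast hG.hJ
  nlinarith

end Pool.Agent.SAV
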