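import Pool.Agent.SAV.St

/-!
# The correlation sums `R_e` of the profile, `J - e ≥ J/4`
-/

set_option autoImplicit false

open Finset

namespace Pool.Agent.SAV

namespace Rsmx

theorem mul_le_of_small {x y ε : ℝ} (h : |x| ≤ ε ∨ |y| ≤ ε) : x * y ≤ ε * (|x| + |y|) := by
  have h1 : x * y ≤ |x| * |y| := by
    rw [← abs_mul]
    exact le_abs_self _
  have hx := abs_nonneg x
  have hy := abs_nonneg y
  rcases h with h | h
  · nlinarith
  · nlinarith

theorem sum_expand (a : ℕ → ℝ) (T e : ℕ) :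
    ∑ j ∈ range T, (1 + (a j + a (T + e - 1 - j))) *
        (1 + (a (j + e) + a (T + e - 1 - (j + e))))
      = (T : ℝ) + 2 * ∑ j ∈ range T, (a j + a (j + e) + a j * a (j + e))
        + ∑ j ∈ range T, a j * a (T - 1 - j)
        + ∑ j ∈ range T, a (T + e - 1 - j) * a (j + e) := by
  have h1 : ∑ j ∈ range T, (a (T - 1 - j) + a (T - 1 - j + e) + a (T - 1 - j) * a (T - 1 - j + e))
      = ∑ j ∈ range T, (a j + a (j + e) + a j * a (j + e)) :=
    sum_range_reflect (fun j => a j + a (j + e) + a j * a (j + e)) T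
  have h2 : (T : ℝ) = ∑ j ∈ range T, (1 : ℝ) := by simp
  rw [two_mul]
  nth_rewrite 2 [← h1]
  rw [h2, ← sum_add_distrib, ← sum_add_distrib, ← sum_add_distrib, ← sum_add_distrib]
  refine sum_congr rfl fun j hj => ?_
  have hj' := mem_range.1 hj
  have e1 : T + e - 1 - j = T - 1 - j + e := by omega
  have e2 : T + e - 1 - (j + e) = T - 1 - j := by omega
  rw [e1, e2]
  ring

theorem bound (a : ℕ → ℝ) (U J T e : ℕ) (ε : ℝ) (hJT : J = T + e) (he : 1 ≤ e)
    (hT : J ≤ 4 * T) (hJ : 100 ≤ J) (hε : 0 ≤ ε)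
    (h0 : |a 0| ≤ (U : ℝ) / 2)
    (hsm : ∀ n, 1 ≤ n → J / 8 - 2 ≤ n - 1 → |a n| ≤ ε)
    (hsum : ∀ T T', 1 ≤ T → ∑ n ∈ Ico T T', |a n| ≤ 2 * U)
    (hcor : ∑ j ∈ range T, (a j + a (j + e) + a j * a (j + e)) ≤ ((e : ℝ) - 1) / 2 + 6 * U * ε)
    (hfin : 21 * U * ε ≤ 1) :
    ∑ j ∈ range T, (1 + (a j + a (J - 1 - j))) * (1 + (a (j + e) + a (J - 1 - (j + e)))) ≤ J := by
  subst hJT
  rw [sum_expand]
  have hX : ∑ j ∈ range T, a j * a (T - 1 - j) ≤ 5 * U * ε := by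
    have h1 : ∑ j ∈ range T, a j * a (T - 1 - j)
        ≤ ∑ j ∈ range T, ε * (|a j| + |a (T - 1 - j)|) := by
      refine sum_le_sum fun j hj => mul_le_of_small ?_
      have hj' := mem_range.1 hj
      by_cases hc : 1 ≤ j ∧ (T + e) / 8 - 2 ≤ j - 1
      · exact Or.inl (hsm j hc.1 hc.2)
      · right
        refine hsm _ ?_ ?_ <;> omega
    have h2 : ∑ j ∈ range T, |a (T - 1 - j)| = ∑ j ∈ range T, |a j| :=
      sum_range_reflect (fun j => |a j|) T
    have h3 : ∑ j ∈ range T, |a j| ≤ (U : ℝ) / 2 + 2 * U := by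
      have h4 : ∑ j ∈ range T, |a j| = |a 0| + ∑ n ∈ Ico 1 T, |a n| := by
        rw [range_eq_Ico, Finset.sum_eq_sum_Ico_succ_bot (by omega)]
      rw [h4]
      exact add_le_add h0 (hsum 1 T le_rfl)
    rw [← mul_sum, sum_add_distrib, h2] at h1
    nlinarith
  have hY : ∑ j ∈ range T, a (T + e - 1 - j) * a (j + e) ≤ 4 * U * ε := by
    have h1 : ∑ j ∈ range T, a (T + e - 1 - j) * a (j + e)
        ≤ ∑ j ∈ range T, ε * (|a (T + e - 1 - j)| + |a (j + e)|) := by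
      refine sum_le_sum fun j hj => mul_le_of_small ?_
      have hj' := mem_range.1 hj
      by_cases hc : 1 ≤ j + e ∧ (T + e) / 8 - 2 ≤ j + e - 1
      · exact Or.inr (hsm _ hc.1 hc.2)
      · left
        refine hsm _ ?_ ?_ <;> omega
    have h2 : ∑ j ∈ range T, |a (T + e - 1 - j)| = ∑ j ∈ range T, |a (j + e)| := by
      rw [← sum_range_reflect (fun j => |a (j + e)|) T]
      refine sum_congr rfl fun j hj => ?_
      have hj' := mem_range.1 hj
      have e1 : T + e - 1 - j = T - 1 - j + e := by omega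
      rw [e1]
    have h3 : ∑ j ∈ range T, |a (j + e)| ≤ 2 * U := by
      have h4 : ∑ j ∈ range T, |a (j + e)| = ∑ n ∈ Ico e (T + e), |a n| := by
        rw [Finset.sum_Ico_eq_sum_range]
        have e1 : T + e - e = T := by omega
        rw [e1]
        exact sum_congr rfl fun j _ => by rw [add_comm]
      rw [h4]
      exact hsum e _ he
    rw [← mul_sum, sum_add_distrib, h2] at h1
    nlinarith
  push_cast
  linarith

end Rsmx

theorem thm_Rsm (hDec : St_Dec) (hDcs : St_Dcs) (hCor : St_Cor) : St_Rsm := by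
  intro U J hG e he heJ hJe
  have hU := hG.hU
  have hJ := hG.hJ
  have hE := hG.hE
  have hU1 : 1 ≤ U := by omega
  have hUp : (1 : ℝ) ≤ U := by exact_mod_cast hU1
  have hJ100 : 100 ≤ J := by nlinarith
  refine Rsmx.bound (dev U) U J (J - e) e ((1 / 2 : ℝ) ^ ((J / 8 - 2) / U)) (by omega) he hJe
    hJ100 (by positivity) ?_ ?_ ?_ ?_ ?_
  · have h1 : dev U 0 = ((U : ℝ) + 1) / 2 - 1 := by
      unfold dev
      rw [Nat.cast_zero, Helper63.Sidon.ren_zero, mul_one]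
    rw [h1, abs_le]
    constructor <;> linarith
  · intro n hn hJn
    refine (hDec U hU1 n hn).1.trans ?_
    exact pow_le_pow_of_le_one (by norm_num) (by norm_num) (Nat.div_le_div_right hJn)
  · intro T T' hT
    refine (hDcs U hU1 T T' hT).trans ?_
    have h1 : (1 / 2 : ℝ) ^ ((T - 1) / U) ≤ 1 := pow_le_one₀ (by norm_num) (by norm_num)
    have h2 : (0 : ℝ) ≤ 2 * U := by positivity
    nlinarith
  · refine (hCor U hU1 e he (J - e) (by omega)).trans ?_
    have h1 : (1 / 2 : ℝ) ^ ((J - e - 1) / U) ≤ (1 / 2 : ℝ) ^ ((J / 8 - 2) / U) :=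
      pow_le_pow_of_le_one (by norm_num) (by norm_num) (Nat.div_le_div_right (by omega))
    have h2 : (0 : ℝ) ≤ 6 * U := by positivity
    nlinarith
  · have h1 : ((21 * U : ℕ) : ℝ) ≤ ((2 ^ ((J / 8 - 2) / U) : ℕ) : ℝ) := by exact_mod_cast hE
    push_cast at h1
    have h2 : (0 : ℝ) ≤ (1 / 2 : ℝ) ^ ((J / 8 - 2) / U) := by positivity
    have h3 : (2 : ℝ) ^ ((J / 8 - 2) / U) * (1 / 2 : ℝ) ^ ((J / 8 - 2) / U) = 1 := by
      rw [← mul_pow]
      norm_num
    calc 21 * (U : ℝ) * (1 / 2 : ℝ) ^ ((J / 8 - 2) / U)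
        ≤ (2 : ℝ) ^ ((J / 8 - 2) / U) * (1 / 2 : ℝ) ^ ((J / 8 - 2) / U) :=
          mul_le_mul_of_nonneg_right h1 h2
      _ = 1 := h3

end Pool.Agent.SAV
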