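import Pool.Agent.SAV.St

/-!
# The upper bound for sets that are Sidon on average

The energy inequality is averaged over the random subset: the mean of the smoothed energies is at
most `k * F 0 + P ^ 2`, because every nonzero difference occurs at most once on average.
-/

set_option autoImplicit false

open Finset

namespace Pool.Agent.SAV.Uppx

open Pool.Agent.Helper63.Sidon

/-- The number of pairs of distinct elements with a given difference. -/
lemma fib_card (A : Finset ℕ) (d : ℤ) (hd : d ≠ 0) :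
    (A.offDiag.filter fun x => ((x.2 : ℕ) : ℤ) - x.1 = d).card = diffCount A d.natAbs := by
  classical
  unfold diffCount
  rcases lt_or_gt_of_ne hd with h | h
  · refine Finset.card_bij' (fun x _ => x.2) (fun a _ => (a + d.natAbs, a)) ?_ ?_ ?_ ?_
    · intro x hx
      simp only [Finset.mem_filter, Finset.mem_offDiag] at hx ⊢
      have e : x.2 + d.natAbs = x.1 := by omega
      rw [e]
      exact ⟨hx.1.2.1, hx.1.1⟩
    · intro a ha
      simp only [Finset.mem_filter, Finset.mem_offDiag] at ha ⊢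
      refine ⟨⟨ha.2, ha.1, by omega⟩, by omega⟩
    · intro x hx
      simp only [Finset.mem_filter, Finset.mem_offDiag] at hx
      have e : x.2 + d.natAbs = x.1 := by omega
      simp [e]
    · intro a ha
      rfl
  · refine Finset.card_bij' (fun x _ => x.1) (fun a _ => (a, a + d.natAbs)) ?_ ?_ ?_ ?_
    · intro x hx
      simp only [Finset.mem_filter, Finset.mem_offDiag] at hx ⊢
      have e : x.1 + d.natAbs = x.2 := by omega
      rw [e]
      exact ⟨hx.1.1, hx.1.2.1⟩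
    · intro a ha
      simp only [Finset.mem_filter, Finset.mem_offDiag] at ha ⊢
      refine ⟨⟨ha.1, ha.2, by omega⟩, by omega⟩
    · intro x hx
      simp only [Finset.mem_filter, Finset.mem_offDiag] at hx
      have e : x.1 + d.natAbs = x.2 := by omega
      simp [e]
    · intro a ha
      rfl

/-- Sums over ordered pairs of distinct elements, grouped by the difference. -/
lemma grp (N : ℕ) (A : Finset ℕ) (hA : A ⊆ Icc 1 N) (G : ℤ → ℝ) :
    ∑ x ∈ A.offDiag, G ((x.2 : ℤ) - x.1)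
      = ∑ d ∈ (Ioo (-(N : ℤ)) N).erase 0, G d * (diffCount A d.natAbs : ℝ) := by
  classical
  rw [← Finset.sum_fiberwise_of_maps_to (s := A.offDiag) (t := (Ioo (-(N : ℤ)) N).erase 0)
    (g := fun x => ((x.2 : ℕ) : ℤ) - x.1)]
  · refine Finset.sum_congr rfl fun d hd => ?_
    have hd0 : d ≠ 0 := (Finset.mem_erase.1 hd).1
    rw [← fib_card A d hd0]
    rw [Finset.sum_congr rfl (g := fun _ => G d)]
    · rw [Finset.sum_const, nsmul_eq_mul]
      ring
    · intro x hx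
      rw [(Finset.mem_filter.1 hx).2]
  · intro x hx
    rw [Finset.mem_offDiag] at hx
    have h1 := Finset.mem_Icc.1 (hA hx.1)
    have h2 := Finset.mem_Icc.1 (hA hx.2.1)
    simp only [Finset.mem_erase, Finset.mem_Ioo]
    omega

/-- The averaged form: each difference occurs on average at most once. -/
lemma avg (N : ℕ) (p : Finset ℕ → ℝ) (hp : IsSidonOnAverage N p) (G : ℤ → ℝ)
    (hG : ∀ d, 0 ≤ G d) :
    ∑ A ∈ (Icc 1 N).powerset, p A * ∑ x ∈ A.offDiag, G ((x.2 : ℤ) - x.1)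
      ≤ ∑ d ∈ (Ioo (-(N : ℤ)) N).erase 0, G d := by
  have h1 : ∑ A ∈ (Icc 1 N).powerset, p A * ∑ x ∈ A.offDiag, G ((x.2 : ℤ) - x.1)
      = ∑ d ∈ (Ioo (-(N : ℤ)) N).erase 0,
          G d * ∑ A ∈ (Icc 1 N).powerset, p A * (diffCount A d.natAbs : ℝ) := by
    simp only [Finset.mul_sum]
    rw [Finset.sum_comm]
    refine Finset.sum_congr rfl fun A hA => ?_
    rw [← Finset.mul_sum, grp N A (Finset.mem_powerset.1 hA) G, Finset.mul_sum]
    refine Finset.sum_congr rfl fun d _ => ?_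
    ring
  rw [h1]
  refine Finset.sum_le_sum fun d hd => ?_
  have hd0 : d ≠ 0 := (Finset.mem_erase.1 hd).1
  have h2 := hp.diff d.natAbs (by omega)
  calc G d * ∑ A ∈ (Icc 1 N).powerset, p A * (diffCount A d.natAbs : ℝ) ≤ G d * 1 :=
        mul_le_mul_of_nonneg_left h2 (hG d)
    _ = G d := mul_one _

/-- The square of the mean is at most the mean of the squares. -/
lemma mean_sq (N : ℕ) (p : Finset ℕ → ℝ) (hp : IsSidonOnAverage N p) :
    meanCard N p ^ 2 ≤ ∑ A ∈ (Icc 1 N).powerset, p A * (A.card : ℝ) ^ 2 := by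
  have h1 : 0 ≤ ∑ A ∈ (Icc 1 N).powerset, p A * ((A.card : ℝ) - meanCard N p) ^ 2 :=
    Finset.sum_nonneg fun A hA => mul_nonneg (hp.nonneg A hA) (sq_nonneg _)
  have h2 : ∑ A ∈ (Icc 1 N).powerset, p A * ((A.card : ℝ) - meanCard N p) ^ 2
      = ∑ A ∈ (Icc 1 N).powerset, p A * (A.card : ℝ) ^ 2
        - 2 * meanCard N p * ∑ A ∈ (Icc 1 N).powerset, p A * (A.card : ℝ)
        + meanCard N p ^ 2 * ∑ A ∈ (Icc 1 N).powerset, p A := by
    rw [Finset.mul_sum, Finset.mul_sum, ← Finset.sum_sub_distrib, ← Finset.sum_add_distrib]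
    refine Finset.sum_congr rfl fun A _ => ?_
    ring
  have h3 : ∑ A ∈ (Icc 1 N).powerset, p A * (A.card : ℝ) = meanCard N p := rfl
  rw [h2, hp.total, h3] at h1
  nlinarith

lemma mean_nonneg (N : ℕ) (p : Finset ℕ → ℝ) (hp : IsSidonOnAverage N p) :
    0 ≤ meanCard N p :=
  Finset.sum_nonneg fun A hA => mul_nonneg (hp.nonneg A hA) (Nat.cast_nonneg _)

/-- The counting bound. -/
lemma triv (N : ℕ) (p : Finset ℕ → ℝ) (hp : IsSidonOnAverage N p) :
    meanCard N p ^ 2 - meanCard N p ≤ 2 * N := by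
  have h1 := avg N p hp (fun _ => 1) (fun _ => zero_le_one)
  have h2 : ∑ A ∈ (Icc 1 N).powerset, p A * ∑ x ∈ A.offDiag, (1 : ℝ)
      = ∑ A ∈ (Icc 1 N).powerset, p A * (A.card : ℝ) ^ 2 - meanCard N p := by
    unfold meanCard
    rw [← Finset.sum_sub_distrib]
    refine Finset.sum_congr rfl fun A _ => ?_
    rw [Finset.sum_const, Finset.offDiag_card, nsmul_eq_mul, mul_one,
      Nat.cast_sub (Nat.le_mul_self _)]
    push_cast
    ring
  have h3 : ∑ d ∈ (Ioo (-(N : ℤ)) N).erase 0, (1 : ℝ) ≤ 2 * N := by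
    rw [Finset.sum_const, nsmul_eq_mul, mul_one]
    have h4 : ((Ioo (-(N : ℤ)) N).erase 0).card ≤ 2 * N := by
      refine (Finset.card_erase_le).trans ?_
      rw [Int.card_Ioo]
      omega
    exact_mod_cast h4
  have h5 := mean_sq N p hp
  rw [h2] at h1
  linarith

/-- The smoothed energy of one set. -/
lemma one_set (u N : ℕ) (A : Finset ℕ) (hA : A ⊆ Icc 1 N) :
    ((A.card : ℝ) * ((u : ℝ) * (u + 1) / 2 * u)) ^ 2 ≤
      ((A.card : ℝ) * ((u : ℝ) * (u + 1) * (2 * u + 1) / 6)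
        + ∑ x ∈ A.offDiag, ∑ i ∈ range u, ((u : ℝ) - i) * psi u (((x.2 : ℤ) - x.1) + i))
      * ∑ r ∈ Finset.Ioc (-(u : ℤ)) ((N : ℤ) - 1), wt u r ^ 2 := by
  classical
  rcases Nat.eq_zero_or_pos u with hu0 | hu
  · subst hu0
    simp
  set D : ℤ := (N : ℤ) - 1 with hDdef
  set B : Finset ℤ := A.image (fun a : ℕ => (a : ℤ) - 1) with hB
  have hinj : Function.Injective (fun a : ℕ => (a : ℤ) - 1) := by
    intro a b hab
    have : (a : ℤ) - 1 = (b : ℤ) - 1 := hab
    omega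
  have hBc : B.card = A.card := Finset.card_image_of_injective _ hinj
  have hBD : ∀ b ∈ B, 0 ≤ b ∧ b ≤ D := by
    intro b hb
    rw [hB, Finset.mem_image] at hb
    obtain ⟨a, ha, rfl⟩ := hb
    have := Finset.mem_Icc.1 (hA ha)
    omega
  have hcs := energy_cs u hu D B hBD
  rw [hBc] at hcs
  set F : ℤ → ℝ := fun d => ∑ i ∈ range u, ((u : ℝ) - i) * psi u (d + i) with hF
  have hFz : F 0 = (u : ℝ) * (u + 1) * (2 * u + 1) / 6 := by
    rw [← ramp_sq_sum]
    refine Finset.sum_congr rfl fun i hi => ?_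
    rw [zero_add, psi_nat u i (Finset.mem_range.1 hi)]
    ring
  have hsub : ∀ a ∈ B, Finset.Ioc (a - u) a ⊆ Finset.Ioc (-(u : ℤ)) D := by
    intro a ha x hx
    have := hBD a ha
    rw [Finset.mem_Ioc] at hx ⊢
    omega
  have h1 : ∑ r ∈ Finset.Ioc (-(u : ℤ)) D, (∑ a ∈ B, psi u (a - r)) ^ 2
      = ∑ a ∈ B, ∑ b ∈ B, F (b - a) := by
    have h2 : ∀ r ∈ Finset.Ioc (-(u : ℤ)) D, (∑ a ∈ B, psi u (a - r)) ^ 2
        = ∑ a ∈ B, ∑ b ∈ B, psi u (a - r) * psi u (b - r) := by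
      intro r _
      rw [sq, Finset.sum_mul_sum]
    rw [Finset.sum_congr rfl h2, Finset.sum_comm]
    refine Finset.sum_congr rfl fun a ha => ?_
    rw [Finset.sum_comm]
    refine Finset.sum_congr rfl fun b _ => ?_
    rw [sum_psi u (fun r => psi u (b - r)) a _ (hsub a ha)]
    refine Finset.sum_congr rfl fun i _ => ?_
    congr 2
    ring
  have h3 : ∑ a ∈ B, ∑ b ∈ B, F (b - a) = ∑ a ∈ A, ∑ b ∈ A, F ((b : ℤ) - a) := by
    rw [hB, Finset.sum_image (fun x _ y _ h => hinj h)]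
    refine Finset.sum_congr rfl fun a _ => ?_
    rw [Finset.sum_image (fun x _ y _ h => hinj h)]
    refine Finset.sum_congr rfl fun b _ => ?_
    congr 1
    ring
  have h4 : ∑ a ∈ A, ∑ b ∈ A, F ((b : ℤ) - a)
      = (A.card : ℝ) * ((u : ℝ) * (u + 1) * (2 * u + 1) / 6)
        + ∑ x ∈ A.offDiag, F ((x.2 : ℤ) - x.1) := by
    rw [← Finset.sum_product', ← Finset.diag_union_offDiag,
      Finset.sum_union (Finset.disjoint_diag_offDiag A), Finset.sum_diag]
    simp only [sub_self]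
    rw [hFz, Finset.sum_const, nsmul_eq_mul]
  rw [h1, h3, h4] at hcs
  exact hcs

/-- The averaged energy inequality. -/
lemma avg_energy (u N : ℕ) (p : Finset ℕ → ℝ) (hp : IsSidonOnAverage N p) :
    (meanCard N p * ((u : ℝ) * (u + 1) / 2 * u)) ^ 2
      ≤ (meanCard N p * ((u : ℝ) * (u + 1) * (2 * u + 1) / 6) + ((u : ℝ) * (u + 1) / 2) ^ 2)
        * ∑ r ∈ Finset.Ioc (-(u : ℤ)) ((N : ℤ) - 1), wt u r ^ 2 := by
  set P : ℝ := (u : ℝ) * (u + 1) / 2 with hP
  set F0 : ℝ := (u : ℝ) * (u + 1) * (2 * u + 1) / 6 with hF0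
  set W : ℝ := ∑ r ∈ Finset.Ioc (-(u : ℤ)) ((N : ℤ) - 1), wt u r ^ 2 with hW
  have hW0 : 0 ≤ W := Finset.sum_nonneg fun _ _ => sq_nonneg _
  set F : ℤ → ℝ := fun d => ∑ i ∈ range u, ((u : ℝ) - i) * psi u (d + i) with hF
  have hFn : ∀ d, 0 ≤ F d := by
    intro d
    refine Finset.sum_nonneg fun i hi => ?_
    have : (i : ℝ) ≤ u := by exact_mod_cast (Finset.mem_range.1 hi).le
    exact mul_nonneg (by linarith) (psi_nonneg u _)
  have h1 := mean_sq N p hp
  have h2 : (meanCard N p * (P * u)) ^ 2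
      ≤ ∑ A ∈ (Icc 1 N).powerset, p A * ((A.card : ℝ) * (P * u)) ^ 2 := by
    have e : ∑ A ∈ (Icc 1 N).powerset, p A * ((A.card : ℝ) * (P * u)) ^ 2
        = (P * u) ^ 2 * ∑ A ∈ (Icc 1 N).powerset, p A * (A.card : ℝ) ^ 2 := by
      rw [Finset.mul_sum]
      refine Finset.sum_congr rfl fun A _ => ?_
      ring
    rw [e, mul_pow, mul_comm]
    exact mul_le_mul_of_nonneg_left h1 (sq_nonneg _)
  have h3 : ∑ A ∈ (Icc 1 N).powerset, p A * ((A.card : ℝ) * (P * u)) ^ 2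
      ≤ ∑ A ∈ (Icc 1 N).powerset,
        p A * (((A.card : ℝ) * F0 + ∑ x ∈ A.offDiag, F ((x.2 : ℤ) - x.1)) * W) := by
    refine Finset.sum_le_sum fun A hA => ?_
    exact mul_le_mul_of_nonneg_left (one_set u N A (Finset.mem_powerset.1 hA)) (hp.nonneg A hA)
  have h4 : ∑ A ∈ (Icc 1 N).powerset,
        p A * (((A.card : ℝ) * F0 + ∑ x ∈ A.offDiag, F ((x.2 : ℤ) - x.1)) * W)
      = (meanCard N p * F0
        + ∑ A ∈ (Icc 1 N).powerset, p A * ∑ x ∈ A.offDiag, F ((x.2 : ℤ) - x.1)) * W := by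
    unfold meanCard
    rw [Finset.sum_mul, ← Finset.sum_add_distrib, Finset.sum_mul]
    refine Finset.sum_congr rfl fun A _ => ?_
    ring
  have h5 := avg N p hp F hFn
  have h6 : ∑ d ∈ (Ioo (-(N : ℤ)) N).erase 0, F d ≤ P ^ 2 := by
    rw [hF, Finset.sum_comm]
    have h7 : ∀ i ∈ range u, ∑ d ∈ (Ioo (-(N : ℤ)) N).erase 0,
        ((u : ℝ) - i) * psi u (d + i) ≤ ((u : ℝ) - i) * ((u : ℝ) * (u + 1) / 2) := by
      intro i hi
      rw [← Finset.mul_sum]
      have : (i : ℝ) ≤ u := by exact_mod_cast (Finset.mem_range.1 hi).le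
      exact mul_le_mul_of_nonneg_left (sum_psi_le u _ i) (by linarith)
    refine (Finset.sum_le_sum h7).trans ?_
    rw [← Finset.sum_mul, ramp_sum, sq]
  refine (h2.trans h3).trans ?_
  rw [h4]
  exact mul_le_mul_of_nonneg_right (by linarith) hW0

/-- The algebra of the main inequality, for a real mean size `k`. -/
theorem energy_alg (u : ℕ) (hu : 0 < u) (D : ℤ) (hD : (u : ℤ) ≤ D) (e : ℝ) (he : 0 ≤ e)
    (hM : ∀ x : ℤ, D - u < x → ren u x ≤ (1 + e) * lim u)
    (hM' : ∀ x : ℤ, D - u < x → 0 ≤ ren u x) (k S : ℝ) (hk0 : 0 ≤ k)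
    (h1 : (k * ((u : ℝ) * (u + 1) / 2 * u)) ^ 2
      ≤ S * ∑ r ∈ Finset.Ioc (-(u : ℤ)) D, wt u r ^ 2)
    (h2 : S ≤ k * ((u : ℝ) * (u + 1) * (2 * u + 1) / 6) + ((u : ℝ) * (u + 1) / 2) ^ 2) :
    k ^ 2 ≤ (1 + 4 * k / (3 * u)) * (D + 1 + 2 * u / 3 * (1 + e) ^ 2) := by
  have hu' : (1 : ℝ) ≤ u := by exact_mod_cast hu
  have hD' : (u : ℝ) ≤ D := by exact_mod_cast hD
  set M : ℝ := (1 + e) * lim u with hMdef
  have hM0 : 0 ≤ M := by
    have := lim_pos u
    positivity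
  have h3 := wt_sq_sum u hu D hD M hM0 hM hM'
  have h4 := tot_le u hu D hD M hM
  have hlim := lim_mul u
  set P : ℝ := (u : ℝ) * (u + 1) / 2 with hP
  have hPpos : 0 < P := by rw [hP]; positivity
  have hMP : P * M = (1 + e) * u := by
    rw [hMdef]
    linear_combination (1 + e) * hlim
  -- the weights
  have h5 : ∑ r ∈ Finset.Ioc (-(u : ℤ)) D, wt u r ^ 2
      ≤ (u : ℝ) ^ 2 * (D + 1 + 2 * u / 3 * (1 + e) ^ 2) := by
    have h6 : P * u * tot u D ≤ u * (u * (D + 1) + M * (P * ((u - 1) / 3))) := by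
      have := mul_le_mul_of_nonneg_left h4 (show (0 : ℝ) ≤ u by linarith)
      linarith
    have h7 : P * ((u - 1) / 3) * (P * M * M) = (u - 1) / 3 * ((1 + e) ^ 2 * u ^ 2) := by
      have : P * ((u - 1) / 3) * (P * M * M) = (u - 1) / 3 * ((P * M) ^ 2) := by ring
      rw [this, hMP]
      ring
    have h8 : M * (P * (((u : ℝ) - 1) / 3)) = (u - 1) / 3 * ((1 + e) * u) := by
      rw [← hMP]
      ring
    rw [h8] at h6
    rw [h7] at h3
    have h9 : (1 + e) * (u : ℝ) ≤ (1 + e) ^ 2 * u := by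
      have : (1 + e) ≤ (1 + e) ^ 2 := by nlinarith
      exact mul_le_mul_of_nonneg_right this (by linarith)
    have h10 : ((u : ℝ) - 1) / 3 * ((1 + e) * u) ≤ (u - 1) / 3 * ((1 + e) ^ 2 * u) :=
      mul_le_mul_of_nonneg_left h9 (by linarith)
    have h11 : (u : ℝ) * ((u - 1) / 3 * ((1 + e) * u)) ≤ u * ((u - 1) / 3 * ((1 + e) ^ 2 * u)) :=
      mul_le_mul_of_nonneg_left h10 (by linarith)
    have h12 : 0 ≤ (u : ℝ) ^ 2 * (2 / 3 * (1 + e) ^ 2) := by positivity
    nlinarith [h3, h6, h11, h12]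
  have h13 : k * ((u : ℝ) * (u + 1) * (2 * u + 1) / 6) + P ^ 2
      ≤ P ^ 2 * (1 + 4 * k / (3 * u)) := by
    have h14 : (u : ℝ) * (u + 1) * (2 * u + 1) / 6 ≤ P ^ 2 * (4 / (3 * u)) := by
      have e1 : P ^ 2 * (4 / (3 * (u : ℝ))) = u * (u + 1) ^ 2 / 3 := by
        rw [hP]
        field_simp
        ring
      rw [e1]
      nlinarith [mul_nonneg (show (0 : ℝ) ≤ u by linarith) (show (0 : ℝ) ≤ (u : ℝ) + 1 by linarith)]
    have h15 := mul_le_mul_of_nonneg_left h14 hk0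
    have e2 : P ^ 2 * (1 + 4 * k / (3 * u)) = k * (P ^ 2 * (4 / (3 * u))) + P ^ 2 := by
      field_simp
      ring
    rw [e2]
    linarith
  have h16 : (k * (P * u)) ^ 2 ≤ (P ^ 2 * (1 + 4 * k / (3 * u)))
      * ((u : ℝ) ^ 2 * (D + 1 + 2 * u / 3 * (1 + e) ^ 2)) := by
    refine h1.trans (mul_le_mul (h2.trans h13) h5 ?_ ?_)
    · exact Finset.sum_nonneg fun _ _ => sq_nonneg _
    · positivity
  have h17 : 0 < (P * (u : ℝ)) ^ 2 := by positivity
  have h18 : (P * (u : ℝ)) ^ 2 * k ^ 2 ≤ (P * (u : ℝ)) ^ 2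
      * ((1 + 4 * k / (3 * u)) * (D + 1 + 2 * u / 3 * (1 + e) ^ 2)) := by
    calc (P * (u : ℝ)) ^ 2 * k ^ 2 = (k * (P * u)) ^ 2 := by ring
      _ ≤ _ := h16
      _ = _ := by ring
  exact le_of_mul_le_mul_left h18 h17


/-- The inversion, for a real mean size `k`. -/
theorem size_alg : ∃ C : ℝ, ∀ (N : ℕ) (k : ℝ), 0 < N → 0 ≤ k → k ^ 2 - k ≤ 2 * N →
    (∀ u : ℕ, 0 < u → (u : ℤ) ≤ (N : ℤ) - 1 → ∀ e : ℝ, 0 ≤ e →
      (∀ x : ℤ, ((N : ℤ) - 1) - u < x → ren u x ≤ (1 + e) * lim u) →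
      k ^ 2 ≤ (1 + 4 * k / (3 * u)) * ((((N : ℤ) - 1 : ℤ) : ℝ) + 1 + 2 * u / 3 * (1 + e) ^ 2)) →
    k ≤ √N + 2 * √2 / 3 * √(√N) + C := by
  set K : ℝ := 151875 with hK
  set L : ℝ := 2 * K + K ^ 2 with hL
  set c : ℝ := 3 + 2 * L with hc
  set b : ℝ := 2 * √2 / 3 with hb
  have hs2 : √2 ^ 2 = (2 : ℝ) := Real.sq_sqrt (by norm_num)
  have hs2pos : 0 < √(2 : ℝ) := by positivity
  have hs2lt : √(2 : ℝ) ≤ 1.4143 := by
    rw [Real.sqrt_le_left (by norm_num)]
    norm_num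
  have hb0 : 0 ≤ b := by rw [hb]; positivity
  have hK0 : 0 ≤ K := by rw [hK]; norm_num
  have hL0 : 0 ≤ L := by rw [hL]; positivity
  have hc0 : 0 ≤ c := by rw [hc]; positivity
  have hb1 : b ≤ 1 := by rw [hb]; linarith
  have hC0 : 0 ≤ (c + 6 * (2 * b + c) ^ 2) / 2 + (2 * b + c) ^ 2 := by positivity
  refine ⟨(c + 6 * (2 * b + c) ^ 2) / 2 + (2 * b + c) ^ 2 + 16, ?_⟩
  intro N k hN hk0 htriv henergy
  have hNs : 0 ≤ √(N : ℝ) := Real.sqrt_nonneg _
  have hNss : 0 ≤ √(√(N : ℝ)) := Real.sqrt_nonneg _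
  have hbs : 0 ≤ b * √(√(N : ℝ)) := mul_nonneg hb0 hNss
  by_cases hk16 : k < 16
  · linarith
  push Not at hk16
  by_cases hkN : k ^ 2 ≤ N
  · have : k ≤ √(N : ℝ) := Real.le_sqrt_of_sq_le hkN
    linarith
  push Not at hkN
  -- the square root of the size
  set t : ℝ := √k with ht
  have htsq : t ^ 2 = k := Real.sq_sqrt hk0
  have ht4 : 4 ≤ t := by
    rw [ht]
    apply Real.le_sqrt_of_sq_le
    linarith
  have ht0 : 0 < t := by linarith
  have hNr : (0 : ℝ) < N := by exact_mod_cast hN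
  have hN1 : 2 / 5 * t ^ 4 ≤ N := by
    have h1 : t ^ 4 = k ^ 2 := by rw [← htsq]; ring
    rw [h1]
    have h2 : 16 * k ≤ k * k := mul_le_mul_of_nonneg_right hk16 hk0
    have h3 : k ^ 2 = k * k := sq k
    linarith
  have hN2 : (N : ℝ) ≤ t ^ 4 := by
    have h1 : t ^ 4 = k ^ 2 := by rw [← htsq]; ring
    rw [h1]
    exact hkN.le
  -- the window length
  obtain ⟨u, hu1, hu2⟩ : ∃ u : ℕ, √2 * t ^ 3 ≤ u ∧ (u : ℝ) ≤ √2 * t ^ 3 + 1 :=
    ⟨⌈√2 * t ^ 3⌉₊, Nat.le_ceil _, (Nat.ceil_lt_add_one (by positivity)).le⟩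
  have ht3 : 64 ≤ t ^ 3 := by
    have := pow_le_pow_left₀ (by norm_num : (0 : ℝ) ≤ 4) ht4 3
    linarith
  have hupos : (0 : ℝ) < u := lt_of_lt_of_le (by positivity) hu1
  have hu0 : 0 < u := by exact_mod_cast hupos
  have hu3 : (u : ℝ) ≤ 3 / 2 * t ^ 3 := by
    have : √2 * t ^ 3 ≤ 1.4143 * t ^ 3 := mul_le_mul_of_nonneg_right hs2lt (by linarith)
    linarith
  have huN : (u : ℤ) ≤ (N : ℤ) - 1 := by
    have h1 : (u : ℝ) + 1 ≤ N := by
      have h2 : 3 / 2 * t ^ 3 + 1 ≤ 2 / 5 * t ^ 4 := by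
        have h3 : t ^ 4 = t * t ^ 3 := by ring
        have h4 : 4 * t ^ 3 ≤ t * t ^ 3 := mul_le_mul_of_nonneg_right ht4 (by linarith)
        rw [h3]
        linarith
      linarith
    have h2 : u + 1 ≤ N := by exact_mod_cast h1
    omega
  -- the error term
  set e : ℝ := ((u : ℝ) + 1) / 2 * Real.exp (-((N : ℝ) - u) / (2 * u)) with he
  have he0 : 0 ≤ e := by rw [he]; positivity
  have heK : e ≤ K / t := by
    have h1 : -((N : ℝ) - u) / (2 * u) ≤ 1 / 2 - 2 / 15 * t := by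
      rw [div_le_iff₀ (by positivity)]
      have h2 : (1 / 2 - 2 / 15 * t) * (2 * (u : ℝ)) = u - 4 / 15 * t * u := by ring
      rw [h2]
      have h3 : 4 / 15 * t * u ≤ N := by
        calc 4 / 15 * t * u ≤ 4 / 15 * t * (3 / 2 * t ^ 3) :=
              mul_le_mul_of_nonneg_left hu3 (by positivity)
          _ = 2 / 5 * t ^ 4 := by ring
          _ ≤ N := hN1
      linarith
    have h4 : Real.exp (-((N : ℝ) - u) / (2 * u)) ≤ 2 * Real.exp (-(2 / 15 * t)) := by
      refine (Real.exp_le_exp.2 h1).trans ?_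
      have h5 : (1 : ℝ) / 2 - 2 / 15 * t = 1 / 2 + -(2 / 15 * t) := by ring
      rw [h5, Real.exp_add]
      apply mul_le_mul_of_nonneg_right _ (Real.exp_pos _).le
      have h6 : Real.exp (1 / 2) ≤ 2 := by
        have h7 : Real.exp (1 / 2) ^ 2 ≤ 2 ^ 2 := by
          rw [← Real.exp_nat_mul]
          norm_num
          linarith [Real.exp_one_lt_d9]
        exact le_of_sq_le_sq h7 (by norm_num)
      exact h6
    have h8 : Real.exp (-(2 / 15 * t)) ≤ 24 / (2 / 15 * t) ^ 4 := by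
      have h9 := Real.pow_div_factorial_le_exp (2 / 15 * t) (by positivity) 4
      rw [Real.exp_neg]
      have h10 : ((4 : ℕ).factorial : ℝ) = 24 := by norm_num [Nat.factorial]
      rw [h10] at h9
      rw [inv_le_comm₀ (Real.exp_pos _) (by positivity), inv_div]
      exact h9
    have h11 : ((u : ℝ) + 1) / 2 ≤ t ^ 3 := by linarith
    calc e ≤ t ^ 3 * (2 * (24 / (2 / 15 * t) ^ 4)) := by
          rw [he]
          apply mul_le_mul h11 (h4.trans (mul_le_mul_of_nonneg_left h8 (by norm_num)))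
            (Real.exp_pos _).le (by positivity)
      _ = K / t := by
          rw [hK]
          field_simp
          ring
  have hMbound : ∀ x : ℤ, ((N : ℤ) - 1) - u < x → ren u x ≤ (1 + e) * lim u := by
    intro x hx
    have hx0 : 0 ≤ x := by omega
    have h1 := cen_abs_le u hu0 x hx0
    have h2 : ren u x ≤ lim u + Real.exp (-(x : ℝ) / (2 * u)) := by
      have := (abs_le.1 h1).2
      unfold cen at this
      linarith
    have h3 : Real.exp (-(x : ℝ) / (2 * u)) ≤ Real.exp (-((N : ℝ) - u) / (2 * u)) := by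
      apply Real.exp_le_exp.2
      apply div_le_div_of_nonneg_right _ (by positivity)
      have h4 : (N : ℤ) - u ≤ x := by omega
      have h5 : (N : ℝ) - u ≤ x := by exact_mod_cast h4
      linarith
    have h6 : e * lim u = Real.exp (-((N : ℝ) - u) / (2 * u)) := by
      rw [he, lim]
      field_simp
    linarith
  have hmain := henergy u hu0 huN e he0 hMbound
  have hcast : (((N : ℤ) - 1 : ℤ) : ℝ) + 1 = N := by push_cast; ring
  rw [hcast] at hmain
  -- simplify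
  have h20 : (1 + e) ^ 2 ≤ 1 + L / t := by
    have h21 : (1 + e) ^ 2 ≤ (1 + K / t) ^ 2 := pow_le_pow_left₀ (by linarith) (by linarith) 2
    have h22 : (K / t) ^ 2 ≤ K ^ 2 / t := by
      rw [div_pow, div_le_div_iff₀ (by positivity) ht0]
      have : t ≤ t ^ 2 := le_self_pow₀ (by linarith) (by norm_num)
      exact mul_le_mul_of_nonneg_left this (by positivity)
    have h23 : L / t = 2 * (K / t) + K ^ 2 / t := by rw [hL]; ring
    rw [h23]
    have h23' : (1 + K / t) ^ 2 = 1 + 2 * (K / t) + (K / t) ^ 2 := by ring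
    linarith
  have h24 : 2 * (u : ℝ) / 3 * (1 + e) ^ 2 ≤ b * t ^ 3 + 2 / 3 + L * t ^ 2 := by
    calc 2 * (u : ℝ) / 3 * (1 + e) ^ 2 ≤ 2 * (u : ℝ) / 3 * (1 + L / t) :=
          mul_le_mul_of_nonneg_left h20 (by positivity)
      _ = 2 * (u : ℝ) / 3 + 2 * (u : ℝ) / 3 * (L / t) := by ring
      _ ≤ (b * t ^ 3 + 2 / 3) + 2 * (3 / 2 * t ^ 3) / 3 * (L / t) := by
          apply add_le_add
          · have : b * t ^ 3 = 2 / 3 * (√2 * t ^ 3) := by rw [hb]; ring
            linarith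
          · apply mul_le_mul_of_nonneg_right _ (by positivity)
            linarith
      _ = b * t ^ 3 + 2 / 3 + L * t ^ 2 := by
          field_simp
  have h25 : 4 * k / (3 * u) ≤ b / t := by
    rw [div_le_div_iff₀ (by positivity) ht0, ← htsq, hb]
    have h26 : 2 * √2 / 3 * (3 * (√2 * t ^ 3)) ≤ 2 * √2 / 3 * (3 * (u : ℝ)) := by
      apply mul_le_mul_of_nonneg_left _ (by positivity)
      linarith
    have h27 : 2 * √2 / 3 * (3 * (√2 * t ^ 3)) = 4 * t ^ 2 * t := by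
      have : 2 * √2 / 3 * (3 * (√2 * t ^ 3)) = 2 * (√2 ^ 2) * t ^ 3 := by ring
      rw [this, hs2]
      ring
    linarith
  have h28 : k ^ 2 ≤ (1 + b / t) * (N + (b * t ^ 3 + 2 / 3 + L * t ^ 2)) := by
    refine hmain.trans ?_
    apply mul_le_mul (by linarith) (by linarith) (by positivity) (by positivity)
  have h29 : t ^ 4 ≤ N + 2 * b * t ^ 3 + c * t ^ 2 := by
    have h30 : t ^ 4 = k ^ 2 := by rw [← htsq]; ring
    rw [h30]
    refine h28.trans ?_
    have h31 : b / t * N ≤ b * t ^ 3 := by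
      calc b / t * N ≤ b / t * t ^ 4 := mul_le_mul_of_nonneg_left hN2 (by positivity)
        _ = b * t ^ 3 := by field_simp
    have h32 : b / t * (b * t ^ 3) = b ^ 2 * t ^ 2 := by field_simp
    have h33 : b / t ≤ 1 := by
      rw [div_le_one ht0]
      linarith
    have h34 : b / t * (2 / 3 + L * t ^ 2) ≤ 2 / 3 + L * t ^ 2 := by
      have : 0 ≤ 2 / 3 + L * t ^ 2 := by positivity
      exact mul_le_of_le_one_left this h33
    have h35 : b ^ 2 ≤ 1 := pow_le_one₀ hb0 hb1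
    have h36 : (1 : ℝ) ≤ t ^ 2 := one_le_pow₀ (by linarith)
    have h37 : b ^ 2 * t ^ 2 ≤ t ^ 2 := mul_le_of_le_one_left (by positivity) h35
    have h38 : (1 + b / t) * (N + (b * t ^ 3 + 2 / 3 + L * t ^ 2))
        = N + b / t * N + b * t ^ 3 + b / t * (b * t ^ 3) + (2 / 3 + L * t ^ 2)
          + b / t * (2 / 3 + L * t ^ 2) := by ring
    rw [h38, hc]
    linarith
  set s : ℝ := √(√(N : ℝ)) with hs
  have hs2' : s ^ 2 = √(N : ℝ) := Real.sq_sqrt hNs
  have hs4 : s ^ 4 = N := by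
    have : s ^ 4 = (s ^ 2) ^ 2 := by ring
    rw [this, hs2', Real.sq_sqrt hNr.le]
  have hq := quartic b c t s hb0 hc0 (by linarith) hNss (by rw [hs4]; exact h29)
  rw [htsq, hs2'] at hq
  linarith


end Pool.Agent.SAV.Uppx

namespace Pool.Agent.SAV

open Uppx Helper63.Sidon

theorem thm_Upp : St_Upp := by
  obtain ⟨C, hC⟩ := size_alg
  refine ⟨max C 0, ?_⟩
  intro N p hp
  rcases Nat.eq_zero_or_pos N with hN | hN
  · subst hN
    have h1 : meanCard 0 p = 0 := by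
      unfold meanCard
      rw [show Icc 1 0 = (∅ : Finset ℕ) from by decide, Finset.powerset_empty,
        Finset.sum_singleton]
      simp
    rw [h1]
    positivity
  · have h1 := hC N (meanCard N p) hN (mean_nonneg N p hp) (triv N p hp) (by
      intro u hu huN e he hM
      exact energy_alg u hu _ huN e he hM (fun x _ => ren_nonneg u x) _ _ (mean_nonneg N p hp)
        (avg_energy u N p hp) le_rfl)
    have h2 : √(√(N : ℝ)) = (N : ℝ) ^ (1 / 4 : ℝ) := by
      rw [Real.sqrt_eq_rpow, Real.sqrt_eq_rpow, ← Real.rpow_mul (Nat.cast_nonneg _)]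
      norm_num
    rw [h2] at h1
    have h3 : C ≤ max C 0 := le_max_left _ _
    linarith

end Pool.Agent.SAV
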