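import Pool.Agent.SAV.Cel
import Pool.Agent.SAV.Cnt
import Pool.Agent.SAV.Pnt
import Pool.Agent.SAV.Dec
import Pool.Agent.SAV.Dcs
import Pool.Agent.SAV.Gam
import Pool.Agent.SAV.Idn
import Pool.Agent.SAV.Alg
import Pool.Agent.SAV.Cor
import Pool.Agent.SAV.Prf
import Pool.Agent.SAV.Rsm
import Pool.Agent.SAV.Rlg
import Pool.Agent.SAV.Ind
import Pool.Agent.SAV.Low
import Pool.Agent.SAV.Upp

/-!
# Assembly
-/

set_option autoImplicit false

namespace Pool.Agent.SAV

theorem dec : St_Dec := thm_Dec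

theorem dcs : St_Dcs := thm_Dcs dec

theorem gam : St_Gam := thm_Gam dcs

theorem idn : St_Idn := thm_Idn dec dcs

theorem corr : St_Cor := thm_Cor dec dcs idn thm_Alg

theorem prf : St_Prf := thm_Prf dec dcs gam

theorem rsm : St_Rsm := thm_Rsm dec dcs corr

theorem rlg : St_Rlg := thm_Rlg dec dcs prf

theorem cel : St_Cel := thm_Cel thm_Ind thm_Cnd thm_Cns thm_Lvl

/-- The lower bound. -/
theorem low : St_Low := thm_Low prf rsm rlg cel

/-- The upper bound. -/
theorem upp : St_Upp := thm_Upp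

end Pool.Agent.SAV
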