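import Mathlib

/-!
# Sidon sets on average

A random subset `A` of `{1, ..., N}` (given by its weights `p`) is *Sidon on average* if every
`d ≥ 1` is on average at most once a difference of two elements of `A`, and every `s` is on average
at most once a sum `a + b`, `a ≤ b`, of two elements of `A`.
-/

set_option autoImplicit false

open Finset

namespace Pool.Agent.SAV

/-- The number of pairs of elements of `A` with difference `d` (for `d ≥ 1`). -/
def diffCount (A : Finset ℕ) (d : ℕ) : ℕ := (A.filter fun a => a + d ∈ A).card

/-- The number of pairs `a ≤ b` of elements of `A` with sum `s`. -/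
def sumCount (A : Finset ℕ) (s : ℕ) : ℕ :=
  ((A ×ˢ A).filter fun x => x.1 ≤ x.2 ∧ x.1 + x.2 = s).card

/-- The weights `p` define a random subset of `{1, ..., N}` for which each `d ≥ 1` is on average at
most once a difference, and each `s` is on average at most once a sum. -/
structure IsSidonOnAverage (N : ℕ) (p : Finset ℕ → ℝ) : Prop where
  nonneg : ∀ A ∈ (Icc 1 N).powerset, 0 ≤ p A
  total : ∑ A ∈ (Icc 1 N).powerset, p A = 1
  diff : ∀ d : ℕ, 1 ≤ d → ∑ A ∈ (Icc 1 N).powerset, p A * diffCount A d ≤ 1
  sum : ∀ s : ℕ, ∑ A ∈ (Icc 1 N).powerset, p A * sumCount A s ≤ 1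

/-- The mean number of elements of the random subset of `{1, ..., N}` with weights `p`. -/
noncomputable def meanCard (N : ℕ) (p : Finset ℕ → ℝ) : ℝ :=
  ∑ A ∈ (Icc 1 N).powerset, p A * A.card

end Pool.Agent.SAV
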