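import Pool.Agent.Helper63.Sidon.Final
import Pool.Agent.SAV.Def

/-!
# Statements of the modules of `SAV` (paper: store `helper7_SAV_paper.md`)
-/

set_option autoImplicit false

open Finset

namespace Pool.Agent.SAV

/-- `a_n = (U+1)/2 * v_n - 1`: deviation of the normalised renewal sequence from its limit. -/
noncomputable def dev (U n : ℕ) : ℝ := ((U : ℝ) + 1) / 2 * Helper63.Sidon.ren U (n : ℤ) - 1

/-- `f_j = a_j + a_(J-1-j)`; the profile is `w_j = 1 + f_j`, `j < J`. -/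
noncomputable def pf (U J j : ℕ) : ℝ := dev U j + dev U (J - 1 - j)

/-- The correlation sums `G_e`. -/
noncomputable def cor (U e : ℕ) : ℝ := ∑' j : ℕ, (dev U j + dev U (j + e) + dev U j * dev U (j + e))

/-- `H_e = G_e - e/2`. -/
noncomputable def hc (U e : ℕ) : ℝ := cor U e - (e : ℝ) / 2

/-- (A) decay. -/
def St_Dec : Prop := ∀ U : ℕ, 1 ≤ U → ∀ n : ℕ, 1 ≤ n →
  |dev U n| ≤ (1 / 2 : ℝ) ^ ((n - 1) / U) ∧ -(1 / 2) ≤ dev U n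

/-- (A) sums of the deviations (from `St_Dec`). -/
def St_Dcs : Prop := ∀ U : ℕ, 1 ≤ U → ∀ T T' : ℕ, 1 ≤ T →
  ∑ n ∈ Ico T T', |dev U n| ≤ 2 * U * (1 / 2 : ℝ) ^ ((T - 1) / U)

/-- (B1) the total deviation. -/
def St_Gam : Prop := ∀ U : ℕ, 1 ≤ U → ∀ T : ℕ, 1 ≤ T →
  |∑ j ∈ range T, dev U j - ((U : ℝ) - 1) / 3| ≤ 2 * U * (1 / 2 : ℝ) ^ ((T - 1) / U)

/-- (B2) the identity (*). -/
def St_Idn : Prop := ∀ U : ℕ, 1 ≤ U → ∀ e : ℕ,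
  ∑ i ∈ range U, ((U : ℝ) - i) * hc U ((e : ℤ) - i).natAbs
    = (U : ℝ) * (U + 1) / 2 * (((U : ℝ) - 1 - e) / 2)

/-- (B3) pure algebra: (*) implies `H_e ≤ -1/2` for `e ≥ 1`. -/
def St_Alg : Prop := ∀ (U : ℕ) (H : ℕ → ℝ), 1 ≤ U →
  (∀ e : ℕ, ∑ i ∈ range U, ((U : ℝ) - i) * H ((e : ℤ) - i).natAbs
    = (U : ℝ) * (U + 1) / 2 * (((U : ℝ) - 1 - e) / 2)) →
  ∀ e : ℕ, 1 ≤ e → H e ≤ -(1 / 2)

/-- (B4) the finite form of the correlation bound. -/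
def St_Cor : Prop := ∀ U : ℕ, 1 ≤ U → ∀ e : ℕ, 1 ≤ e → ∀ T : ℕ, 1 ≤ T →
  ∑ j ∈ range T, (dev U j + dev U (j + e) + dev U j * dev U (j + e))
    ≤ ((e : ℝ) - 1) / 2 + 6 * U * (1 / 2 : ℝ) ^ ((T - 1) / U)

/-- Admissible parameters. -/
structure Good (U J : ℕ) : Prop where
  hU : 100 ≤ U
  hJ : U ^ 2 + 50 * U ≤ 2 * J
  hE : 21 * U ≤ 2 ^ ((J / 8 - 2) / U)

/-- (C0)-(C4) the profile. -/
def St_Prf : Prop := ∀ U J : ℕ, Good U J →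
  (∀ j < J, 0 ≤ 1 + pf U J j ∧ 1 + pf U J j ≤ U) ∧
  (∑ j ∈ range J, |pf U J j| ≤ 5 * U) ∧
  (∑ j ∈ range J, pf U J j ^ 2 ≤ (U : ℝ) ^ 2 / 2 + 10 * U) ∧
  (2 * ((U : ℝ) - 1) / 3 - 1 ≤ ∑ j ∈ range J, pf U J j)

/-- (C5), `J - e ≥ J/4`. -/
def St_Rsm : Prop := ∀ U J : ℕ, Good U J → ∀ e : ℕ, 1 ≤ e → e < J → J ≤ 4 * (J - e) →
  ∑ j ∈ range (J - e), (1 + pf U J j) * (1 + pf U J (j + e)) ≤ J

/-- (C5), `J - e < J/4`. -/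
def St_Rlg : Prop := ∀ U J : ℕ, Good U J → ∀ e : ℕ, 1 ≤ e → e < J → 4 * (J - e) < J →
  ∑ j ∈ range (J - e), (1 + pf U J j) * (1 + pf U J (j + e)) ≤ J

/-- (D) independent random points. -/
def St_Ind : Prop := ∀ (ι : Type) [Fintype ι] [DecidableEq ι] (N : ℕ) (q : ι → ℕ → ℝ),
  (∀ k x, 0 ≤ q k x) → (∀ k x, x ∉ Icc 1 N → q k x = 0) → (∀ k, ∑ x ∈ Icc 1 N, q k x ≤ 1) →
  ∃ p : Finset ℕ → ℝ, (∀ A, 0 ≤ p A) ∧ (∑ A ∈ (Icc 1 N).powerset, p A = 1) ∧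
    (∀ d : ℕ, 1 ≤ d → (∑ A ∈ (Icc 1 N).powerset, p A * (diffCount A d : ℝ))
      ≤ ∑ k : ι, ∑ l ∈ univ.erase k, ∑ x ∈ Icc 1 N, q k x * q l (x + d)) ∧
    (∀ s : ℕ, (∑ A ∈ (Icc 1 N).powerset, p A * (sumCount A s : ℝ))
      ≤ (∑ k : ι, ∑ l ∈ univ.erase k, ∑ x ∈ Icc 1 N, q k x * q l (s - x)) / 2
        + ∑ k : ι, ∑ x ∈ Icc 1 N, (if 2 * x = s then q k x else (0 : ℝ))) ∧
    (∑ k : ι, ∑ x ∈ Icc 1 N, q k x
        - (∑ k : ι, ∑ l ∈ univ.erase k, ∑ x ∈ Icc 1 N, q k x * q l x) / 2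
      ≤ meanCard N p)

/-- (E1) numbers of pairs with a given difference in two cells. -/
def St_Cnd : Prop := ∀ M N i j e t : ℕ, t < M → (i + 1) * M ≤ N →
  ((Icc 1 N).filter fun x => (i * M < x ∧ x ≤ (i + 1) * M) ∧
      j * M < x + (e * M + t) ∧ x + (e * M + t) ≤ (j + 1) * M).card
    = if j = i + e then M - t else if j = i + e + 1 then t else 0

/-- (E2) numbers of pairs with a given sum in two cells. -/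
def St_Cns : Prop := ∀ M N i j e t : ℕ, 1 ≤ t → t ≤ M → (i + 1) * M ≤ N →
  ((Icc 1 N).filter fun x => (i * M < x ∧ x ≤ (i + 1) * M) ∧
      j * M < e * M + t - x ∧ e * M + t - x ≤ (j + 1) * M).card
    = if i + j = e then t - 1 else if i + j + 1 = e then M + 1 - t else 0

/-- (E3) the levels. -/
def St_Lvl : Prop := ∀ (w : ℝ) (K : ℕ), 0 ≤ w → w ≤ K →
  (∑ k ∈ range K, max 0 (min 1 (w - k)) = w) ∧
  (w ^ 2 - ∑ k ∈ range K, (max 0 (min 1 (w - k))) ^ 2 ≤ (w - 1) ^ 2 + 2 * |w - 1|)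

/-- (E) the cell lemma. -/
def St_Cel : Prop := ∀ (M J N : ℕ) (w : ℕ → ℝ) (W : ℝ), 1 ≤ M → J * M ≤ N →
  (∀ j < J, 0 ≤ w j ∧ w j ≤ W) →
  (∀ e : ℕ, 1 ≤ e → e < J → ∑ j ∈ range (J - e), w j * w (j + e) ≤ M) →
  (∑ j ∈ range J, ((w j - 1) ^ 2 + 2 * |w j - 1|) ≤ (M : ℝ)) →
  ((∑ j ∈ range J, w j ^ 2) / 2 + W ≤ M) →
  ∃ p : Finset ℕ → ℝ, IsSidonOnAverage N p ∧ ∑ j ∈ range J, w j - 1 / 2 ≤ meanCard N p

/-- (F) the lower bound. -/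
def St_Low : Prop := ∃ C : ℝ, ∀ N : ℕ, ∃ p : Finset ℕ → ℝ, IsSidonOnAverage N p ∧
  √(N : ℝ) + 2 * √2 / 3 * (N : ℝ) ^ (1 / 4 : ℝ) - C ≤ meanCard N p

/-- (G) the upper bound. -/
def St_Upp : Prop := ∃ C : ℝ, ∀ (N : ℕ) (p : Finset ℕ → ℝ), IsSidonOnAverage N p →
  meanCard N p ≤ √(N : ℝ) + 2 * √2 / 3 * (N : ℝ) ^ (1 / 4 : ℝ) + C

/-- (H) a single set is Sidon on average iff it is Sidon: every difference at most once. -/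
def St_Pnt : Prop := ∀ (N : ℕ) (A : Finset ℕ), A ⊆ Icc 1 N →
  (IsSidonOnAverage N (fun B => if B = A then 1 else 0) ↔
    ∀ a ∈ A, ∀ b ∈ A, ∀ c ∈ A, ∀ d ∈ A, a + b = c + d → (a = c ∧ b = d) ∨ (a = d ∧ b = c))

end Pool.Agent.SAV
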